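import Mathlib
import Pool.Agent.NH32.Stm

/-!
# The variational principle for systems of classes on abelian varieties

Two complex abelian varieties `X` and `X'` with the same rational homology (identified by `e`) and a
common polarization `E` are members of the family of all abelian varieties with this homology and
this polarization. Let `f` be a class which is a Hodge class on both. The complex structures for
which `E` is a polarization and `f` is a Hodge class form a connected Hermitian symmetric domain, and
its quotients by (small) arithmetic groups are quasi-projective varieties which carry an abelian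
scheme, on which `f` is a global section. So the variational Hodge conjecture implies that `f` is
algebraic on `X'` if it is algebraic on `X`.
-/

namespace Pool.Agent.NH36.VH

open Module Pool.Agent.Y90 Pool.Agent.NH32
open Pool.Agent.H204R3.CM (IsHodge)

/-- **The variational principle in degree `m`** for the system `𝒜`: let `X` and `X'` be abelian
varieties with the same rational homology, identified by `e`, and with a common polarization `E`. If
the class `f` of degree `m` is a Hodge class on `X` and on `X'`, and if it belongs to `𝒜` on `X`, then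
it belongs to `𝒜` on `X'`. -/
def Variational (𝒜 : Sys) (m : ℕ) : Prop :=
  ∀ (X X' : AV) (e : X.H ≃ₗ[ℚ] X'.H) (E : X'.H → X'.H → ℚ), IsPolarization X'.per E →
    IsPolarization X.per (fun v w => E (e v) (e w)) → ∀ f : X'.H [⋀^Fin m]→ₗ[ℚ] ℚ,
    IsHodge X'.per f → IsHodge X.per (f.compLinearMap e.toLinearMap) →
      𝒜.A X (Fin m) (f.compLinearMap e.toLinearMap) → 𝒜.A X' (Fin m) f

/-- **Two members of a family of split Weil type.** `X` and `X'` are abelian varieties with the same
rational homology, identified by `e`, the class `w` of degree `n` is a Hodge class on both, and there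
are a CM field `K` (a number field with a nontrivial automorphism `c` which is the complex
conjugation in each embedding) of endomorphisms (with rational coefficients) of both, such that
`H_1` is a vector space of dimension `n` over `K`, a polarization `E` of both whose Rosati involution
is the complex conjugation on `K`, and a `K`-subspace `W` of `H_1` of half the dimension with
`E = 0` on `W`; and `w` belongs to the subspace `⋀_K^n H^1`, that is
`w (.., a v_k, .., v_l, ..) = w (.., v_k, .., a v_l, ..)` for `a ∈ K`. -/
def IsSplitWeilPair (X X' : AV) (e : X.H ≃ₗ[ℚ] X'.H) {n : ℕ} (w : X'.H [⋀^Fin n]→ₗ[ℚ] ℚ) :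
    Prop :=
  IsHodge X'.per w ∧ IsHodge X.per (w.compLinearMap e.toLinearMap) ∧
    ∃ (K : Type) (_ : Field K) (_ : Algebra ℚ K) (ρ : K →ₐ[ℚ] Module.End ℚ X'.H)
    (c : K → K) (E : X'.H → X'.H → ℚ) (W : Submodule ℚ X'.H),
    FiniteDimensional ℚ K ∧ (∃ a, c a ≠ a) ∧
    (∀ (φ : K →+* ℂ) (a : K), φ (c a) = starRingEnd ℂ (φ a)) ∧
    (∀ a, IsHom X' X' (ρ a)) ∧
    (∀ a, IsHom X X (e.symm.toLinearMap ∘ₗ ρ a ∘ₗ e.toLinearMap)) ∧
    finrank ℚ X'.H = n * finrank ℚ K ∧
    (∀ (a : K) (v : Fin n → X'.H) (k l : Fin n),
      w (Function.update v k (ρ a (v k))) = w (Function.update v l (ρ a (v l)))) ∧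
    IsPolarization X'.per E ∧ IsPolarization X.per (fun v v' => E (e v) (e v')) ∧
    (∀ a v v', E (ρ a v) v' = E v (ρ (c a) v')) ∧
    (∀ a, ∀ v ∈ W, ρ a v ∈ W) ∧ (∀ v ∈ W, ∀ v' ∈ W, E v v' = 0) ∧
    2 * finrank ℚ W = finrank ℚ X'.H

/-- **The variational principle for split Weil classes**: a split Weil class in a family of split
Weil type belongs to `𝒜` on `X'` if it belongs to `𝒜` on `X`. -/
def VariationalSplitWeil (𝒜 : Sys) : Prop :=
  ∀ (X X' : AV) (e : X.H ≃ₗ[ℚ] X'.H) (n : ℕ) (w : X'.H [⋀^Fin n]→ₗ[ℚ] ℚ),
    IsSplitWeilPair X X' e w → 𝒜.A X (Fin n) (w.compLinearMap e.toLinearMap) → 𝒜.A X' (Fin n) w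

end Pool.Agent.NH36.VH
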