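import Mathlib
import Pool.Agent.NH36.VH.Front

/-!
# Project VH: statements of the pieces
-/

namespace Pool.Agent.NH36.VH

open Module Matrix Pool.Agent.Y90 Pool.Agent.NH32
open Pool.Agent.H204R3.CM (IsHodge)

noncomputable section

/-! ### Part 1: a CM point on each Hodge locus -/

/-- A rational matrix as a real matrix. -/
def rm {N : ℕ} (M : Matrix (Fin N) (Fin N) ℚ) : Matrix (Fin N) (Fin N) ℝ := M.map fun x => (x : ℝ)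

/-- A real matrix as a complex matrix. -/
def cmx {N : ℕ} (M : Matrix (Fin N) (Fin N) ℝ) : Matrix (Fin N) (Fin N) ℂ := M.map fun x => (x : ℂ)

/-- A rational vector as a real vector. -/
def rv {N : ℕ} (v : Fin N → ℚ) : Fin N → ℝ := fun j => (v j : ℝ)

/-- Coordinates: `e` on the rational homology, `L` on the tangent space; `J` is the complex
structure. -/
structure Chart (X : AV) {N : ℕ} (e : X.H ≃ₗ[ℚ] (Fin N → ℚ)) (L : X.T ≃ₗ[ℝ] (Fin N → ℝ))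
    (J : Matrix (Fin N) (Fin N) ℝ) : Prop where
  per : ∀ v, L (X.per v) = rv (e v)
  i : ∀ t, L (Complex.I • t) = J *ᵥ L t

/-- `J` is a complex structure for which `M` is a polarization. -/
structure Pol {N : ℕ} (J : Matrix (Fin N) (Fin N) ℝ) (M : Matrix (Fin N) (Fin N) ℚ) : Prop where
  sq : J * J = -1
  sk : Mᵀ = -M
  sp : Jᵀ * rm M + rm M * J = 0
  pos : ∀ x, x ≠ 0 → 0 < (J *ᵥ x) ⬝ᵥ (rm M *ᵥ x)

/-- The matrix `A`, acting as a derivation, kills the form `ψ`. -/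
def Kills {N m : ℕ} (A : Matrix (Fin N) (Fin N) ℝ)
    (ψ : MultilinearMap ℝ (fun _ : Fin m => Fin N → ℝ) ℝ) : Prop :=
  ∀ u : Fin m → Fin N → ℝ, ∑ k, ψ (Function.update u k (A *ᵥ u k)) = 0

/-- `z` is an endomorphism of `X` which is skew for the polarization `E` and such that
`E (z v) v > 0`. Then `X` is of CM type and `z` acts on the tangent space with eigenvalues
`i μ`, `μ > 0`. -/
structure CMp (X : AV) (E : X.H → X.H → ℚ) (z : X.H →ₗ[ℚ] X.H) : Prop where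
  hom : IsHom X X z
  pol : IsPolarization X.per E
  sk : ∀ v w, E (z v) w = -E v (z w)
  pos : ∀ v, v ≠ 0 → 0 < E (z v) v

/-- **A1.** Abelian varieties from matrices. -/
def St_A1 : Prop := ∀ (N : ℕ) (J : Matrix (Fin N) (Fin N) ℝ) (M : Matrix (Fin N) (Fin N) ℚ),
  Pol J M → ∃ (Y : AV) (e : Y.H ≃ₗ[ℚ] (Fin N → ℚ)) (L : Y.T ≃ₗ[ℝ] (Fin N → ℝ)), Chart Y e L J ∧
    IsPolarization Y.per (fun v w => e v ⬝ᵥ (M *ᵥ e w))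

/-- **A2.** Matrices from abelian varieties. -/
def St_A2 : Prop := ∀ (X : AV) (E : X.H → X.H → ℚ), IsPolarization X.per E →
  ∃ (N : ℕ) (e : X.H ≃ₗ[ℚ] (Fin N → ℚ)) (L : X.T ≃ₗ[ℝ] (Fin N → ℝ))
    (J : Matrix (Fin N) (Fin N) ℝ) (M : Matrix (Fin N) (Fin N) ℚ), Chart X e L J ∧ Pol J M ∧
    ∀ v w, E v w = e v ⬝ᵥ (M *ᵥ e w)

/-- **A3.** Homomorphisms in coordinates. -/
def St_A3 : Prop := ∀ (X : AV) (N : ℕ) (e : X.H ≃ₗ[ℚ] (Fin N → ℚ)) (L : X.T ≃ₗ[ℝ] (Fin N → ℝ))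
  (J : Matrix (Fin N) (Fin N) ℝ), Chart X e L J → ∀ z : Matrix (Fin N) (Fin N) ℚ,
  J * rm z = rm z * J → IsHom X X (e.symm.toLinearMap ∘ₗ Matrix.toLin' z ∘ₗ e.toLinearMap)

/-- **A4.** Hodge classes in coordinates. -/
def St_A4 : Prop := ∀ (X : AV) (N : ℕ) (e : X.H ≃ₗ[ℚ] (Fin N → ℚ)) (L : X.T ≃ₗ[ℝ] (Fin N → ℝ))
  (J : Matrix (Fin N) (Fin N) ℝ), Chart X e L J →
  ∀ (m : ℕ) (f : X.H [⋀^Fin m]→ₗ[ℚ] ℚ), (IsHodge X.per f ↔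
    ∃ ψ : MultilinearMap ℝ (fun _ : Fin m => Fin N → ℝ) ℝ,
      (∀ v : Fin m → X.H, ψ (fun k => rv (e (v k))) = f v) ∧ Kills J ψ)

/-- **R1.** A rational positive definite form is positive definite over the real numbers. -/
def St_R1 : Prop := ∀ (N : ℕ) (S : Matrix (Fin N) (Fin N) ℚ), Sᵀ = S →
  (∀ x : Fin N → ℚ, x ≠ 0 → 0 < x ⬝ᵥ (S *ᵥ x)) → ∀ x : Fin N → ℝ, x ≠ 0 → 0 < x ⬝ᵥ (rm S *ᵥ x)

/-- **R2.** A matrix which is skew for a positive definite form has a basis of eigenvectors, with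
purely imaginary eigenvalues. -/
def St_R2 : Prop := ∀ (N : ℕ) (S z : Matrix (Fin N) (Fin N) ℝ), Sᵀ = S →
  (∀ x : Fin N → ℝ, x ≠ 0 → 0 < x ⬝ᵥ (S *ᵥ x)) → zᵀ * S + S * z = 0 →
  ∃ (u : Fin N → Fin N → ℂ) (μ : Fin N → ℝ), LinearIndependent ℂ u ∧
    ∀ k, cmx z *ᵥ u k = (Complex.I * μ k) • u k

/-- **C1.** Rational solutions near a real solution. -/
def St_C1 : Prop := ∀ (N m : ℕ) (J : Matrix (Fin N) (Fin N) ℝ) (M : Matrix (Fin N) (Fin N) ℚ),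
  Jᵀ * rm M + rm M * J = 0 → ∀ ψ : MultilinearMap ℝ (fun _ : Fin m => Fin N → ℝ) ℝ,
  (∀ v : Fin m → Fin N → ℚ, ∃ q : ℚ, ψ (fun k => rv (v k)) = (q : ℝ)) → Kills J ψ → ∀ ε : ℝ, 0 < ε →
  ∃ z : Matrix (Fin N) (Fin N) ℚ, (rm z)ᵀ * rm M + rm M * rm z = 0 ∧ Kills (rm z) ψ ∧
    ∀ i j, |rm z i j - J i j| < ε

/-- **C2.** Matrices close to the complex structure. -/
def St_C2 : Prop := ∀ (N m : ℕ) (J : Matrix (Fin N) (Fin N) ℝ) (M : Matrix (Fin N) (Fin N) ℚ),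
  Pol J M → ∃ ε : ℝ, 0 < ε ∧ ∀ z : Matrix (Fin N) (Fin N) ℝ, (∀ i j, |z i j - J i j| < ε) →
    (∀ x, x ≠ 0 → 0 < (z *ᵥ x) ⬝ᵥ (rm M *ᵥ x)) ∧
    ∀ (u : Fin N → ℂ) (l : ℂ), u ≠ 0 → cmx z *ᵥ u = l • u → ‖l ^ 2 + 1‖ < 1 / (m + 1)

/-- **C3.** The polar part. -/
def St_C3 : Prop := ∀ (N : ℕ) (z : Matrix (Fin N) (Fin N) ℝ) (M : Matrix (Fin N) (Fin N) ℚ),
  Mᵀ = -M → zᵀ * rm M + rm M * z = 0 → (∀ x, x ≠ 0 → 0 < (z *ᵥ x) ⬝ᵥ (rm M *ᵥ x)) →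
  ∀ (u : Fin N → Fin N → ℂ) (μ : Fin N → ℝ), LinearIndependent ℂ u →
  (∀ k, cmx z *ᵥ u k = (Complex.I * μ k) • u k) →
  (∀ k, μ k ≠ 0) ∧ ∃ J : Matrix (Fin N) (Fin N) ℝ, Pol J M ∧ J * z = z * J ∧
    ∀ k, cmx J *ᵥ u k = (Complex.I * (SignType.sign (μ k) : ℝ)) • u k

/-- **C4.** The polar part kills the form. -/
def St_C4 : Prop := ∀ (N m : ℕ) (z J : Matrix (Fin N) (Fin N) ℝ) (u : Fin N → Fin N → ℂ)
  (μ : Fin N → ℝ), LinearIndependent ℂ u → (∀ k, μ k ≠ 0 ∧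
    cmx z *ᵥ u k = (Complex.I * μ k) • u k ∧
    cmx J *ᵥ u k = (Complex.I * (SignType.sign (μ k) : ℝ)) • u k) →
  (∀ k, ‖(Complex.I * μ k : ℂ) ^ 2 + 1‖ < 1 / (m + 1)) →
  ∀ ψ : MultilinearMap ℝ (fun _ : Fin m => Fin N → ℝ) ℝ, Kills z ψ → Kills J ψ

/-- **C5.** The CM point. -/
def St_cmp : Prop := ∀ (X : AV) (E : X.H → X.H → ℚ), IsPolarization X.per E → ∀ (m : ℕ)
  (f : X.H [⋀^Fin m]→ₗ[ℚ] ℚ), IsHodge X.per f → ∃ (X' : AV) (e : X'.H ≃ₗ[ℚ] X.H)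
  (z : X'.H →ₗ[ℚ] X'.H), CMp X' (fun v w => E (e v) (e w)) z ∧
    IsHodge X'.per (f.compLinearMap e.toLinearMap)

/-! ### Part 2: classes of degree four on varieties of CM type -/

/-- Complex conjugation. -/
def cj : ℂ ≃+* ℂ := (Complex.conjAe : ℂ ≃ₐ[ℝ] ℂ).toRingEquiv

/-- The sign of the imaginary part. -/
def sg (z : ℂ) : ℤ := open Classical in if 0 < z.im then 1 else -1

/-- The functional `P : H_1(X, ℚ) → ℂ` comes from a complex linear form on the tangent space. -/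
def Hol (X : AV) (P : X.H → ℂ) : Prop := ∃ l : X.T →ₗ[ℂ] ℂ, ∀ w, P w = l (X.per w)

/-- CM fields in `ℂ`, Galois over `ℚ`, containing `i`. -/
structure CMF (K : Subfield ℂ) : Prop where
  fin : FiniteDimensional ℚ K
  st : ∀ σ : ℂ ≃+* ℂ, ∀ z ∈ K, σ z ∈ K
  cc : ∀ σ : ℂ ≃+* ℂ, ∀ z ∈ K, σ (cj z) = cj (σ z)
  i : Complex.I ∈ K

/-- Complex conjugation on `K`. -/
def cjk {K : Subfield ℂ} (hK : CMF K) (z : K) : K := ⟨cj z, hK.st cj z z.2⟩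

/-- The functional with values in `ℂ`. -/
def toC {K : Subfield ℂ} {H : Type} [AddCommGroup H] [Module ℚ H] (f : H →ₗ[ℚ] K) : H →ₗ[ℚ] ℂ where
  toFun x := (f x : ℂ)
  map_add' x y := by rw [map_add]; rfl
  map_smul' c x := by
    rw [map_smul, RingHom.id_apply, Rat.smul_def, Rat.smul_def]
    rfl

/-- The multiplication by `a` on the vector space `K ^ ι`. -/
def scK (K : Subfield ℂ) (ι : Type) (a : K) : (ι → K) →ₗ[ℚ] (ι → K) :=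
  LinearMap.pi fun j => LinearMap.mulLeft ℚ a ∘ₗ LinearMap.proj j

/-- The form `∑ Tr (κ_j x_j (conjugate of y_j))` on `K ^ ι`. -/
def frK {K : Subfield ℂ} (hK : CMF K) {ι : Type} [Fintype ι] (κ : ι → K) (x y : ι → K) : ℚ :=
  Algebra.trace ℚ K (∑ j, κ j * x j * cjk hK (y j))

/-- The field `K` acts on `Y` by homomorphisms, via the coordinates `b`. -/
def KAct {K : Subfield ℂ} {ι : Type} {Y : AV} (b : Y.H ≃ₗ[ℚ] (ι → K)) : Prop :=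
  ∀ a : K, IsHom Y Y (b.symm.toLinearMap ∘ₗ scK K ι a ∘ₗ b.toLinearMap)

/-- The functionals `P j : H_1(X) → K` give homomorphisms from `X` to `Y`. -/
def KHom {K : Subfield ℂ} {ι : Type} {X Y : AV} (b : Y.H ≃ₗ[ℚ] (ι → K))
    (P : ι → (X.H →ₗ[ℚ] K)) : Prop :=
  ∀ a : K, IsHom X Y (b.symm.toLinearMap ∘ₗ scK K ι a ∘ₗ LinearMap.pi P)

/-- A split Weil class on `Y`. -/
def SplitWeil (Y : AV) {n : ℕ} (w : Y.H [⋀^Fin n]→ₗ[ℚ] ℚ) : Prop :=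
  IsHodge Y.per w ∧ ∃ (K : Type) (_ : Field K) (_ : Algebra ℚ K) (ρ : K →ₐ[ℚ] Module.End ℚ Y.H)
    (c : K → K) (E : Y.H → Y.H → ℚ) (W : Submodule ℚ Y.H),
    FiniteDimensional ℚ K ∧ (∃ a, c a ≠ a) ∧
    (∀ (φ : K →+* ℂ) (a : K), φ (c a) = starRingEnd ℂ (φ a)) ∧
    (∀ a, IsHom Y Y (ρ a)) ∧ finrank ℚ Y.H = n * finrank ℚ K ∧
    (∀ (a : K) (v : Fin n → Y.H) (k l : Fin n),
      w (Function.update v k (ρ a (v k))) = w (Function.update v l (ρ a (v l)))) ∧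
    IsPolarization Y.per E ∧ (∀ a v v', E (ρ a v) v' = E v (ρ (c a) v')) ∧
    (∀ a, ∀ v ∈ W, ρ a v ∈ W) ∧ (∀ v ∈ W, ∀ v' ∈ W, E v v' = 0) ∧
    2 * finrank ℚ W = finrank ℚ Y.H

/-- **L1** (in the library). Abelian varieties of CM type. -/
def St_cmav : Prop := ∀ (K : Subfield ℂ) (hK : CMF K) (d : ℕ) (κ : Fin d → K),
  (∀ j, cjk hK (κ j) = -κ j ∧ κ j ≠ 0) → ∃ (Y : AV) (b : Y.H ≃ₗ[ℚ] (Fin d → K)), KAct b ∧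
    (IsPolarization Y.per fun v w => frK hK κ (b v) (b w)) ∧
    ∀ (X : AV) (P : Fin d → (X.H →ₗ[ℚ] K)),
      (∀ j (σ : ℂ ≃+* ℂ), (sg (σ (κ j)) = -1 ∧ Hol X fun v => σ (P j v)) ∨
        (sg (σ (κ j)) = 1 ∧ Hol X fun v => cj (σ (P j v)))) → KHom b P

/-- **L2** (in the library). Split Weil classes from diagonal forms. -/
def St_spw : Prop := ∀ (K : Subfield ℂ) (hK : CMF K) (κ : Fin 2 → K),
  (∀ j, cjk hK (κ j) = -κ j ∧ κ j ≠ 0) → ∀ (Y : AV) (b : Y.H ≃ₗ[ℚ] (Fin 2 ⊕ Fin 2 → K)), KAct b →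
  (IsPolarization Y.per fun v w => frK hK (Sum.elim (fun j => -κ j) κ) (b v) (b w)) →
  ∀ (a : K) (w : Y.H [⋀^Fin 4]→ₗ[ℚ] ℚ), (∀ v : Fin 2 ⊕ Fin 2 → Y.H,
    w (fun k => v (finSumFinEquiv.symm k)) =
      Algebra.trace ℚ K (a * det (of fun i j => b (v i) j))) → SplitWeil Y w

/-- **B0.** Eigenfunctionals are holomorphic or antiholomorphic. -/
def St_B0 : Prop := ∀ (X : AV) (E : X.H → X.H → ℚ) (z : X.H →ₗ[ℚ] X.H), CMp X E z →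
  ∀ (P : X.H →ₗ[ℚ] ℂ) (l : ℂ), P ≠ 0 → (∀ v, P (z v) = l * P v) →
  l.re = 0 ∧ ((0 < l.im ∧ Hol X P) ∨ (l.im < 0 ∧ Hol X fun v => cj (P v)))

/-- **B1.** The signs in a Hodge class. -/
def St_B1 : Prop := ∀ (X : AV) (m : ℕ) (f : X.H [⋀^Fin m]→ₗ[ℚ] ℚ), IsHodge X.per f →
  ∀ (n : ℕ) (Q : Fin n → (X.H →ₗ[ℚ] ℂ)) (s : Fin n → ℤ), LinearIndependent ℂ Q →
  (∀ j, (s j = 1 ∧ Hol X (Q j)) ∨ (s j = -1 ∧ Hol X fun v => cj (Q j v))) →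
  ∀ c : (Fin m → Fin n) → ℂ, (∀ v, (f v : ℂ) = ∑ t, c t * ∏ j, Q (t j) (v j)) →
  ∀ t, c t ≠ 0 → ∑ j, s (t j) = 0

/-- **B2.** The third and the fourth coefficient. -/
def St_B2 : Prop := ∀ (K : Subfield ℂ) (hK : CMF K) (κ₁ κ₂ μ₃ μ₄ : K),
  (cjk hK κ₁ = -κ₁ ∧ κ₁ ≠ 0) → (cjk hK κ₂ = -κ₂ ∧ κ₂ ≠ 0) → (cjk hK μ₃ = -μ₃ ∧ μ₃ ≠ 0) →
  (cjk hK μ₄ = -μ₄ ∧ μ₄ ≠ 0) →
  (∀ σ : ℂ ≃+* ℂ, sg (σ κ₁) + sg (σ κ₂) + sg (σ μ₃) + sg (σ μ₄) = 0) →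
  ∃ x κ₃ κ₄ : K, cjk hK x = x ∧ κ₃ = -(κ₁ * x ^ 2 + κ₂) ∧ κ₄ = -(κ₁ * κ₂ * κ₃) ∧
    (cjk hK κ₃ = -κ₃ ∧ κ₃ ≠ 0) ∧ (cjk hK κ₄ = -κ₄ ∧ κ₄ ≠ 0) ∧
    ∀ σ : ℂ ≃+* ℂ, sg (σ κ₃) = sg (σ μ₃) ∧ sg (σ κ₄) = sg (σ μ₄)

/-- **B3.** The class is a split Weil class. -/
def St_B3 : Prop := ∀ (K : Subfield ℂ) (hK : CMF K) (κ₁ κ₂ x κ₃ κ₄ : K),
  (cjk hK κ₁ = -κ₁ ∧ κ₁ ≠ 0) → (cjk hK κ₂ = -κ₂ ∧ κ₂ ≠ 0) → cjk hK x = x →
  κ₃ = -(κ₁ * x ^ 2 + κ₂) → κ₄ = -(κ₁ * κ₂ * κ₃) → (cjk hK κ₃ = -κ₃ ∧ κ₃ ≠ 0) →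
  (cjk hK κ₄ = -κ₄ ∧ κ₄ ≠ 0) → ∀ (Y : AV) (b : Y.H ≃ₗ[ℚ] (Fin 4 → K)), KAct b →
  (IsPolarization Y.per fun v w => frK hK ![κ₁, κ₂, κ₃, κ₄] (b v) (b w)) →
  ∀ (a : K) (w : Y.H [⋀^Fin 4]→ₗ[ℚ] ℚ),
    (∀ v, w v = Algebra.trace ℚ K (a * det (of fun i j => b (v i) j))) → SplitWeil Y w

/-- **B4.** The pull-back belongs to the system. -/
def St_B4 : Prop := ∀ (X : AV) (E : X.H → X.H → ℚ) (z : X.H →ₗ[ℚ] X.H), CMp X E z →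
  ∀ (K : Subfield ℂ) (hK : CMF K) (P : Fin 4 → (X.H →ₗ[ℚ] K)) (l : Fin 4 → K),
  (∀ j, P j ≠ 0 ∧ ∀ v, P j (z v) = l j * P j v) → (∀ j, cjk hK (l j) = -l j ∧ l j ≠ 0) →
  (∀ σ : ℂ ≃+* ℂ, ∑ j, sg (σ (l j)) = 0) → ∀ 𝒜 : Sys,
  (∀ (Y : AV) (w : Y.H [⋀^Fin 4]→ₗ[ℚ] ℚ), SplitWeil Y w → 𝒜.A Y (Fin 4) w) →
  ∀ (c : K) (g : X.H [⋀^Fin 4]→ₗ[ℚ] ℚ),
    (∀ v, g v = Algebra.trace ℚ K (c * det (of fun i j => P j (v i)))) → 𝒜.A X (Fin 4) g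

/-- **B5.** Expansion of a rational form. -/
def St_B5 : Prop := ∀ (K : Subfield ℂ), FiniteDimensional ℚ K → ∀ (V : Type) [AddCommGroup V]
  [Module ℚ V] [FiniteDimensional ℚ V] (n : ℕ) (P : Fin n → (V →ₗ[ℚ] K)), n = finrank ℚ V →
  LinearIndependent ℂ (fun j => toC (P j)) → ∀ (m : ℕ) (f : V [⋀^Fin m]→ₗ[ℚ] ℚ),
  ∃ c : (Fin m → Fin n) → K, (∀ v, (f v : ℂ) = ∑ t, (c t : ℂ) * ∏ j, (P (t j) (v j) : ℂ)) ∧
    ∀ v, f v = ∑ t, Algebra.trace ℚ K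
      (((m.factorial * finrank ℚ K : ℕ) : K)⁻¹ * c t * det (of fun i j => P (t j) (v i)))

/-- **B6a.** The field generated by the eigenvalues and `i`. -/
def St_B6a : Prop := ∀ (n : ℕ) (l : Fin n → ℂ), (∀ j, (l j).re = 0) →
  (∀ (σ : ℂ ≃+* ℂ) (j : Fin n), ∃ i, σ (l j) = l i) → (∀ j, IsAlgebraic ℚ (l j)) →
  ∃ K : Subfield ℂ, CMF K ∧ ∀ j, l j ∈ K

/-- **B6b.** Eigenfunctionals with values in `K`. -/
def St_B6b : Prop := ∀ (V : Type) [AddCommGroup V] [Module ℚ V] [FiniteDimensional ℚ V]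
  (z : V →ₗ[ℚ] V) (K : Subfield ℂ) (Q : Fin (finrank ℚ V) → (V →ₗ[ℚ] ℂ))
  (l : Fin (finrank ℚ V) → K), LinearIndependent ℂ Q → (∀ j v, Q j (z v) = l j * Q j v) →
  ∃ (P : Fin (finrank ℚ V) → (V →ₗ[ℚ] K)) (l' : Fin (finrank ℚ V) → K),
    LinearIndependent ℂ (fun j => toC (P j)) ∧
    ∀ j, (∀ v, P j (z v) = l' j * P j v) ∧ ∃ i, l' j = l i

/-- **B6c.** Complex eigenfunctionals. -/
def St_B6c : Prop := ∀ (V : Type) [AddCommGroup V] [Module ℚ V] [FiniteDimensional ℚ V]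
  (z : V →ₗ[ℚ] V) (S : LinearMap.BilinForm ℚ V), (∀ v w, S v w = S w v) →
  (∀ v, v ≠ 0 → 0 < S v v) → (∀ v w, S (z v) w = -S v (z w)) → (∀ v, z v = 0 → v = 0) →
  ∃ (Q : Fin (finrank ℚ V) → (V →ₗ[ℚ] ℂ)) (l : Fin (finrank ℚ V) → ℂ), LinearIndependent ℂ Q ∧
    (∀ j, (∀ v, Q j (z v) = l j * Q j v) ∧ (l j).re = 0 ∧ l j ≠ 0 ∧ IsAlgebraic ℚ (l j)) ∧
    ∀ (σ : ℂ ≃+* ℂ) (j : Fin (finrank ℚ V)), ∃ i, σ (l j) = l i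

/-- **B6.** The field and the eigenfunctionals. -/
def St_B6 : Prop := ∀ (V : Type) [AddCommGroup V] [Module ℚ V] [FiniteDimensional ℚ V]
  (z : V →ₗ[ℚ] V) (S : LinearMap.BilinForm ℚ V), (∀ v w, S v w = S w v) →
  (∀ v, v ≠ 0 → 0 < S v v) → (∀ v w, S (z v) w = -S v (z w)) → (∀ v, z v = 0 → v = 0) →
  ∃ (K : Subfield ℂ) (hK : CMF K) (P : Fin (finrank ℚ V) → (V →ₗ[ℚ] K))
    (l : Fin (finrank ℚ V) → K), LinearIndependent ℂ (fun j => toC (P j)) ∧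
    ∀ j, (∀ v, P j (z v) = l j * P j v) ∧ cjk hK (l j) = -l j ∧ l j ≠ 0

/-- **B7.** Classes of degree four on varieties of CM type. -/
def St_cm4 : Prop := ∀ (X : AV) (E : X.H → X.H → ℚ) (z : X.H →ₗ[ℚ] X.H), CMp X E z →
  ∀ 𝒜 : Sys, (∀ (Y : AV) (w : Y.H [⋀^Fin 4]→ₗ[ℚ] ℚ), SplitWeil Y w → 𝒜.A Y (Fin 4) w) →
  ∀ f : X.H [⋀^Fin 4]→ₗ[ℚ] ℚ, IsHodge X.per f → 𝒜.A X (Fin 4) f

/-! ### Part 3: the special member of a family of split Weil type -/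

/-- The complex conjugation of a CM field. -/
structure CMc (K : Type) [Field K] [Algebra ℚ K] (c : K → K) : Prop where
  fin : FiniteDimensional ℚ K
  ne : ∃ a, c a ≠ a
  cc : ∀ (φ : K →+* ℂ) (a : K), φ (c a) = starRingEnd ℂ (φ a)

/-- Bilinear forms given as functions. -/
structure Bil {V : Type} [AddCommGroup V] [Module ℚ V] (E : V → V → ℚ) : Prop where
  add : ∀ u v w, E (u + v) w = E u w + E v w
  smul : ∀ (a : ℚ) v w, E (a • v) w = a * E v w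
  alt : ∀ v w, E w v = -E v w

/-- **W1a.** The skew Hermitian form. -/
def St_W1a : Prop := ∀ (V : Type) [AddCommGroup V] [Module ℚ V] [FiniteDimensional ℚ V] (K : Type)
  [Field K] [Algebra ℚ K] (c : K → K), CMc K c → ∀ (ρ : K →ₐ[ℚ] Module.End ℚ V) (E : V → V → ℚ),
  Bil E → (∀ a v v', E (ρ a v) v' = E v (ρ (c a) v')) → ∃ h : V → V → K,
    (∀ u v w, h (u + v) w = h u w + h v w) ∧ (∀ a v w, h (ρ a v) w = a * h v w) ∧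
    (∀ v w, h w v = -c (h v w)) ∧ ∀ v w, E v w = Algebra.trace ℚ K (h v w)

/-- **W1b.** Hyperbolic coordinates. -/
def St_W1b : Prop := ∀ (V : Type) [AddCommGroup V] [Module ℚ V] [FiniteDimensional ℚ V] (K : Type)
  [Field K] [Algebra ℚ K] (c : K → K), CMc K c → ∀ (ρ : K →ₐ[ℚ] Module.End ℚ V) (h : V → V → K)
  (W : Submodule ℚ V) (n : ℕ), (∀ u v w, h (u + v) w = h u w + h v w) →
  (∀ a v w, h (ρ a v) w = a * h v w) → (∀ v w, h w v = -c (h v w)) →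
  (∀ v, (∀ w, h v w = 0) → v = 0) → finrank ℚ V = n * finrank ℚ K →
  (∀ a, ∀ v ∈ W, ρ a v ∈ W) → (∀ v ∈ W, ∀ v' ∈ W, h v v' = 0) → 2 * finrank ℚ W = finrank ℚ V →
  ∃ d : ℕ, n = d + d ∧ ∃ b : V ≃ₗ[ℚ] (Fin d ⊕ Fin d → K),
    (∀ a v j, b (ρ a v) j = a * b v j) ∧ ∀ v w, h v w =
      ∑ i, (b v (Sum.inl i) * c (b w (Sum.inr i)) - b v (Sum.inr i) * c (b w (Sum.inl i)))

/-- **W1.** Hyperbolic coordinates. -/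
def St_W1 : Prop := ∀ (V : Type) [AddCommGroup V] [Module ℚ V] [FiniteDimensional ℚ V] (K : Type)
  [Field K] [Algebra ℚ K] (c : K → K), CMc K c → ∀ (ρ : K →ₐ[ℚ] Module.End ℚ V) (E : V → V → ℚ)
  (W : Submodule ℚ V) (n : ℕ), Bil E → (∀ v, (∀ w, E v w = 0) → v = 0) →
  finrank ℚ V = n * finrank ℚ K → (∀ a v v', E (ρ a v) v' = E v (ρ (c a) v')) →
  (∀ a, ∀ v ∈ W, ρ a v ∈ W) → (∀ v ∈ W, ∀ v' ∈ W, E v v' = 0) → 2 * finrank ℚ W = finrank ℚ V →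
  ∃ d : ℕ, n = d + d ∧ ∃ b : V ≃ₗ[ℚ] (Fin d ⊕ Fin d → K),
    (∀ a v j, b (ρ a v) j = a * b v j) ∧ ∀ v w, E v w = Algebra.trace ℚ K
      (∑ i, (b v (Sum.inl i) * c (b w (Sum.inr i)) - b v (Sum.inr i) * c (b w (Sum.inl i))))

/-- **W2.** Abelian varieties with a rational complex structure. -/
def St_W2 : Prop := ∀ (V : Type) [AddCommGroup V] [Module ℚ V] [FiniteDimensional ℚ V]
  (J : V →ₗ[ℚ] V) (E : V → V → ℚ), Bil E → (∀ v, J (J v) = -v) → (∀ v w, E (J v) w = -E v (J w)) →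
  (∀ v, v ≠ 0 → 0 < E (J v) v) → ∃ (Y : AV) (e : Y.H ≃ₗ[ℚ] V),
    IsPolarization Y.per (fun v w => E (e v) (e w)) ∧
    (∀ z : V →ₗ[ℚ] V, (∀ v, z (J v) = J (z v)) →
      IsHom Y Y (e.symm.toLinearMap ∘ₗ z ∘ₗ e.toLinearMap)) ∧
    ∀ β : V [⋀^Fin 2]→ₗ[ℚ] ℚ, (∀ v : Fin 2 → V, β (fun k => J (v k)) = β v) →
      IsHodge Y.per (β.compLinearMap e.toLinearMap)

/-- A set of classes on `Y` which is stable under linear combinations, renaming and cup products. -/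
structure Rg (Y : AV) (A : (κ : Type) → (Y.H [⋀^κ]→ₗ[ℚ] ℚ) → Prop) : Prop where
  unit : ∀ {κ : Type} [IsEmpty κ] (f : Y.H [⋀^κ]→ₗ[ℚ] ℚ), A κ f
  zero : ∀ κ : Type, A κ 0
  add : ∀ {κ : Type} (f g : Y.H [⋀^κ]→ₗ[ℚ] ℚ) (_ : A κ f) (_ : A κ g), A κ (f + g)
  smul : ∀ {κ : Type} (a : ℚ) (f : Y.H [⋀^κ]→ₗ[ℚ] ℚ) (_ : A κ f), A κ (a • f)
  reindex : ∀ {κ κ' : Type} (e : κ ≃ κ') (f : Y.H [⋀^κ]→ₗ[ℚ] ℚ) (_ : A κ f),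
    A κ' (f.domDomCongr e)
  cup : ∀ {κ κ' : Type} [Fintype κ] [DecidableEq κ] [Fintype κ'] [DecidableEq κ']
    (f : Y.H [⋀^κ]→ₗ[ℚ] ℚ) (g : Y.H [⋀^κ']→ₗ[ℚ] ℚ) (_ : A κ f) (_ : A κ' g)
    (h : Y.H [⋀^κ ⊕ κ']→ₗ[ℚ] ℚ) (_ : IsCup f g h), A (κ ⊕ κ') h

/-- **W3.** The Hodge classes of an abelian variety form a ring. -/
def St_W3 : Prop := ∀ Y : AV, Rg Y fun _ f => IsHodge Y.per f

/-- **W4.** Forms which are multilinear over `K` are traces of determinants. -/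
def St_W4 : Prop := ∀ (V : Type) [AddCommGroup V] [Module ℚ V] (K : Type) [Field K] [Algebra ℚ K]
  (n : ℕ) (b : V ≃ₗ[ℚ] (Fin n → K)) (w : V [⋀^Fin n]→ₗ[ℚ] ℚ),
  (∀ (a : K) (v : Fin n → V) (k l : Fin n),
    w (Function.update v k (b.symm (a • b (v k)))) =
      w (Function.update v l (b.symm (a • b (v l))))) → 0 < n →
  ∃ μ : K →ₗ[ℚ] ℚ, ∀ v, w v = μ (det (of fun i j => b (v i) j))

/-- **W5a.** Cup products of traces of determinants. -/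
def St_W5a : Prop := ∀ (Y : AV) (A : (κ : Type) → (Y.H [⋀^κ]→ₗ[ℚ] ℚ) → Prop), Rg Y A →
  ∀ (K : Type) [Field K] [Algebra ℚ K], FiniteDimensional ℚ K → ∀ (κ κ' : Type) [Fintype κ]
  [DecidableEq κ] [Fintype κ'] [DecidableEq κ'] (l : κ → (Y.H →ₗ[ℚ] K)) (l' : κ' → (Y.H →ₗ[ℚ] K)),
  (∀ (μ : K →ₗ[ℚ] ℚ) (w : Y.H [⋀^κ]→ₗ[ℚ] ℚ), (∀ v, w v = μ (det (of fun i j => l j (v i)))) →
    A κ w) →
  (∀ (μ : K →ₗ[ℚ] ℚ) (w : Y.H [⋀^κ']→ₗ[ℚ] ℚ), (∀ v, w v = μ (det (of fun i j => l' j (v i)))) →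
    A κ' w) →
  ∀ (μ : K →ₗ[ℚ] ℚ) (w : Y.H [⋀^(κ ⊕ κ')]→ₗ[ℚ] ℚ),
    (∀ v, w v = μ (det (of fun i j => Sum.elim l l' j (v i)))) → A (κ ⊕ κ') w

/-- **W5.** The determinant is in the ring generated by classes of degree two. -/
def St_W5 : Prop := ∀ (Y : AV) (A : (κ : Type) → (Y.H [⋀^κ]→ₗ[ℚ] ℚ) → Prop), Rg Y A →
  ∀ (K : Type) [Field K] [Algebra ℚ K], FiniteDimensional ℚ K → ∀ (d : ℕ)
  (l l' : Fin d → (Y.H →ₗ[ℚ] K)),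
  (∀ (i : Fin d) (μ : K →ₗ[ℚ] ℚ) (β : Y.H [⋀^Fin 2]→ₗ[ℚ] ℚ), (∀ v, β v =
    μ (l i (v 0) * l' i (v 1) - l' i (v 0) * l i (v 1))) → A (Fin 2) β) →
  ∀ (μ : K →ₗ[ℚ] ℚ) (w : Y.H [⋀^(Fin d ⊕ Fin d)]→ₗ[ℚ] ℚ),
    (∀ v, w v = μ (det (of fun i j => Sum.elim l l' j (v i)))) → A (Fin d ⊕ Fin d) w

/-- **W6.** The special member. -/
def St_spm : Prop := ∀ (Y : AV) (n : ℕ) (w : Y.H [⋀^Fin n]→ₗ[ℚ] ℚ), SplitWeil Y w → ∀ 𝒜 : Sys,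
  (∀ (X : AV) (f : X.H [⋀^Fin 2]→ₗ[ℚ] ℚ), IsHodge X.per f → 𝒜.A X (Fin 2) f) →
  ∃ (X : AV) (e : X.H ≃ₗ[ℚ] Y.H), IsSplitWeilPair X Y e w ∧
    𝒜.A X (Fin n) (w.compLinearMap e.toLinearMap)

end

end Pool.Agent.NH36.VH
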