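import Pool.Agent.NH36.VH.Stm

/-!
# Project VH: abelian varieties from matrices (A1)
-/

set_option autoImplicit false

namespace Pool.Agent.NH36.VH

open Module Matrix Pool.Agent.Y90 Pool.Agent.NH32
open Pool.Agent.H204R3.CM (IsHodge)

noncomputable section

namespace A1P

variable {N : ℕ}

/-- The real bilinear form. -/
def bf (M : Matrix (Fin N) (Fin N) ℚ) (x y : Fin N → ℝ) : ℝ := x ⬝ᵥ (rm M *ᵥ y)

theorem bf_add (M : Matrix (Fin N) (Fin N) ℚ) (x x' y : Fin N → ℝ) :
    bf M (x + x') y = bf M x y + bf M x' y := by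
  unfold bf
  rw [add_dotProduct]

theorem bf_smul (M : Matrix (Fin N) (Fin N) ℚ) (a : ℝ) (x y : Fin N → ℝ) :
    bf M (a • x) y = a * bf M x y := by
  unfold bf
  rw [smul_dotProduct, smul_eq_mul]

theorem bf_neg (M : Matrix (Fin N) (Fin N) ℚ) (x y : Fin N → ℝ) :
    bf M (-x) y = -bf M x y := by
  unfold bf
  rw [neg_dotProduct]

theorem rm_transpose (M : Matrix (Fin N) (Fin N) ℚ) : (rm M)ᵀ = rm Mᵀ := rfl

theorem rm_neg (M : Matrix (Fin N) (Fin N) ℚ) : rm (-M) = -rm M := by
  ext i j
  simp [rm]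

theorem bf_skew {M : Matrix (Fin N) (Fin N) ℚ} (h : Mᵀ = -M) (x y : Fin N → ℝ) :
    bf M y x = -bf M x y := by
  unfold bf
  rw [dotProduct_mulVec, ← mulVec_transpose, rm_transpose, h, rm_neg, neg_mulVec, neg_dotProduct,
    dotProduct_comm]

theorem bf_J {J : Matrix (Fin N) (Fin N) ℝ} {M : Matrix (Fin N) (Fin N) ℚ}
    (h : Jᵀ * rm M + rm M * J = 0) (x y : Fin N → ℝ) : bf M (J *ᵥ x) y = -bf M x (J *ᵥ y) := by
  unfold bf
  have h1 : Jᵀ * rm M = -(rm M * J) := eq_neg_of_add_eq_zero_left h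
  rw [dotProduct_comm, dotProduct_mulVec, ← mulVec_transpose, mulVec_mulVec, h1, neg_mulVec,
    neg_dotProduct, dotProduct_comm, mulVec_mulVec]

theorem sqv {J : Matrix (Fin N) (Fin N) ℝ} (hJ : J * J = -1) (x : Fin N → ℝ) :
    J *ᵥ (J *ᵥ x) = -x := by
  rw [mulVec_mulVec, hJ, neg_mulVec, one_mulVec]

theorem rv_add (v w : Fin N → ℚ) : rv (v + w) = rv v + rv w := by
  funext i
  simp [rv]

theorem rv_zero : rv (0 : Fin N → ℚ) = 0 := by
  funext i
  simp [rv]

theorem bf_rv (M : Matrix (Fin N) (Fin N) ℚ) (v w : Fin N → ℚ) :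
    bf M (rv v) (rv w) = ((v ⬝ᵥ (M *ᵥ w) : ℚ) : ℝ) := by
  simp only [bf, rv, rm, dotProduct, mulVec, Matrix.map_apply]
  push_cast
  rfl

/-- The construction of the abelian variety, from the tangent space. -/
theorem mk {J : Matrix (Fin N) (Fin N) ℝ} {M : Matrix (Fin N) (Fin N) ℚ} (hP : Pol J M)
    (T : Type) [AddCommGroup T] [Module ℂ T] (L : T ≃ₗ[ℝ] (Fin N → ℝ))
    (hL : ∀ t, L (Complex.I • t) = J *ᵥ L t) :
    ∃ (Y : AV) (e : Y.H ≃ₗ[ℚ] (Fin N → ℚ)) (L : Y.T ≃ₗ[ℝ] (Fin N → ℝ)), Chart Y e L J ∧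
      IsPolarization Y.per (fun v w => e v ⬝ᵥ (M *ᵥ e w)) := by
  have hfR : FiniteDimensional ℝ T := L.symm.finiteDimensional
  have hfC : FiniteDimensional ℂ T := Module.Finite.of_restrictScalars_finite ℝ ℂ T
  let per : (Fin N → ℚ) →+ T :=
    { toFun := fun v => L.symm (rv v)
      map_zero' := by rw [rv_zero, map_zero]
      map_add' := fun v w => by rw [rv_add, map_add] }
  have hper : ∀ v, L (per v) = rv v := fun v => L.apply_symm_apply (rv v)
  have hsm : ∀ (c : ℂ) (t : T), L (c • t) = c.re • L t + c.im • (J *ᵥ L t) := by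
    intro c t
    have h1 : c • t = c.re • t + c.im • (Complex.I • t) := by
      have h2 : ∀ (a : ℝ) (s : T), a • s = (a : ℂ) • s := fun a s => rfl
      rw [h2, h2, smul_smul, ← add_smul, Complex.re_add_im]
    rw [h1, map_add, map_smul, map_smul, hL]
  have hpol : IsPolarization per (fun v w => v ⬝ᵥ (M *ᵥ w)) := by
    refine ⟨fun t s => ⟨bf M (J *ᵥ L t) (L s), bf M (L t) (L s)⟩, ?_, ?_, ?_, ?_⟩
    · intro s
      refine ⟨fun t t' => ?_, fun c t => ?_⟩
      · apply Complex.ext
        · simp only [Complex.add_re]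
          rw [map_add, mulVec_add, bf_add]
        · simp only [Complex.add_im]
          rw [map_add, bf_add]
      · apply Complex.ext
        · simp only [smul_eq_mul, Complex.mul_re]
          rw [hsm, mulVec_add, mulVec_smul, mulVec_smul, sqv hP.sq, bf_add, bf_smul, bf_smul, bf_neg]
          ring
        · simp only [smul_eq_mul, Complex.mul_im]
          rw [hsm, bf_add, bf_smul, bf_smul]
    · intro t s
      apply Complex.ext
      · simp only [Complex.conj_re]
        rw [bf_J hP.sp, bf_skew hP.sk, neg_neg]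
      · simp only [Complex.conj_im]
        rw [bf_skew hP.sk]
    · intro t ht
      have h1 : L t ≠ 0 := fun h => ht ((LinearEquiv.map_eq_zero_iff L).1 h)
      exact hP.pos _ h1
    · intro v w
      simp only
      rw [hper, hper, bf_rv]
  have hspan : Submodule.span ℝ (Set.range per) = ⊤ := by
    rw [eq_top_iff]
    intro t _
    have h1 : t = ∑ i, (L t) i • per (Pi.single i 1) := by
      apply L.injective
      rw [map_sum]
      funext j
      rw [Finset.sum_apply, Finset.sum_eq_single j]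
      · rw [map_smul, hper]
        simp [rv]
      · intro i _ hij
        rw [map_smul, hper]
        simp [rv, Pi.single_apply, hij.symm]
      · intro h
        exact absurd (Finset.mem_univ j) h
    rw [h1]
    exact Submodule.sum_mem _ fun i _ => Submodule.smul_mem _ _ (Submodule.subset_span ⟨_, rfl⟩)
  have hrank : Module.finrank ℚ (Fin N → ℚ) = 2 * Module.finrank ℂ T := by
    rw [← finrank_real_of_complex, L.finrank_eq, Module.finrank_fin_fun, Module.finrank_fin_fun]
  exact ⟨{ H := Fin N → ℚ, T := T, per := per, span := hspan, rank := hrank, pol := ⟨_, hpol⟩ },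
    LinearEquiv.refl ℚ (Fin N → ℚ), L, ⟨hper, hL⟩, hpol⟩

/-- The complex vector of a real vector. -/
def cr (x : Fin N → ℝ) : Fin N → ℂ := fun i => (x i : ℂ)

theorem cr_apply (x : Fin N → ℝ) (i : Fin N) : cr x i = (x i : ℂ) := rfl

theorem cr_add (x y : Fin N → ℝ) : cr (x + y) = cr x + cr y := by
  funext i
  simp [cr]

theorem cr_neg (x : Fin N → ℝ) : cr (-x) = -cr x := by
  funext i
  simp [cr]

theorem cmx_cr (J : Matrix (Fin N) (Fin N) ℝ) (x : Fin N → ℝ) : cmx J *ᵥ cr x = cr (J *ᵥ x) := by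
  funext i
  simp [cr, cmx, mulVec, dotProduct]

/-- The tangent space. -/
def TJ (J : Matrix (Fin N) (Fin N) ℝ) : Submodule ℂ (Fin N → ℂ) where
  carrier := {x | cmx J *ᵥ x = Complex.I • x}
  add_mem' := by
    intro x y hx hy
    change cmx J *ᵥ (x + y) = Complex.I • (x + y)
    rw [mulVec_add, smul_add, show cmx J *ᵥ x = _ from hx, show cmx J *ᵥ y = _ from hy]
  zero_mem' := by
    change cmx J *ᵥ 0 = Complex.I • 0
    rw [mulVec_zero, smul_zero]
  smul_mem' := by
    intro c x hx
    change cmx J *ᵥ (c • x) = Complex.I • (c • x)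
    rw [mulVec_smul, show cmx J *ᵥ x = _ from hx, smul_comm]

theorem PJ_mem {J : Matrix (Fin N) (Fin N) ℝ} (hJ : J * J = -1) (x : Fin N → ℝ) :
    cr x - Complex.I • cr (J *ᵥ x) ∈ TJ J := by
  change cmx J *ᵥ (cr x - Complex.I • cr (J *ᵥ x)) = Complex.I • (cr x - Complex.I • cr (J *ᵥ x))
  rw [mulVec_sub, mulVec_smul, cmx_cr, cmx_cr, sqv hJ, cr_neg, smul_neg, sub_neg_eq_add, smul_sub,
    smul_smul, Complex.I_mul_I, neg_smul, one_smul, sub_neg_eq_add, add_comm]

theorem re_cr (x : Fin N → ℂ) : x = cr (fun i => (x i).re) + Complex.I • cr (fun i => (x i).im) := by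
  funext i
  simp only [Pi.add_apply, Pi.smul_apply, smul_eq_mul, cr_apply]
  rw [mul_comm, Complex.re_add_im]

theorem re_mem {J : Matrix (Fin N) (Fin N) ℝ} {x : Fin N → ℂ} (hx : x ∈ TJ J) :
    J *ᵥ (fun i => (x i).re) = -(fun i => (x i).im) := by
  have h1 : cmx J *ᵥ x = Complex.I • x := hx
  rw [re_cr x, mulVec_add, mulVec_smul, cmx_cr, cmx_cr] at h1
  funext i
  have h2 := congrArg Complex.re (congrFun h1 i)
  simp only [Pi.add_apply, Pi.smul_apply, smul_eq_mul, cr_apply] at h2
  simpa using h2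

end A1P

open A1P

theorem t_A1 : St_A1 := by
  intro N J M hP
  refine mk hP (TJ J)
    { toFun := fun t i => ((t : Fin N → ℂ) i).re
      map_add' := fun s t => by
        funext i
        change ((s : Fin N → ℂ) i + (t : Fin N → ℂ) i).re = _
        rw [Complex.add_re]
        rfl
      map_smul' := fun a t => by
        funext i
        change ((a : ℂ) * ((t : Fin N → ℂ) i)).re = _
        rw [Complex.re_ofReal_mul]
        rfl
      invFun := fun x => ⟨cr x - Complex.I • cr (J *ᵥ x), PJ_mem hP.sq x⟩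
      left_inv := fun t => by
        apply Subtype.ext
        change cr (fun i => ((t : Fin N → ℂ) i).re) -
          Complex.I • cr (J *ᵥ (fun i => ((t : Fin N → ℂ) i).re)) = (t : Fin N → ℂ)
        rw [re_mem t.2, cr_neg, smul_neg, sub_neg_eq_add, ← re_cr]
      right_inv := fun x => by
        funext i
        change ((cr x - Complex.I • cr (J *ᵥ x)) i).re = x i
        rw [Pi.sub_apply, Pi.smul_apply, smul_eq_mul, cr_apply, cr_apply]
        simp } ?_
  intro t
  change (fun i => (Complex.I * ((t : Fin N → ℂ) i)).re) = J *ᵥ fun i => ((t : Fin N → ℂ) i).re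
  rw [re_mem t.2]
  funext i
  simp

end

end Pool.Agent.NH36.VH
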