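import Pool.Agent.NH36.VH.Stm

/-!
# VH-A2: matrices from abelian varieties (helper72)
-/

set_option autoImplicit false

namespace Pool.Agent.NH36.VH

open Module Matrix Pool.Agent.Y90 Pool.Agent.NH32
open Pool.Agent.H204R3.CM (IsHodge)

namespace A2

theorem mat_zero {N : ℕ} {A : Matrix (Fin N) (Fin N) ℝ} (h : ∀ x y, x ⬝ᵥ (A *ᵥ y) = 0) :
    A = 0 := by
  ext i j
  have := h (Pi.single i 1) (Pi.single j 1)
  simpa using this

theorem re_smul {T : Type} [AddCommGroup T] [Module ℂ T] (r : ℝ) (t : T) :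
    r • t = (r : ℂ) • t := rfl

/-- the real bilinear form of a polarization -/
noncomputable def bil {T : Type} [AddCommGroup T] [Module ℂ T] (Ψ : T → T → ℂ)
    (h1 : ∀ u', IsLinearMap ℂ fun u => Ψ u u')
    (h2 : ∀ u u', Ψ u' u = starRingEnd ℂ (Ψ u u')) : T →ₗ[ℝ] T →ₗ[ℝ] ℝ :=
  LinearMap.mk₂ ℝ (fun s t => (Ψ s t).im)
    (fun s s' t => by
      rw [show Ψ (s + s') t = Ψ s t + Ψ s' t from (h1 t).map_add s s', Complex.add_im])
    (fun r s t => by
      rw [re_smul, show Ψ ((r : ℂ) • s) t = (r : ℂ) • Ψ s t from (h1 t).map_smul (r : ℂ) s]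
      simp)
    (fun s t t' => by
      rw [h2 (t + t') s, h2 t s, h2 t' s,
        show Ψ (t + t') s = Ψ t s + Ψ t' s from (h1 s).map_add t t']
      simp)
    (fun r s t => by
      rw [re_smul, h2 ((r : ℂ) • t) s, h2 t s,
        show Ψ ((r : ℂ) • t) s = (r : ℂ) • Ψ t s from (h1 s).map_smul (r : ℂ) t]
      simp)

theorem bil_apply {T : Type} [AddCommGroup T] [Module ℂ T] {Ψ : T → T → ℂ}
    (h1 : ∀ u', IsLinearMap ℂ fun u => Ψ u u')
    (h2 : ∀ u u', Ψ u' u = starRingEnd ℂ (Ψ u u')) (s t : T) : bil Ψ h1 h2 s t = (Ψ s t).im := rfl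

theorem bil_I_left {T : Type} [AddCommGroup T] [Module ℂ T] {Ψ : T → T → ℂ}
    (h1 : ∀ u', IsLinearMap ℂ fun u => Ψ u u')
    (h2 : ∀ u u', Ψ u' u = starRingEnd ℂ (Ψ u u')) (s t : T) :
    bil Ψ h1 h2 (Complex.I • s) t = (Ψ s t).re := by
  rw [bil_apply, show Ψ (Complex.I • s) t = Complex.I • Ψ s t from (h1 t).map_smul Complex.I s]
  simp

theorem bil_I_right {T : Type} [AddCommGroup T] [Module ℂ T] {Ψ : T → T → ℂ}
    (h1 : ∀ u', IsLinearMap ℂ fun u => Ψ u u')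
    (h2 : ∀ u u', Ψ u' u = starRingEnd ℂ (Ψ u u')) (s t : T) :
    bil Ψ h1 h2 s (Complex.I • t) = -(Ψ s t).re := by
  rw [bil_apply, h2 (Complex.I • t) s,
    show Ψ (Complex.I • t) s = Complex.I • Ψ t s from (h1 s).map_smul Complex.I t, h2 t s]
  simp

/-- multiplication by the imaginary unit -/
noncomputable def mI (T : Type) [AddCommGroup T] [Module ℂ T] : T →ₗ[ℝ] T where
  toFun := fun t => Complex.I • t
  map_add' := smul_add _
  map_smul' := fun r t => by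
    simp only [re_smul, RingHom.id_apply, smul_smul, mul_comm]

end A2

open A2 in
theorem t_A2 : St_A2 := by
  intro X E hE0
  obtain ⟨Ψ, h1, h2, hpos, hE⟩ := hE0
  obtain ⟨N, hN⟩ : ∃ N, N = finrank ℚ X.H := ⟨_, rfl⟩
  obtain ⟨b⟩ : Nonempty (Basis (Fin N) ℚ X.H) := ⟨hN ▸ finBasis ℚ X.H⟩
  have hper : ∀ (q : ℚ) (v : X.H), X.per (q • v) = (q : ℝ) • X.per v := by
    intro q v
    have := map_ratCast_smul X.per ℚ ℝ q v
    rwa [Rat.cast_id] at this
  have hperv : ∀ v : X.H, X.per v = ∑ k, ((b.equivFun v k : ℚ) : ℝ) • X.per (b k) := by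
    intro v
    conv_lhs => rw [← b.sum_equivFun v]
    rw [map_sum]
    exact Finset.sum_congr rfl fun k _ => hper _ _
  have hspan : ⊤ ≤ Submodule.span ℝ (Set.range fun k => X.per (b k)) := by
    rw [← X.span]
    refine Submodule.span_le.2 ?_
    rintro _ ⟨v, rfl⟩
    rw [SetLike.mem_coe, hperv v]
    exact Submodule.sum_mem _ fun k _ => Submodule.smul_mem _ _ (Submodule.subset_span ⟨k, rfl⟩)
  have hcard : Fintype.card (Fin N) = finrank ℝ X.T := by
    rw [Fintype.card_fin, hN, X.rank, finrank_real_of_complex]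
  obtain ⟨B, hB⟩ : ∃ B : Basis (Fin N) ℝ X.T, ∀ k, B k = X.per (b k) :=
    ⟨basisOfTopLeSpanOfCardEqFinrank _ hspan hcard, fun k => by
      rw [coe_basisOfTopLeSpanOfCardEqFinrank]⟩
  obtain ⟨L, hL⟩ : ∃ L : X.T ≃ₗ[ℝ] (Fin N → ℝ), L = B.equivFun := ⟨_, rfl⟩
  obtain ⟨J, hJ⟩ : ∃ J : Matrix (Fin N) (Fin N) ℝ,
      J = LinearMap.toMatrix' (L.toLinearMap ∘ₗ mI X.T ∘ₗ L.symm.toLinearMap) := ⟨_, rfl⟩
  have hJv : ∀ t, L (Complex.I • t) = J *ᵥ L t := by
    intro t
    rw [hJ, LinearMap.toMatrix'_mulVec]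
    change _ = L (Complex.I • L.symm (L t))
    rw [L.symm_apply_apply]
  obtain ⟨M, hM⟩ : ∃ M : Matrix (Fin N) (Fin N) ℚ, ∀ i j, M i j = E (b i) (b j) :=
    ⟨fun i j => E (b i) (b j), fun i j => rfl⟩
  have hLper : ∀ v, L (X.per v) = rv (b.equivFun v) := by
    intro v
    rw [← L.eq_symm_apply, hL, B.equivFun_symm_apply, hperv v]
    refine Finset.sum_congr rfl fun k _ => ?_
    rw [hB]
    rfl
  -- the form in coordinates
  have hform : ∀ s t, bil Ψ h1 h2 s t = L s ⬝ᵥ (rm M *ᵥ L t) := by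
    intro s t
    have hs : s = ∑ i, L s i • B i := by rw [hL]; exact (B.sum_equivFun s).symm
    have ht : t = ∑ i, L t i • B i := by rw [hL]; exact (B.sum_equivFun t).symm
    conv_lhs => rw [hs, ht]
    simp only [map_sum, LinearMap.sum_apply, map_smul, LinearMap.smul_apply, dotProduct, mulVec,
      smul_eq_mul, Finset.mul_sum]
    rw [Finset.sum_comm]
    refine Finset.sum_congr rfl fun i _ => Finset.sum_congr rfl fun j _ => ?_
    have h3 : bil Ψ h1 h2 (B i) (B j) = ((M i j : ℚ) : ℝ) := by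
      rw [bil_apply, hB, hB, hE, hM]
    rw [h3]
    change _ = L s i * (((M i j : ℚ) : ℝ) * L t j)
    ring
  refine ⟨N, b.equivFun, L, J, M, ⟨hLper, hJv⟩, ⟨?_, ?_, ?_, ?_⟩, ?_⟩
  · have h3 : (L.toLinearMap ∘ₗ mI X.T ∘ₗ L.symm.toLinearMap) ∘ₗ
        (L.toLinearMap ∘ₗ mI X.T ∘ₗ L.symm.toLinearMap) = -LinearMap.id := by
      apply LinearMap.ext
      intro x
      change L (Complex.I • L.symm (L (Complex.I • L.symm x))) = -x
      rw [L.symm_apply_apply, smul_smul, Complex.I_mul_I, neg_smul, one_smul, map_neg,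
        L.apply_symm_apply]
    rw [hJ, ← LinearMap.toMatrix'_comp, h3, map_neg, LinearMap.toMatrix'_id]
  · ext i j
    rw [Matrix.transpose_apply, Matrix.neg_apply, hM, hM]
    have h3 : ((E (b j) (b i) : ℚ) : ℝ) = -((E (b i) (b j) : ℚ) : ℝ) := by
      rw [← hE, ← hE, h2 (X.per (b i)) (X.per (b j)), Complex.conj_im]
    exact_mod_cast h3
  · refine mat_zero fun x y => ?_
    obtain ⟨s, rfl⟩ := L.surjective x
    obtain ⟨t, rfl⟩ := L.surjective y
    rw [Matrix.add_mulVec, dotProduct_add, ← Matrix.mulVec_mulVec, ← Matrix.mulVec_mulVec,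
      Matrix.dotProduct_mulVec (L s) Jᵀ, Matrix.vecMul_transpose, ← hJv, ← hJv, ← hform, ← hform,
      bil_I_left, bil_I_right]
    ring
  · intro x hx
    obtain ⟨s, rfl⟩ := L.surjective x
    rw [← hJv, ← hform, bil_I_left]
    exact hpos s fun h => hx (by rw [h, map_zero])
  · intro v w
    have h3 : ((E v w : ℚ) : ℝ) = ((b.equivFun v ⬝ᵥ (M *ᵥ b.equivFun w) : ℚ) : ℝ) := by
      rw [← hE v w, ← bil_apply h1 h2, hform, hLper, hLper]
      simp only [dotProduct, mulVec, rv, rm, Matrix.map_apply]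
      push_cast
      rfl
    exact_mod_cast h3

end Pool.Agent.NH36.VH
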