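import Pool.Agent.NH36.VH.Stm

/-! Project VH, piece A3: homomorphisms in coordinates (helper86). -/

set_option autoImplicit false

namespace Pool.Agent.NH36.VH

open Module Matrix Pool.Agent.Y90 Pool.Agent.NH32
open Pool.Agent.H204R3.CM (IsHodge)

namespace A3

lemma chart_smul {X : AV} {N : ℕ} {e : X.H ≃ₗ[ℚ] (Fin N → ℚ)} {L : X.T ≃ₗ[ℝ] (Fin N → ℝ)}
    {J : Matrix (Fin N) (Fin N) ℝ} (h : Chart X e L J) (c : ℂ) (t : X.T) :
    L (c • t) = c.re • L t + c.im • (J *ᵥ L t) := by
  have h1 : c • t = c.re • t + c.im • (Complex.I • t) := by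
    conv_lhs => rw [← Complex.re_add_im c]
    rw [add_smul, mul_smul]
    rfl
  rw [h1, map_add, map_smul, map_smul, h.i]

lemma rm_rv {N : ℕ} (z : Matrix (Fin N) (Fin N) ℚ) (x : Fin N → ℚ) :
    rm z *ᵥ rv x = rv (z *ᵥ x) := by
  ext j
  simp only [Matrix.mulVec, dotProduct, rm, rv, Matrix.map_apply]
  push_cast
  rfl

end A3

theorem t_A3 : St_A3 := by
  intro X N e L J h z hz
  refine ⟨{ toFun := fun t => L.symm (rm z *ᵥ L t), map_add' := ?_, map_smul' := ?_ }, ?_⟩
  · intro s t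
    rw [map_add, Matrix.mulVec_add, map_add]
  · intro c t
    apply L.injective
    rw [LinearEquiv.apply_symm_apply, A3.chart_smul h, RingHom.id_apply, A3.chart_smul h,
      LinearEquiv.apply_symm_apply, Matrix.mulVec_add, Matrix.mulVec_smul, Matrix.mulVec_smul,
      Matrix.mulVec_mulVec, Matrix.mulVec_mulVec, hz]
  · intro v
    apply L.injective
    change L (L.symm (rm z *ᵥ L (X.per v))) = _
    rw [LinearEquiv.apply_symm_apply, h.per, h.per, A3.rm_rv]
    simp

end Pool.Agent.NH36.VH
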