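import Pool.Agent.NH36.VH.Stm

/-!
# Project VH, A4: Hodge classes in coordinates (helper20)
-/

set_option autoImplicit false

namespace Pool.Agent.NH36.VH

open Module Matrix Pool.Agent.Y90 Pool.Agent.NH32
open Pool.Agent.H204R3.CM (IsHodge)

noncomputable section

namespace A4

variable {N m : ℕ}

theorem expand (ψ : MultilinearMap ℝ (fun _ : Fin m => Fin N → ℝ) ℝ) (u : Fin m → Fin N → ℝ) :
    ψ u = ∑ r : Fin m → Fin N, (∏ k, u k (r k)) *
      ψ (fun k => (Pi.single (r k) (1 : ℝ) : Fin N → ℝ)) := by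
  have h1 : u = fun k => ∑ j, u k j • (Pi.single j (1 : ℝ) : Fin N → ℝ) := by
    funext k
    exact pi_eq_sum_univ' (u k)
  conv_lhs => rw [h1]
  rw [MultilinearMap.map_sum]
  refine Finset.sum_congr rfl fun r _ => ?_
  rw [MultilinearMap.map_smul_univ ψ (fun k => u k (r k)), smul_eq_mul]

theorem cont (ψ : MultilinearMap ℝ (fun _ : Fin m => Fin N → ℝ) ℝ) :
    Continuous fun u : Fin m → Fin N → ℝ => ψ u := by
  have e : (fun u : Fin m → Fin N → ℝ => ψ u) = fun u => ∑ r : Fin m → Fin N, (∏ k, u k (r k)) *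
      ψ (fun k => (Pi.single (r k) (1 : ℝ) : Fin N → ℝ)) := by
    funext u
    exact expand ψ u
  rw [e]
  refine continuous_finsetSum _ fun r _ => Continuous.mul ?_ continuous_const
  refine continuous_finsetProd _ fun k _ => ?_
  exact (continuous_apply (r k)).comp (continuous_apply k)

/-- the multilinear form as a continuous one -/
def toC (ψ : MultilinearMap ℝ (fun _ : Fin m => Fin N → ℝ) ℝ) :
    ContinuousMultilinearMap ℝ (fun _ : Fin m => Fin N → ℝ) ℝ :=
  { ψ with cont := cont ψ }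

theorem der (ψ : MultilinearMap ℝ (fun _ : Fin m => Fin N → ℝ) ℝ) (c : ℝ → Fin m → Fin N → ℝ)
    (c' : Fin m → Fin N → ℝ) (θ : ℝ) (h : ∀ k, HasDerivAt (fun θ => c θ k) (c' k) θ) :
    HasDerivAt (fun θ => ψ (c θ)) (∑ k, ψ (Function.update (c θ) k (c' k))) θ := by
  have h1 : HasDerivAt c c' θ := hasDerivAt_pi.2 h
  have h2 := ((toC ψ).hasFDerivAt (c θ)).comp_hasDerivAt θ h1
  rw [ContinuousMultilinearMap.linearDeriv_apply] at h2
  exact h2

/-- the rotation -/
def R (J : Matrix (Fin N) (Fin N) ℝ) (θ : ℝ) (x : Fin N → ℝ) : Fin N → ℝ :=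
  Real.cos θ • x + Real.sin θ • (J *ᵥ x)

theorem R_zero (J : Matrix (Fin N) (Fin N) ℝ) (x : Fin N → ℝ) : R J 0 x = x := by
  unfold R
  rw [Real.cos_zero, Real.sin_zero, one_smul, zero_smul, add_zero]

theorem R_der {J : Matrix (Fin N) (Fin N) ℝ} (hJ : ∀ x, J *ᵥ (J *ᵥ x) = -x) (x : Fin N → ℝ)
    (θ : ℝ) : HasDerivAt (fun θ => R J θ x) (J *ᵥ R J θ x) θ := by
  have h1 := ((Real.hasDerivAt_cos θ).smul_const x).add
    ((Real.hasDerivAt_sin θ).smul_const (J *ᵥ x))
  have e : J *ᵥ R J θ x = -Real.sin θ • x + Real.cos θ • (J *ᵥ x) := by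
    unfold R
    rw [Matrix.mulVec_add, Matrix.mulVec_smul, Matrix.mulVec_smul, hJ, smul_neg, neg_smul,
      add_comm]
  rw [e]
  exact h1

theorem der_R (ψ : MultilinearMap ℝ (fun _ : Fin m => Fin N → ℝ) ℝ)
    {J : Matrix (Fin N) (Fin N) ℝ} (hJ : ∀ x, J *ᵥ (J *ᵥ x) = -x) (u : Fin m → Fin N → ℝ)
    (θ : ℝ) : HasDerivAt (fun θ => ψ (fun k => R J θ (u k)))
      (∑ k, ψ (Function.update (fun k => R J θ (u k)) k (J *ᵥ R J θ (u k)))) θ :=
  der ψ (fun θ k => R J θ (u k)) (fun k => J *ᵥ R J θ (u k)) θ fun k => R_der hJ (u k) θ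

end A4

open A4 in
theorem t_A4 : St_A4 := by
  intro X N e L J hC m f
  have hJ : ∀ x, J *ᵥ (J *ᵥ x) = -x := by
    intro x
    have h1 := hC.i (Complex.I • L.symm x)
    have h2 := hC.i (L.symm x)
    rw [L.apply_symm_apply] at h2
    rw [h2, smul_smul, Complex.I_mul_I, neg_smul, one_smul, map_neg, L.apply_symm_apply] at h1
    exact h1.symm
  have hrot : ∀ (θ : ℝ) (t : X.T), L (Complex.exp (θ * Complex.I) • t) = R J θ (L t) := by
    intro θ t
    rw [Complex.exp_mul_I, ← Complex.ofReal_cos, ← Complex.ofReal_sin, add_smul, mul_smul,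
      Complex.coe_smul, Complex.coe_smul, map_add, map_smul, map_smul, hC.i]
    rfl
  constructor
  · rintro ⟨ψ, h1, h2⟩
    refine ⟨ψ.compLinearMap fun _ => L.symm.toLinearMap, fun v => ?_, fun u => ?_⟩
    · rw [MultilinearMap.compLinearMap_apply, ← h1 v]
      refine congrArg ψ (funext fun k => ?_)
      show L.symm (rv (e (v k))) = X.per (v k)
      rw [← hC.per, L.symm_apply_apply]
    · have h3 := der_R (ψ.compLinearMap fun _ => L.symm.toLinearMap) hJ u 0
      have h4 : (fun θ => (ψ.compLinearMap fun _ => L.symm.toLinearMap)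
          (fun k => R J θ (u k))) = fun _ => ψ (fun k => L.symm (u k)) := by
        funext θ
        rw [MultilinearMap.compLinearMap_apply,
          ← h2 (Complex.exp (θ * Complex.I)) (Complex.norm_exp_ofReal_mul_I θ)
            (fun k => L.symm (u k))]
        refine congrArg ψ (funext fun k => ?_)
        show L.symm (R J θ (u k)) = Complex.exp (θ * Complex.I) • L.symm (u k)
        rw [LinearEquiv.symm_apply_eq, hrot, L.apply_symm_apply]
      rw [h4] at h3
      have h5 := h3.unique (hasDerivAt_const (0 : ℝ) (ψ (fun k => L.symm (u k))))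
      simp only [R_zero] at h5
      exact h5
  · rintro ⟨ψ, h1, h2⟩
    refine ⟨ψ.compLinearMap fun _ => L.toLinearMap, fun v => ?_, fun z hz u => ?_⟩
    · rw [MultilinearMap.compLinearMap_apply, ← h1 v]
      refine congrArg ψ (funext fun k => ?_)
      exact hC.per (v k)
    · obtain ⟨θ, rfl⟩ := (Complex.norm_eq_one_iff z).1 hz
      rw [MultilinearMap.compLinearMap_apply, MultilinearMap.compLinearMap_apply]
      have h3 : ∀ θ : ℝ, HasDerivAt (fun θ => ψ (fun k => R J θ (L (u k)))) 0 θ := by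
        intro θ
        have h4 := der_R ψ hJ (fun k => L (u k)) θ
        have h5 := h2 (fun k => R J θ (L (u k)))
        rw [h5] at h4
        exact h4
      have h6 := is_const_of_deriv_eq_zero (fun θ => (h3 θ).differentiableAt)
        (fun θ => (h3 θ).deriv) θ 0
      have h7 : (fun k => L.toLinearMap (Complex.exp (θ * Complex.I) • u k)) =
          fun k => R J θ (L (u k)) := funext fun k => hrot θ (u k)
      rw [h7]
      refine h6.trans ?_
      simp only [R_zero]
      rfl

end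

end Pool.Agent.NH36.VH
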