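import Mathlib
import Pool.Agent.NH36.VH.Stm

/-!
# Project VH: the proof of the main theorem from the pieces
-/

namespace Pool.Agent.NH36.VH

open Module Matrix Pool.Agent.Y90 Pool.Agent.NH32
open Pool.Agent.H204R3.CM (IsHodge)

/-- The main theorem, from the generation theorem and the pieces. -/
theorem asm (gen : ∀ 𝒜 : Sys, (∀ (Y : AV) (f : Y.H [⋀^Fin 4]→ₗ[ℚ] ℚ), IsHodge Y.per f →
      𝒜.A Y (Fin 4) f) → (∀ (Y : AV) (n : ℕ) (w : Y.H [⋀^Fin n]→ₗ[ℚ] ℚ), SplitWeil Y w →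
      𝒜.A Y (Fin n) w) → ∀ A : AV, 𝒜.AllHodge A) (hc : St_cmp) (h4 : St_cm4) (hs : St_spm)
    (𝒜 : Sys) : (∀ A : AV, 𝒜.AllHodge A) ↔
      (∀ (X : AV) (f : X.H [⋀^Fin 2]→ₗ[ℚ] ℚ), IsHodge X.per f → 𝒜.A X (Fin 2) f) ∧
      Variational 𝒜 4 ∧ VariationalSplitWeil 𝒜 := by
  constructor
  · intro h
    exact ⟨fun X f hf => h X (Fin 2) f hf, fun X X' e E _ _ f hf _ _ => h X' (Fin 4) f hf,
      fun X X' e n w hw _ => h X' (Fin n) w hw.1⟩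
  · rintro ⟨h2, hv, hw⟩
    have hS : ∀ (Y : AV) (n : ℕ) (w : Y.H [⋀^Fin n]→ₗ[ℚ] ℚ), SplitWeil Y w →
        𝒜.A Y (Fin n) w := by
      intro Y n w h
      obtain ⟨X, e, hp, hA⟩ := hs Y n w h 𝒜 h2
      exact hw X Y e n w hp hA
    refine gen 𝒜 ?_ hS
    intro Y f hf
    obtain ⟨E, hE⟩ := Y.pol
    obtain ⟨X, e, z, hz, hX⟩ := hc Y E hE 4 f hf
    exact hv X Y e E hE hz.pol f hf hX
      (h4 X _ z hz 𝒜 (fun Y w h => hS Y 4 w h) _ hX)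

end Pool.Agent.NH36.VH
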