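import Pool.Agent.NH36.VH.Stm

/-!
# VH-B1: the signs in a Hodge class
-/

set_option autoImplicit false

namespace Pool.Agent.NH36.VH

open Module Matrix Pool.Agent.Y90 Pool.Agent.NH32
open Pool.Agent.H204R3.CM (IsHodge)

namespace B145

/-- products of linearly independent functionals are linearly independent -/
theorem indep {H : Type} [AddCommGroup H] [Module ℚ H] {n : ℕ} {Q : Fin n → (H →ₗ[ℚ] ℂ)}
    (hQ : LinearIndependent ℂ Q) : ∀ (m : ℕ) (a : (Fin m → Fin n) → ℂ),
    (∀ v : Fin m → H, ∑ t, a t * ∏ j, Q (t j) (v j) = 0) → ∀ t, a t = 0 := by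
  intro m
  induction m with
  | zero =>
    intro a ha t
    have h := ha (fun j => j.elim0)
    rw [Fintype.sum_subsingleton _ t] at h
    simpa using h
  | succ m ih =>
    intro a ha t
    have h1 : ∀ (i : Fin n) (v : Fin m → H),
        ∑ t' : Fin m → Fin n, a (Fin.cons i t' : Fin (m + 1) → Fin n) *
          ∏ j, Q (t' j) (v j) = 0 := by
      intro i v
      have h2 : ∑ i, (∑ t' : Fin m → Fin n, a (Fin.cons i t' : Fin (m + 1) → Fin n) *
          ∏ j, Q (t' j) (v j)) • Q i = 0 := by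
        ext x
        have h3 := ha (Fin.cons x v : Fin (m + 1) → H)
        rw [← (Fin.consEquiv (fun _ : Fin (m + 1) => Fin n)).sum_comp,
          Fintype.sum_prod_type] at h3
        simp only [LinearMap.sum_apply, LinearMap.smul_apply, LinearMap.zero_apply, smul_eq_mul]
        rw [← h3]
        refine Finset.sum_congr rfl fun i _ => ?_
        rw [Finset.sum_mul]
        refine Finset.sum_congr rfl fun t' _ => ?_
        have h5 : (Fin.consEquiv (fun _ : Fin (m + 1) => Fin n)) (i, t') =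
          (Fin.cons i t' : Fin (m + 1) → Fin n) := rfl
        rw [Fin.prod_univ_succ, h5]
        simp only [Fin.cons_zero, Fin.cons_succ]
        ring
      exact Fintype.linearIndependent_iff.1 hQ _ h2 i
    have h4 := ih (fun t' => a (Fin.cons (t 0) t' : Fin (m + 1) → Fin n)) (h1 (t 0))
      (fun j => t j.succ)
    have h5 : (Fin.cons (t 0) (fun j => t j.succ) : Fin (m + 1) → Fin n) = t :=
      Fin.cons_self_tail t
    simp only [h5] at h4
    exact h4

theorem zpow_sum' {m : ℕ} (z : ℂ) (hz : z ≠ 0) (k : Fin m → ℤ) (S : Finset (Fin m)) :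
    ∏ j ∈ S, z ^ k j = z ^ ∑ j ∈ S, k j := by
  classical
  induction S using Finset.induction_on with
  | empty => simp
  | insert a S ha ih => rw [Finset.prod_insert ha, Finset.sum_insert ha, ih, zpow_add₀ hz]

theorem exp_zpow {k : ℤ} (h : Complex.exp Complex.I ^ k = 1) : k = 0 := by
  rw [← Complex.exp_int_mul, Complex.exp_eq_one_iff] at h
  obtain ⟨n, hn⟩ := h
  have h1 : (k : ℂ) = n * (2 * Real.pi) := by
    have h2 : (k : ℂ) * Complex.I = (n * (2 * Real.pi)) * Complex.I := by
      rw [hn]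
      ring
    exact mul_right_cancel₀ Complex.I_ne_zero h2
  have h3 : (k : ℝ) = n * (2 * Real.pi) := by exact_mod_cast h1
  rcases eq_or_ne n 0 with h0 | h0
  · rw [h0] at h3
    simpa using h3
  · exfalso
    refine irrational_pi ⟨(k : ℚ) / (2 * n), ?_⟩
    have h4 : (n : ℝ) ≠ 0 := by exact_mod_cast h0
    push_cast
    rw [h3]
    field_simp

end B145

open B145

theorem t_B1 : St_B1 := by
  classical
  intro X m f hf n Q s hQ hs c hc t ht
  obtain ⟨ψ, hψ1, hψ2⟩ := hf
  have hl : ∀ j, ∃ l : X.T →ₗ[ℝ] ℂ, (∀ w, l (X.per w) = Q j w) ∧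
      ∀ z : ℂ, ‖z‖ = 1 → ∀ u, l (z • u) = z ^ (s j) * l u := by
    intro j
    rcases hs j with ⟨h1, l, hl⟩ | ⟨h1, l, hl⟩
    · refine ⟨l.restrictScalars ℝ, fun w => (hl w).symm, fun z _ u => ?_⟩
      rw [h1, zpow_one]
      exact l.map_smul z u
    · refine ⟨Complex.conjAe.toLinearMap ∘ₗ l.restrictScalars ℝ, fun w => ?_, fun z hz u => ?_⟩
      · show starRingEnd ℂ (l (X.per w)) = Q j w
        rw [← hl w]
        exact Complex.conj_conj _
      · show starRingEnd ℂ (l (z • u)) = z ^ (s j) * starRingEnd ℂ (l u)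
        rw [h1, _root_.zpow_neg_one, map_smul, smul_eq_mul, map_mul]
        congr 1
        rw [Complex.inv_def, Complex.normSq_eq_norm_sq, hz]
        simp
  choose l hl1 hl2 using hl
  let M1 : MultilinearMap ℝ (fun _ : Fin m => X.T) ℂ :=
    Complex.ofRealCLM.toLinearMap.compMultilinearMap ψ
  let M2 : MultilinearMap ℝ (fun _ : Fin m => X.T) ℂ :=
    ∑ t : Fin m → Fin n, (LinearMap.mulLeft ℝ (c t)).compMultilinearMap
      ((MultilinearMap.mkPiAlgebra ℝ (Fin m) ℂ).compLinearMap fun j => l (t j))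
  have hM1 : ∀ u, M1 u = (ψ u : ℂ) := fun u => rfl
  have hM2 : ∀ u, M2 u = ∑ t : Fin m → Fin n, c t * ∏ j, l (t j) (u j) := by
    intro u
    show (∑ t : Fin m → Fin n, (LinearMap.mulLeft ℝ (c t)).compMultilinearMap
      ((MultilinearMap.mkPiAlgebra ℝ (Fin m) ℂ).compLinearMap fun j => l (t j))) u = _
    rw [_root_.sum_apply]
    rfl
  obtain ⟨B, hB1, hB2, hB3⟩ := exists_linearIndependent ℝ (Set.range X.per)
  have hB4 : ⊤ ≤ Submodule.span ℝ (Set.range ((↑) : B → X.T)) := by
    rw [Subtype.range_coe, hB2, X.span]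
  let e : Basis B ℝ X.T := Basis.mk hB3 hB4
  have hw : ∀ b : B, ∃ w, X.per w = e b := fun b => by
    obtain ⟨w, hw⟩ := hB1 b.2
    exact ⟨w, by rw [Basis.mk_apply]; exact hw⟩
  choose w hw using hw
  have hM : M1 = M2 := by
    refine Basis.ext_multilinear (fun _ => e) fun v => ?_
    have h1 : (fun i => e (v i)) = fun i => X.per (w (v i)) := by
      funext i
      exact (hw (v i)).symm
    rw [h1, hM1, hM2, hψ1]
    have h2 := hc (fun i => w (v i))
    push_cast
    rw [h2]
    refine Finset.sum_congr rfl fun t _ => ?_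
    congr 1
    exact Finset.prod_congr rfl fun j _ => (hl1 _ _).symm
  have key : ∀ z : ℂ, ‖z‖ = 1 → ∀ v : Fin m → X.H,
      ∑ t, (c t * (z ^ (∑ j, s (t j)) - 1)) * ∏ j, Q (t j) (v j) = 0 := by
    intro z hz v
    have hz0 : z ≠ 0 := by
      intro h
      rw [h, norm_zero] at hz
      exact zero_ne_one hz
    have h1 : M2 (fun i => z • X.per (v i)) = M2 (fun i => X.per (v i)) := by
      rw [← hM, hM1, hM1, hψ2 z hz]
    rw [hM2, hM2] at h1
    have h2 : ∀ t : Fin m → Fin n, ∏ j, l (t j) (z • X.per (v j)) =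
        z ^ (∑ j, s (t j)) * ∏ j, Q (t j) (v j) := by
      intro t
      rw [← zpow_sum' z hz0 (fun j => s (t j)) Finset.univ, ← Finset.prod_mul_distrib]
      exact Finset.prod_congr rfl fun j _ => by rw [hl2 _ z hz, hl1]
    have h3 : ∀ t : Fin m → Fin n, ∏ j, l (t j) (X.per (v j)) = ∏ j, Q (t j) (v j) := fun t =>
      Finset.prod_congr rfl fun j _ => hl1 _ _
    simp only [h2, h3] at h1
    rw [← sub_eq_zero, ← Finset.sum_sub_distrib] at h1
    rw [← h1]
    exact Finset.sum_congr rfl fun t _ => by ring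
  have hz1 : ‖Complex.exp Complex.I‖ = 1 := by
    have := Complex.norm_exp_ofReal_mul_I 1
    rwa [Complex.ofReal_one, one_mul] at this
  have h1 := indep hQ m _ (key _ hz1) t
  have h2 : Complex.exp Complex.I ^ (∑ j, s (t j)) = 1 :=
    sub_eq_zero.1 ((mul_eq_zero.1 h1).resolve_left ht)
  exact exp_zpow h2

end Pool.Agent.NH36.VH
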