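import Pool.Agent.NH36.VH.Stm

/-!
# Project VH, piece B2: the third and the fourth coefficient
-/

namespace Pool.Agent.NH36.VH

open Module Matrix Pool.Agent.Y90 Pool.Agent.NH32
open Pool.Agent.H204R3.CM (IsHodge)

namespace B2aux

/-- The signs, for real numbers. -/
theorem signs (a1 a2 m3 m4 Y : ℝ) (h1 : a1 ≠ 0) (h2 : a2 ≠ 0) (h3 : m3 ≠ 0) (h4 : m4 ≠ 0)
    (hY : 0 ≤ Y)
    (hs : (if 0 < a1 then (1 : ℤ) else -1) + (if 0 < a2 then (1 : ℤ) else -1) +
      (if 0 < m3 then (1 : ℤ) else -1) + (if 0 < m4 then (1 : ℤ) else -1) = 0)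
    (hl : 0 < -a2 / a1 → -(a1 * m3) < 0 → Y < -a2 / a1)
    (hg : 0 < -a2 / a1 → 0 < -(a1 * m3) → -a2 / a1 < Y) :
    0 < -(a1 * Y + a2) * m3 ∧ 0 < a1 * a2 * -(a1 * Y + a2) * m4 := by
  rcases lt_or_gt_of_ne h1 with n1 | n1 <;> rcases lt_or_gt_of_ne h2 with n2 | n2
  · -- both negative
    have p3 : 0 < -(a1 * Y + a2) := by nlinarith
    have q1 : 0 < m3 := by
      by_contra hc
      rw [if_neg (not_lt.2 n1.le), if_neg (not_lt.2 n2.le), if_neg hc] at hs
      split_ifs at hs <;> omega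
    have q2 : 0 < m4 := by
      by_contra hc
      rw [if_neg (not_lt.2 n1.le), if_neg (not_lt.2 n2.le), if_neg hc] at hs
      split_ifs at hs <;> omega
    exact ⟨mul_pos p3 q1, mul_pos (mul_pos (mul_pos_of_neg_of_neg n1 n2) p3) q2⟩
  · -- a1 negative, a2 positive
    have hr : 0 < -a2 / a1 := div_pos_of_neg_of_neg (by linarith) n1
    rcases lt_or_gt_of_ne h3 with n3 | n3
    · have q2 : 0 < m4 := by
        by_contra hc
        rw [if_neg (not_lt.2 n1.le), if_pos n2, if_neg (not_lt.2 n3.le), if_neg hc] at hs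
        omega
      have e := hl hr (by nlinarith [mul_pos_of_neg_of_neg n1 n3])
      rw [lt_div_iff_of_neg n1] at e
      have p3 : 0 < (a1 * Y + a2) := by nlinarith
      refine ⟨by nlinarith [mul_pos p3 (neg_pos.2 n3)], ?_⟩
      have := mul_pos (mul_pos (mul_pos (neg_pos.2 n1) n2) p3) q2
      nlinarith
    · have q2 : m4 < 0 := by
        by_contra hc
        rw [if_neg (not_lt.2 n1.le), if_pos n2, if_pos n3,
          if_pos (lt_of_le_of_ne (not_lt.1 hc) h4.symm)] at hs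
        omega
      have e := hg hr (by nlinarith [mul_pos (neg_pos.2 n1) n3])
      rw [div_lt_iff_of_neg n1] at e
      have p3 : 0 < -(a1 * Y + a2) := by nlinarith
      refine ⟨mul_pos p3 n3, ?_⟩
      have := mul_pos (mul_pos (mul_pos (neg_pos.2 n1) n2) p3) (neg_pos.2 q2)
      nlinarith
  · -- a1 positive, a2 negative
    have hr : 0 < -a2 / a1 := div_pos (by linarith) n1
    rcases lt_or_gt_of_ne h3 with n3 | n3
    · have q2 : 0 < m4 := by
        by_contra hc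
        rw [if_pos n1, if_neg (not_lt.2 n2.le), if_neg (not_lt.2 n3.le), if_neg hc] at hs
        omega
      have e := hg hr (by nlinarith [mul_pos n1 (neg_pos.2 n3)])
      rw [div_lt_iff₀ n1] at e
      have p3 : 0 < (a1 * Y + a2) := by nlinarith
      refine ⟨by nlinarith [mul_pos p3 (neg_pos.2 n3)], ?_⟩
      have := mul_pos (mul_pos (mul_pos n1 (neg_pos.2 n2)) p3) q2
      nlinarith
    · have q2 : m4 < 0 := by
        by_contra hc
        rw [if_pos n1, if_neg (not_lt.2 n2.le), if_pos n3,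
          if_pos (lt_of_le_of_ne (not_lt.1 hc) h4.symm)] at hs
        omega
      have e := hl hr (by nlinarith [mul_pos n1 n3])
      rw [lt_div_iff₀ n1] at e
      have p3 : 0 < -(a1 * Y + a2) := by nlinarith
      refine ⟨mul_pos p3 n3, ?_⟩
      have := mul_pos (mul_pos (mul_pos n1 (neg_pos.2 n2)) p3) (neg_pos.2 q2)
      nlinarith
  · -- both positive
    have p3 : 0 < (a1 * Y + a2) := by nlinarith
    have q1 : m3 < 0 := by
      by_contra hc
      rw [if_pos n1, if_pos n2, if_pos (lt_of_le_of_ne (not_lt.1 hc) h3.symm)] at hs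
      split_ifs at hs <;> omega
    have q2 : m4 < 0 := by
      by_contra hc
      rw [if_pos n1, if_pos n2, if_pos (lt_of_le_of_ne (not_lt.1 hc) h4.symm)] at hs
      split_ifs at hs <;> omega
    refine ⟨by nlinarith [mul_pos p3 (neg_pos.2 q1)], ?_⟩
    have := mul_pos (mul_pos (mul_pos n1 n2) p3) (neg_pos.2 q2)
    nlinarith

variable {K : Subfield ℂ}

theorem cj_apply (z : ℂ) : cj z = starRingEnd ℂ z := rfl

theorem coe_cjk (hK : CMF K) (z : K) : ((cjk hK z : K) : ℂ) = cj z := rfl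

/-- Imaginary elements. -/
theorem im_of (hK : CMF K) {κ : K} (h : cjk hK κ = -κ) (σ : ℂ ≃+* ℂ) :
    σ κ = Complex.I * ((σ κ).im : ℂ) := by
  have h1 : cj (σ κ) = -σ κ := by
    rw [← hK.cc σ κ κ.2, ← coe_cjk hK κ, h, Subfield.coe_neg, map_neg]
  rw [cj_apply] at h1
  have h2 : (σ κ).re = 0 := by
    have := congrArg Complex.re h1
    rw [Complex.conj_re, Complex.neg_re] at this
    linarith
  apply Complex.ext <;> simp [h2]

/-- Real elements. -/
theorem re_of (hK : CMF K) {x : K} (h : cjk hK x = x) (σ : ℂ ≃+* ℂ) :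
    σ x = ((σ x).re : ℂ) := by
  have h1 : cj (σ x) = σ x := by
    rw [← hK.cc σ x x.2, ← coe_cjk hK x, h]
  rw [cj_apply] at h1
  exact (Complex.conj_eq_iff_re.1 h1).symm

theorem im_ne (hK : CMF K) {κ : K} (h : cjk hK κ = -κ) (h0 : κ ≠ 0) (σ : ℂ ≃+* ℂ) :
    (σ κ).im ≠ 0 := by
  intro h1
  have h2 := im_of hK h σ
  rw [h1, Complex.ofReal_zero, mul_zero] at h2
  have h3 : (κ : ℂ) = 0 := by simpa using h2
  exact h0 (by exact_mod_cast h3)

/-- The choice of the exponent. -/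
theorem expo (hK : CMF K) (η r : K) : ∃ (C : ℕ) (k : ℕ), 0 < C ∧
    ∀ φ : K →+* ℂ, |(φ η).re| < C ∧
      (0 < (φ r).re → (φ η).re < 0 → (1 + (φ η).re / C) ^ (2 * k) < (φ r).re) ∧
      (0 < (φ r).re → 0 < (φ η).re → (φ r).re < (1 + (φ η).re / C) ^ (2 * k)) := by
  have := hK.fin
  have : NumberField K := { to_charZero := inferInstance, to_finiteDimensional := hK.fin }
  have : Finite (K →+* ℂ) := inferInstance
  obtain ⟨C, hC0, hC⟩ : ∃ C : ℕ, 0 < C ∧ ∀ φ : K →+* ℂ, |(φ η).re| < C := by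
    have h1 : ∀ᶠ C : ℕ in Filter.atTop, ∀ φ : K →+* ℂ, |(φ η).re| < C := by
      rw [Filter.eventually_all]
      intro φ
      exact (tendsto_natCast_atTop_atTop (R := ℝ)).eventually_gt_atTop _
    obtain ⟨C, hC, hC1⟩ := (h1.and (Filter.eventually_gt_atTop 0)).exists
    exact ⟨C, hC1, hC⟩
  have hCr : (0 : ℝ) < C := by exact_mod_cast hC0
  have h2 : ∀ᶠ k : ℕ in Filter.atTop, ∀ φ : K →+* ℂ,
      (0 < (φ r).re → (φ η).re < 0 → (1 + (φ η).re / C) ^ (2 * k) < (φ r).re) ∧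
      (0 < (φ r).re → 0 < (φ η).re → (φ r).re < (1 + (φ η).re / C) ^ (2 * k)) := by
    rw [Filter.eventually_all]
    intro φ
    have h3 := abs_lt.1 (hC φ)
    have h4 : Filter.Tendsto (fun k : ℕ => 2 * k) Filter.atTop Filter.atTop :=
      Filter.tendsto_id.const_mul_atTop' (by norm_num)
    rcases lt_trichotomy (φ η).re 0 with he | he | he
    · by_cases hr : 0 < (φ r).re
      · have h5 : (φ η).re / C < 0 := div_neg_of_neg_of_pos he hCr
        have h6 : -1 < (φ η).re / C := by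
          rw [lt_div_iff₀ hCr]
          linarith [h3.1]
        have h7 := (tendsto_pow_atTop_nhds_zero_of_lt_one (r := 1 + (φ η).re / C)
          (by linarith) (by linarith)).comp h4
        filter_upwards [h7.eventually_lt_const hr] with k hk
        exact ⟨fun _ _ => hk, fun _ h => absurd h (not_lt.2 he.le)⟩
      · exact Filter.Eventually.of_forall fun k => ⟨fun h => absurd h hr, fun h => absurd h hr⟩
    · exact Filter.Eventually.of_forall fun k =>
        ⟨fun _ h => absurd h (by rw [he]; exact lt_irrefl 0),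
          fun _ h => absurd h (by rw [he]; exact lt_irrefl 0)⟩
    · have h5 : 0 < (φ η).re / C := div_pos he hCr
      have h7 := (tendsto_pow_atTop_atTop_of_one_lt (r := 1 + (φ η).re / C)
        (by linarith)).comp h4
      filter_upwards [h7.eventually_gt_atTop (φ r).re] with k hk
      exact ⟨fun _ h => absurd h (not_lt.2 he.le), fun _ _ => hk⟩
  obtain ⟨k, hk⟩ := h2.exists
  exact ⟨C, k, hC0, fun φ => ⟨hC φ, hk φ⟩⟩

theorem cjk_eq_iff (hK : CMF K) (x y : K) : cjk hK x = y ↔ cj (x : ℂ) = (y : ℂ) := by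
  rw [← coe_cjk hK, Subtype.coe_inj]

theorem sg_eq {z w : ℂ} (h : 0 < z.im * w.im) : sg z = sg w := by
  unfold sg
  rcases lt_or_ge 0 z.im with h1 | h1
  · have h2 : 0 < w.im := by
      by_contra h3
      nlinarith
    rw [if_pos h1, if_pos h2]
  · have h2 : ¬ 0 < w.im := fun h3 => by nlinarith
    rw [if_neg (not_lt.2 h1), if_neg h2]

end B2aux

open B2aux

theorem t_B2 : St_B2 := by
  intro K hK κ₁ κ₂ μ₃ μ₄ h1 h2 h3 h4 hs
  obtain ⟨C, k, hC0, hCk⟩ := expo hK (κ₁ * μ₃) (-κ₂ / κ₁)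
  have hCr : (0 : ℝ) < C := by exact_mod_cast hC0
  have e1 := (cjk_eq_iff hK _ _).1 h1.1
  have e2 := (cjk_eq_iff hK _ _).1 h2.1
  have e3 := (cjk_eq_iff hK _ _).1 h3.1
  rw [Subfield.coe_neg] at e1 e2 e3
  set x : K := (1 + κ₁ * μ₃ / C) ^ k with hx
  have hxc : cjk hK x = x := by
    rw [cjk_eq_iff, hx]
    push_cast
    rw [map_pow, map_add, map_one, map_div₀, map_mul, e1, e3, map_natCast, neg_mul_neg]
  have hx1 := (cjk_eq_iff hK _ _).1 hxc
  obtain ⟨κ₃, hκ₃⟩ : ∃ y : K, y = -(κ₁ * x ^ 2 + κ₂) := ⟨_, rfl⟩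
  obtain ⟨κ₄, hκ₄⟩ : ∃ y : K, y = -(κ₁ * κ₂ * κ₃) := ⟨_, rfl⟩
  have c3 : cjk hK κ₃ = -κ₃ := by
    rw [cjk_eq_iff, hκ₃]
    push_cast
    rw [map_neg, map_add, map_mul, map_pow, e1, e2, hx1]
    ring
  have e3' := (cjk_eq_iff hK _ _).1 c3
  rw [Subfield.coe_neg] at e3'
  have c4 : cjk hK κ₄ = -κ₄ := by
    rw [cjk_eq_iff, hκ₄]
    push_cast
    rw [map_neg, map_mul, map_mul, e1, e2, e3']
    ring
  have key (σ : ℂ ≃+* ℂ) : 0 < (σ κ₃).im * (σ μ₃).im ∧ 0 < (σ κ₄).im * (σ μ₄).im := by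
    obtain ⟨a1, ha1⟩ : ∃ a : ℝ, a = (σ κ₁).im := ⟨_, rfl⟩
    obtain ⟨a2, ha2⟩ : ∃ a : ℝ, a = (σ κ₂).im := ⟨_, rfl⟩
    obtain ⟨m3, hm3⟩ : ∃ a : ℝ, a = (σ μ₃).im := ⟨_, rfl⟩
    obtain ⟨m4, hm4⟩ : ∃ a : ℝ, a = (σ μ₄).im := ⟨_, rfl⟩
    have i1 := im_of hK h1.1 σ
    have i2 := im_of hK h2.1 σ
    have i3 := im_of hK h3.1 σ
    have n1 := im_ne hK h1.1 h1.2 σ
    have n2 := im_ne hK h2.1 h2.2 σ
    have n3 := im_ne hK h3.1 h3.2 σ
    have n4 := im_ne hK h4.1 h4.2 σ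
    rw [← ha1] at i1 n1
    rw [← ha2] at i2 n2
    rw [← hm3] at i3 n3
    rw [← hm4] at n4
    have hI : Complex.I * Complex.I = -1 := Complex.I_mul_I
    have n1' : (a1 : ℂ) ≠ 0 := by exact_mod_cast n1
    have hη : σ ((κ₁ * μ₃ : K) : ℂ) = ((-(a1 * m3) : ℝ) : ℂ) := by
      push_cast
      rw [map_mul, i1, i3]
      linear_combination (a1 * m3 : ℂ) * hI
    have hr : σ ((-κ₂ / κ₁ : K) : ℂ) = ((-a2 / a1 : ℝ) : ℂ) := by
      push_cast
      rw [map_div₀, map_neg, i1, i2]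
      field_simp
    have hφ := hCk ((σ : ℂ →+* ℂ).comp K.subtype)
    have b1 : ((σ : ℂ →+* ℂ).comp K.subtype) (κ₁ * μ₃) = ((-(a1 * m3) : ℝ) : ℂ) := hη
    have b2 : ((σ : ℂ →+* ℂ).comp K.subtype) (-κ₂ / κ₁) = ((-a2 / a1 : ℝ) : ℂ) := hr
    rw [b1, b2, Complex.ofReal_re, Complex.ofReal_re] at hφ
    obtain ⟨-, hl, hg⟩ := hφ
    have hxs : σ x = (((1 + -(a1 * m3) / C) ^ k : ℝ) : ℂ) := by
      rw [hx]
      have := hη
      push_cast at this ⊢
      rw [map_pow, map_add, map_one, map_div₀, this, map_natCast]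
    obtain ⟨Y, hY⟩ : ∃ Y : ℝ, Y = (1 + -(a1 * m3) / C) ^ (2 * k) := ⟨_, rfl⟩
    rw [← hY] at hl hg
    have hY0 : 0 ≤ Y := by
      rw [hY, pow_mul']
      exact sq_nonneg ((1 + -(a1 * m3) / C) ^ k : ℝ)
    have hxs2 : σ x ^ 2 = (Y : ℂ) := by
      rw [hxs, hY, pow_mul', Complex.ofReal_pow _ 2]
    have v3 : σ κ₃ = Complex.I * ((-(a1 * Y + a2) : ℝ) : ℂ) := by
      rw [hκ₃]
      push_cast
      rw [map_neg, map_add, map_mul, map_pow, i1, i2, hxs2]
      ring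
    have v4 : σ κ₄ = Complex.I * ((a1 * a2 * -(a1 * Y + a2) : ℝ) : ℂ) := by
      rw [hκ₄]
      push_cast
      rw [map_neg, map_mul, map_mul, i1, i2, v3]
      push_cast
      linear_combination (Complex.I * a1 * a2 * (a1 * Y + a2) : ℂ) * hI
    have w3 : (σ κ₃).im = -(a1 * Y + a2) := by
      rw [v3]; simp only [Complex.I_mul_im, Complex.ofReal_re]
    have w4 : (σ κ₄).im = a1 * a2 * -(a1 * Y + a2) := by
      rw [v4]; simp only [Complex.I_mul_im, Complex.ofReal_re]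
    rw [w3, w4, ← hm3, ← hm4]
    refine signs a1 a2 m3 m4 Y n1 n2 n3 n4 hY0 ?_ hl hg
    have hs' := hs σ
    unfold sg at hs'
    rw [← ha1, ← ha2, ← hm3, ← hm4] at hs'
    exact hs'
  have z3 : κ₃ ≠ 0 := fun h => by
    have := (key (RingEquiv.refl ℂ)).1
    rw [h] at this
    simp at this
  have z4 : κ₄ ≠ 0 := fun h => by
    have := (key (RingEquiv.refl ℂ)).2
    rw [h] at this
    simp at this
  exact ⟨x, κ₃, κ₄, hxc, hκ₃, hκ₄, ⟨c3, z3⟩, ⟨c4, z4⟩,
    fun σ => ⟨sg_eq (key σ).1, sg_eq (key σ).2⟩⟩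

end Pool.Agent.NH36.VH
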