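import Pool.Agent.NH36.VH.Stm

/-!
# Project VH, job B3: the class is a split Weil class
-/

namespace Pool.Agent.NH36.VH

open Module Matrix Pool.Agent.Y90 Pool.Agent.NH32
open Pool.Agent.H204R3.CM (IsHodge)

noncomputable section

namespace B3

variable {K : Subfield ℂ} (hK : CMF K)

theorem cadd (z w : K) : cjk hK (z + w) = cjk hK z + cjk hK w := by
  apply Subtype.ext
  show cj ((z + w : K) : ℂ) = cj z + cj w
  rw [← map_add]
  rfl

theorem cmul (z w : K) : cjk hK (z * w) = cjk hK z * cjk hK w := by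
  apply Subtype.ext
  show cj ((z * w : K) : ℂ) = cj z * cj w
  rw [← map_mul]
  rfl

theorem csub (z w : K) : cjk hK (z - w) = cjk hK z - cjk hK w := by
  apply Subtype.ext
  show cj ((z - w : K) : ℂ) = cj z - cj w
  rw [← map_sub]
  rfl

/-- the change of coordinates -/
def T (κ₁ κ₂ x κ₃ : K) (h3 : κ₃ = -(κ₁ * x ^ 2 + κ₂)) (h0 : κ₃ ≠ 0) :
    (Fin 4 → K) ≃ₗ[K] (Fin 2 ⊕ Fin 2 → K) where
  toFun u := Sum.elim ![(κ₁ * x * u 0 + κ₂ * u 1) / (-κ₃), (x * u 1 - u 0) / (-κ₃)] ![u 2, u 3]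
  map_add' u v := by
    funext j
    rcases j with j | j <;> fin_cases j <;>
      simp only [Sum.elim_inl, Sum.elim_inr, Pi.add_apply, Fin.zero_eta, Fin.mk_one,
        Matrix.cons_val_zero, Matrix.cons_val_one] <;> ring
  map_smul' c u := by
    funext j
    rcases j with j | j <;> fin_cases j <;>
      simp only [Sum.elim_inl, Sum.elim_inr, Pi.smul_apply, Fin.zero_eta, Fin.mk_one,
        Matrix.cons_val_zero, Matrix.cons_val_one, smul_eq_mul, RingHom.id_apply] <;> ring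
  invFun y := ![x * y (Sum.inl 0) - κ₂ * y (Sum.inl 1), y (Sum.inl 0) + κ₁ * x * y (Sum.inl 1),
    y (Sum.inr 0), y (Sum.inr 1)]
  left_inv u := by
    have hn : -κ₃ ≠ 0 := neg_ne_zero.2 h0
    have e : -κ₃ = κ₁ * x ^ 2 + κ₂ := by rw [h3]; ring
    funext j
    fin_cases j
    · show x * ((κ₁ * x * u 0 + κ₂ * u 1) / (-κ₃)) - κ₂ * ((x * u 1 - u 0) / (-κ₃)) = u 0
      rw [mul_div_assoc', mul_div_assoc', ← sub_div, div_eq_iff hn, e]
      ring
    · show (κ₁ * x * u 0 + κ₂ * u 1) / (-κ₃) + κ₁ * x * ((x * u 1 - u 0) / (-κ₃)) = u 1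
      rw [mul_div_assoc', ← add_div, div_eq_iff hn, e]
      ring
    · rfl
    · rfl
  right_inv y := by
    have hn : -κ₃ ≠ 0 := neg_ne_zero.2 h0
    have e : -κ₃ = κ₁ * x ^ 2 + κ₂ := by rw [h3]; ring
    funext j
    rcases j with j | j <;> fin_cases j
    · show (κ₁ * x * (x * y (Sum.inl 0) - κ₂ * y (Sum.inl 1)) +
        κ₂ * (y (Sum.inl 0) + κ₁ * x * y (Sum.inl 1))) / (-κ₃) = y (Sum.inl 0)
      rw [div_eq_iff hn, e]
      ring
    · show (x * (y (Sum.inl 0) + κ₁ * x * y (Sum.inl 1)) -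
        (x * y (Sum.inl 0) - κ₂ * y (Sum.inl 1))) / (-κ₃) = y (Sum.inl 1)
      rw [div_eq_iff hn, e]
      ring
    · rfl
    · rfl

theorem T_symm {κ₁ κ₂ x κ₃ : K} (h3 : κ₃ = -(κ₁ * x ^ 2 + κ₂)) (h0 : κ₃ ≠ 0)
    (y : Fin 2 ⊕ Fin 2 → K) : (T κ₁ κ₂ x κ₃ h3 h0).symm y =
      ![x * y (Sum.inl 0) - κ₂ * y (Sum.inl 1), y (Sum.inl 0) + κ₁ * x * y (Sum.inl 1),
        y (Sum.inr 0), y (Sum.inr 1)] := rfl

end B3

open B3 in
theorem t_B3 (h : St_spw) : St_B3 := by
  intro K hK κ₁ κ₂ x κ₃ κ₄ h1 h2 hx h3 h4 g3 g4 Y b hb hpol a w hw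
  set S := T κ₁ κ₂ x κ₃ h3 g3.2 with hS
  set b' : Y.H ≃ₗ[ℚ] (Fin 2 ⊕ Fin 2 → K) := b.trans (S.restrictScalars ℚ) with hb'
  have hbb : ∀ v, b v = S.symm (b' v) := by
    intro v
    rw [hb']
    show b v = S.symm (S (b v))
    rw [LinearEquiv.symm_apply_apply]
  refine h K hK ![κ₃, κ₄] ?_ Y b' ?_ ?_ (a * (-κ₃)) w ?_
  · intro j
    fin_cases j
    · exact g3
    · exact g4
  · intro c
    have e : b'.symm.toLinearMap ∘ₗ scK K (Fin 2 ⊕ Fin 2) c ∘ₗ b'.toLinearMap =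
        b.symm.toLinearMap ∘ₗ scK K (Fin 4) c ∘ₗ b.toLinearMap := by
      ext v
      show b'.symm (c • b' v) = b.symm (c • b v)
      rw [LinearEquiv.symm_apply_eq]
      show c • b' v = S (b (b.symm (c • b v)))
      rw [LinearEquiv.apply_symm_apply, S.map_smul]
      rfl
    rw [e]
    exact hb c
  · have e : (fun v w => frK hK (Sum.elim (fun j => -(![κ₃, κ₄] : Fin 2 → K) j) ![κ₃, κ₄]) (b' v)
        (b' w)) = fun v w => frK hK ![κ₁, κ₂, κ₃, κ₄] (b v) (b w) := by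
      funext v v'
      unfold frK
      congr 1
      rw [hbb v, hbb v', hS, T_symm, T_symm]
      rw [Fintype.sum_sum_type, Fin.sum_univ_two, Fin.sum_univ_two, Fin.sum_univ_four]
      simp only [Sum.elim_inl, Sum.elim_inr, Matrix.cons_val_zero, Matrix.cons_val_one,
        Matrix.cons_val]
      rw [csub, cadd, cmul, cmul, cmul, cmul, hx, h1.1, h2.1]
      rw [h4, h3]
      ring
    rw [e]
    exact hpol
  · intro v
    rw [hw]
    congr 1
    have e1 : (of fun i j => b (v ((finSumFinEquiv (m := 2) (n := 2)).symm i)) j :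
        Matrix (Fin 4) (Fin 4) K) =
        ((of fun i j => b' (v i) j : Matrix (Fin 2 ⊕ Fin 2) (Fin 2 ⊕ Fin 2) K) *
          Matrix.fromBlocks !![x, 1; -κ₂, κ₁ * x] 0 0
            (1 : Matrix (Fin 2) (Fin 2) K)).submatrix (finSumFinEquiv (m := 2) (n := 2)).symm
            (finSumFinEquiv (m := 2) (n := 2)).symm := by
      refine Matrix.ext fun i j => ?_
      rw [Matrix.submatrix_apply, Matrix.mul_apply, Fintype.sum_sum_type, Fin.sum_univ_two,
        Fin.sum_univ_two, Matrix.of_apply]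
      simp only [Matrix.of_apply]
      set u := v ((finSumFinEquiv (m := 2) (n := 2)).symm i)
      rw [hbb u, hS, T_symm]
      obtain ⟨j, rfl⟩ := (finSumFinEquiv (m := 2) (n := 2)).surjective j
      rw [Equiv.symm_apply_apply]
      rcases j with j | j <;> fin_cases j
      · show x * b' u (Sum.inl 0) - κ₂ * b' u (Sum.inl 1) =
          b' u (Sum.inl 0) * x + b' u (Sum.inl 1) * (-κ₂) + (b' u (Sum.inr 0) * 0 +
            b' u (Sum.inr 1) * 0)
        ring
      · show b' u (Sum.inl 0) + κ₁ * x * b' u (Sum.inl 1) =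
          b' u (Sum.inl 0) * 1 + b' u (Sum.inl 1) * (κ₁ * x) + (b' u (Sum.inr 0) * 0 +
            b' u (Sum.inr 1) * 0)
        ring
      · show b' u (Sum.inr 0) =
          b' u (Sum.inl 0) * 0 + b' u (Sum.inl 1) * 0 + (b' u (Sum.inr 0) * (1 : Matrix (Fin 2) (Fin 2) K) 0 0 +
            b' u (Sum.inr 1) * (1 : Matrix (Fin 2) (Fin 2) K) 1 0)
        rw [Matrix.one_apply_eq, Matrix.one_apply_ne (by decide)]
        ring
      · show b' u (Sum.inr 1) =
          b' u (Sum.inl 0) * 0 + b' u (Sum.inl 1) * 0 + (b' u (Sum.inr 0) * (1 : Matrix (Fin 2) (Fin 2) K) 0 1 +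
            b' u (Sum.inr 1) * (1 : Matrix (Fin 2) (Fin 2) K) 1 1)
        rw [Matrix.one_apply_eq, Matrix.one_apply_ne (by decide)]
        ring
    rw [e1, Matrix.det_submatrix_equiv_self, Matrix.det_mul, Matrix.det_fromBlocks_zero₂₁,
      Matrix.det_one, Matrix.det_fin_two_of, h3]
    ring

end

end Pool.Agent.NH36.VH
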