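import Pool.Agent.NH36.VH.Stm

/-!
# Project VH, B4: the pull-back belongs to the system (helper51)
-/

set_option autoImplicit false

namespace Pool.Agent.NH36.VH

open Module Matrix Pool.Agent.Y90 Pool.Agent.NH32
open Pool.Agent.H204R3.CM (IsHodge)

noncomputable section

namespace B4

lemma cjk_neg {K : Subfield ℂ} (hK : CMF K) (a : K) : cjk hK (-a) = -cjk hK a := by
  apply Subtype.ext
  exact map_neg cj (a : ℂ)

lemma cj_re (w : ℂ) (h : cj w = -w) : w.re = 0 := by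
  have h1 := congrArg Complex.re h
  have h2 : (cj w).re = w.re := rfl
  rw [h2, Complex.neg_re] at h1
  linarith

lemma im_ne {K : Subfield ℂ} (hK : CMF K) {a : K} (h : cjk hK a = -a) (h0 : a ≠ 0)
    (σ : ℂ ≃+* ℂ) : (σ (a : ℂ)).im ≠ 0 := by
  intro him
  have h1 : cj (a : ℂ) = -(a : ℂ) := congrArg (Subtype.val) h
  have h2 : cj (σ (a : ℂ)) = -σ (a : ℂ) := by
    rw [← hK.cc σ a a.2, h1, map_neg]
  have h3 : σ (a : ℂ) = 0 := Complex.ext (cj_re _ h2) him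
  rw [map_eq_zero] at h3
  exact h0 (Subtype.ext h3)

lemma sg_pos {w : ℂ} (h : 0 < w.im) : sg w = 1 := by
  unfold sg
  rw [if_pos h]

lemma sg_neg' {w : ℂ} (h : w.im < 0) : sg w = -1 := by
  unfold sg
  rw [if_neg (not_lt.2 h.le)]

lemma sg_neg {w : ℂ} (h : w.im ≠ 0) : sg (-w) = -sg w := by
  rcases lt_or_gt_of_ne h with h1 | h1
  · rw [sg_neg' h1, sg_pos (by rw [Complex.neg_im]; linarith)]
    rfl
  · rw [sg_pos h1, sg_neg' (by rw [Complex.neg_im]; linarith)]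

lemma sg_negk {K : Subfield ℂ} (hK : CMF K) {a : K} (h : cjk hK a = -a) (h0 : a ≠ 0)
    (σ : ℂ ≃+* ℂ) : sg (σ ((-a : K) : ℂ)) = -sg (σ (a : ℂ)) := by
  have e : σ ((-a : K) : ℂ) = -σ (a : ℂ) := map_neg σ (a : ℂ)
  rw [e, sg_neg (im_ne hK h h0 σ)]

/-- the functional `σ ∘ P` -/
def QQl {K : Subfield ℂ} {H : Type} [AddCommGroup H] [Module ℚ H] (P : H →ₗ[ℚ] K)
    (σ : ℂ ≃+* ℂ) : H →ₗ[ℚ] ℂ :=
  AddMonoidHom.toRatLinearMap ((σ : ℂ →+* ℂ).toAddMonoidHom.comp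
    (K.subtype.toAddMonoidHom.comp P.toAddMonoidHom))

lemma QQl_apply {K : Subfield ℂ} {H : Type} [AddCommGroup H] [Module ℚ H] (P : H →ₗ[ℚ] K)
    (σ : ℂ ≃+* ℂ) (v : H) : QQl P σ v = σ (P v : ℂ) := rfl

/-- the trace of the determinant, multilinear -/
def trm {K : Subfield ℂ} {H : Type} [AddCommGroup H] [Module ℚ H] (b : H ≃ₗ[ℚ] (Fin 4 → K))
    (c : K) : MultilinearMap ℚ (fun _ : Fin 4 => H) ℚ :=
  ((Algebra.trace ℚ K) ∘ₗ (LinearMap.mulLeft ℚ c)).compMultilinearMap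
    ((MultilinearMap.restrictScalars ℚ
      (Matrix.detRowAlternating : (Fin 4 → K) [⋀^Fin 4]→ₗ[K] K).toMultilinearMap).compLinearMap
      fun _ => b.toLinearMap)

lemma trm_apply {K : Subfield ℂ} {H : Type} [AddCommGroup H] [Module ℚ H]
    (b : H ≃ₗ[ℚ] (Fin 4 → K)) (c : K) (v : Fin 4 → H) :
    trm b c v = Algebra.trace ℚ K (c * det (of fun i j => b (v i) j)) := rfl

/-- the trace of the determinant -/
def trd {K : Subfield ℂ} {H : Type} [AddCommGroup H] [Module ℚ H] (b : H ≃ₗ[ℚ] (Fin 4 → K))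
    (c : K) : H [⋀^Fin 4]→ₗ[ℚ] ℚ where
  toMultilinearMap := trm b c
  map_eq_zero_of_eq' := by
    intro v i j h hij
    have h1 : trm b c v = 0 := by
      rw [trm_apply, Matrix.det_zero_of_row_eq hij, mul_zero, map_zero]
      funext k
      simp only [Matrix.of_apply, h]
    exact h1

lemma trd_apply {K : Subfield ℂ} {H : Type} [AddCommGroup H] [Module ℚ H]
    (b : H ≃ₗ[ℚ] (Fin 4 → K)) (c : K) (v : Fin 4 → H) :
    trd b c v = Algebra.trace ℚ K (c * det (of fun i j => b (v i) j)) := trm_apply b c v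

end B4

open B4 in
/-- **B4** -/
theorem t_B4 (h1 : St_cmav) (h2 : St_B0) (h3 : St_B2) (h4 : St_B3) : St_B4 := by
  intro X E z hC K hK P l hP hl hsum 𝒜 h𝒜 c g hg
  have hneg : ∀ j, cjk hK (-l j) = -(-l j) ∧ -l j ≠ 0 := fun j =>
    ⟨by rw [cjk_neg, (hl j).1], neg_ne_zero.2 (hl j).2⟩
  have hs : ∀ σ : ℂ ≃+* ℂ, sg (σ ((-l 0 : K) : ℂ)) + sg (σ ((-l 1 : K) : ℂ)) +
      sg (σ ((-l 2 : K) : ℂ)) + sg (σ ((-l 3 : K) : ℂ)) = 0 := by
    intro σ
    have h5 := hsum σ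
    rw [Fin.sum_univ_four] at h5
    rw [sg_negk hK (hl 0).1 (hl 0).2, sg_negk hK (hl 1).1 (hl 1).2,
      sg_negk hK (hl 2).1 (hl 2).2, sg_negk hK (hl 3).1 (hl 3).2]
    linarith
  obtain ⟨x, κ₃, κ₄, hx, hk3, hk4, hs3, hs4, hsg⟩ :=
    h3 K hK (-l 0) (-l 1) (-l 2) (-l 3) (hneg 0) (hneg 1) (hneg 2) (hneg 3) hs
  have hκ : ∀ j, cjk hK ((![-l 0, -l 1, κ₃, κ₄] : Fin 4 → K) j) =
      -(![-l 0, -l 1, κ₃, κ₄] : Fin 4 → K) j ∧ (![-l 0, -l 1, κ₃, κ₄] : Fin 4 → K) j ≠ 0 := by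
    intro j
    fin_cases j
    · exact hneg 0
    · exact hneg 1
    · exact hs3
    · exact hs4
  have hsgn : ∀ j (σ : ℂ ≃+* ℂ), sg (σ ((![-l 0, -l 1, κ₃, κ₄] : Fin 4 → K) j : ℂ)) =
      -sg (σ (l j : ℂ)) := by
    intro j σ
    fin_cases j
    · exact sg_negk hK (hl 0).1 (hl 0).2 σ
    · exact sg_negk hK (hl 1).1 (hl 1).2 σ
    · exact (hsg σ).1.trans (sg_negk hK (hl 2).1 (hl 2).2 σ)
    · exact (hsg σ).2.trans (sg_negk hK (hl 3).1 (hl 3).2 σ)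
  obtain ⟨Y, b, hact, hpol, hhom⟩ := h1 K hK 4 ![-l 0, -l 1, κ₃, κ₄] hκ
  have hH := hhom X P (by
    intro j σ
    obtain ⟨hP0, hPz⟩ := hP j
    have hQ0 : QQl (P j) σ ≠ 0 := by
      intro h0
      apply hP0
      ext v
      have h5 : σ (P j v : ℂ) = 0 := by
        rw [← QQl_apply, h0]
        rfl
      rw [map_eq_zero] at h5
      exact h5
    have hQz : ∀ v, QQl (P j) σ (z v) = σ (l j : ℂ) * QQl (P j) σ v := by
      intro v
      rw [QQl_apply, QQl_apply, hPz, ← map_mul]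
      rfl
    obtain ⟨-, h5⟩ := h2 X E z hC (QQl (P j) σ) (σ (l j : ℂ)) hQ0 hQz
    rcases h5 with ⟨h6, h7⟩ | ⟨h6, h7⟩
    · left
      refine ⟨?_, h7⟩
      rw [hsgn j σ, sg_pos h6]
    · right
      refine ⟨?_, h7⟩
      rw [hsgn j σ, sg_neg' h6]
      rfl)
  have hm := hH 1
  have hw := h4 K hK (-l 0) (-l 1) x κ₃ κ₄ (hneg 0) (hneg 1) hx hk3 hk4 hs3 hs4 Y b hact hpol c
    (trd b c) (fun v => trd_apply b c v)
  have hpull := 𝒜.pull _ hm (trd b c) (h𝒜 Y _ hw)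
  have e : (trd b c).compLinearMap
      (b.symm.toLinearMap ∘ₗ scK K (Fin 4) 1 ∘ₗ LinearMap.pi P) = g := by
    ext v
    rw [hg v]
    have h5 : ∀ i j, b ((b.symm.toLinearMap ∘ₗ scK K (Fin 4) 1 ∘ₗ LinearMap.pi P) (v i)) j =
        P j (v i) := by
      intro i j
      have h6 : b ((b.symm.toLinearMap ∘ₗ scK K (Fin 4) 1 ∘ₗ LinearMap.pi P) (v i)) =
          scK K (Fin 4) 1 (LinearMap.pi P (v i)) := b.apply_symm_apply _
      rw [h6]
      exact one_mul _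
    have h7 : ((trd b c).compLinearMap
        (b.symm.toLinearMap ∘ₗ scK K (Fin 4) 1 ∘ₗ LinearMap.pi P)) v =
        Algebra.trace ℚ K (c * det (of fun i j =>
          b ((b.symm.toLinearMap ∘ₗ scK K (Fin 4) 1 ∘ₗ LinearMap.pi P) (v i)) j)) :=
      trd_apply b c _
    rw [h7]
    congr 3
    ext i j
    exact congrArg Subtype.val (h5 i j)
  rw [e] at hpull
  exact hpull

end

end Pool.Agent.NH36.VH
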