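import Pool.Agent.NH36.VH.Stm

/-!
# VH-B5: expansion of a rational form
-/

set_option autoImplicit false

namespace Pool.Agent.NH36.VH

open Module Matrix Pool.Agent.Y90 Pool.Agent.NH32
open Pool.Agent.H204R3.CM (IsHodge)

namespace B5aux

variable {K : Subfield ℂ} {V : Type} [AddCommGroup V] [Module ℚ V]

theorem toC_apply {H : Type} [AddCommGroup H] [Module ℚ H] (f : H →ₗ[ℚ] K) (x : H) :
    toC f x = (f x : ℂ) := rfl

/-- The matrix of the functionals is invertible. -/
theorem isUnit_mat {n : ℕ} (b : Basis (Fin n) ℚ V) (P : Fin n → (V →ₗ[ℚ] K))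
    (hP : LinearIndependent ℂ (fun j => toC (P j))) :
    IsUnit (of fun j i => P j (b i) : Matrix (Fin n) (Fin n) K) := by
  rw [← Matrix.linearIndependent_rows_iff_isUnit]
  rw [Fintype.linearIndependent_iff] at hP ⊢
  intro a ha j
  have h1 : ∀ i, ∑ j, a j * P j (b i) = 0 := by
    intro i
    have := congrFun ha i
    simpa [Finset.sum_apply, Matrix.row] using this
  have h2 : ∑ j, (a j : ℂ) • toC (P j) = 0 := by
    refine b.ext fun i => ?_
    rw [LinearMap.sum_apply, LinearMap.zero_apply]
    have h3 := congrArg (fun z : K => (z : ℂ)) (h1 i)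
    simp only [LinearMap.smul_apply, toC_apply, smul_eq_mul]
    push_cast at h3
    exact h3
  have h3 := hP (fun j => (a j : ℂ)) h2 j
  exact_mod_cast h3

theorem expand {n m : ℕ} (b : Basis (Fin n) ℚ V) (f : V [⋀^Fin m]→ₗ[ℚ] ℚ) (v : Fin m → V) :
    f v = ∑ s : Fin m → Fin n, (∏ k, b.repr (v k) (s k)) * f (fun k => b (s k)) := by
  have h1 : v = fun k => ∑ i, b.repr (v k) i • b i := by
    funext k
    exact (b.sum_repr (v k)).symm
  have h2 : f v = f.toMultilinearMap (fun k => ∑ i, b.repr (v k) i • b i) := by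
    conv_lhs => rw [h1]
    rfl
  rw [h2, MultilinearMap.map_sum]
  refine Finset.sum_congr rfl fun s _ => ?_
  rw [MultilinearMap.map_smul_univ]
  rfl

end B5aux

open B5aux

theorem t_B5 : St_B5 := by
  intro K hfin V _ _ _ n P hn hP m f
  subst hn
  have b := Module.finBasis ℚ V
  set A : Matrix (Fin (finrank ℚ V)) (Fin (finrank ℚ V)) K := of fun j i => P j (b i) with hA
  have hu : IsUnit A := isUnit_mat b P hP
  have hdet : IsUnit A.det := (Matrix.isUnit_iff_isUnit_det A).1 hu
  -- coordinates
  have hcoord : ∀ (v : V) (i : Fin (finrank ℚ V)),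
      algebraMap ℚ K (b.repr v i) = ∑ j, A⁻¹ i j * P j v := by
    intro v i
    have h1 : (fun j => P j v) = A *ᵥ (fun i => algebraMap ℚ K (b.repr v i)) := by
      funext j
      conv_lhs => rw [← b.sum_repr v]
      rw [map_sum]
      simp only [Matrix.mulVec, dotProduct, hA, of_apply]
      refine Finset.sum_congr rfl fun i _ => ?_
      rw [map_smul, Algebra.smul_def, mul_comm]
    have h2 : A⁻¹ *ᵥ (fun j => P j v) = fun i => algebraMap ℚ K (b.repr v i) := by
      rw [h1, Matrix.mulVec_mulVec, Matrix.nonsing_inv_mul _ hdet, Matrix.one_mulVec]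
    exact (congrFun h2 i).symm
  let c : (Fin m → Fin (finrank ℚ V)) → K := fun t =>
    ∑ s : Fin m → Fin (finrank ℚ V), algebraMap ℚ K (f (fun k => b (s k))) *
      ∏ k, A⁻¹ (s k) (t k)
  have hexp : ∀ v : Fin m → V, algebraMap ℚ K (f v) = ∑ t, c t * ∏ j, P (t j) (v j) := by
    intro v
    rw [expand b f v, map_sum]
    have h1 : ∀ s : Fin m → Fin (finrank ℚ V),
        algebraMap ℚ K ((∏ k, b.repr (v k) (s k)) * f (fun k => b (s k))) =
        ∑ t : Fin m → Fin (finrank ℚ V), (algebraMap ℚ K (f (fun k => b (s k))) *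
          ∏ k, A⁻¹ (s k) (t k)) * ∏ j, P (t j) (v j) := by
      intro s
      rw [map_mul, map_prod]
      have h2 : ∏ k, algebraMap ℚ K (b.repr (v k) (s k)) =
          ∑ t : Fin m → Fin (finrank ℚ V), ∏ k, (A⁻¹ (s k) (t k) * P (t k) (v k)) := by
        rw [Finset.prod_congr rfl fun k _ => hcoord (v k) (s k), Finset.prod_univ_sum,
          Fintype.piFinset_univ]
      rw [h2, mul_comm, Finset.mul_sum]
      refine Finset.sum_congr rfl fun t _ => ?_
      rw [Finset.prod_mul_distrib, mul_assoc]
    rw [Finset.sum_congr rfl fun s _ => h1 s, Finset.sum_comm]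
    refine Finset.sum_congr rfl fun t _ => ?_
    simp only [c, Finset.sum_mul]
  refine ⟨c, fun v => ?_, fun v => ?_⟩
  · have h1 : ((algebraMap ℚ K (f v) : K) : ℂ) =
        ((∑ t, c t * ∏ j, P (t j) (v j) : K) : ℂ) := by rw [hexp v]
    push_cast at h1
    rw [← h1]
    rfl
  · have hN : (finrank ℚ K : ℚ) ≠ 0 := by
      have : 0 < finrank ℚ K := Module.finrank_pos
      exact_mod_cast this.ne'
    have hm : (m.factorial : ℚ) ≠ 0 := by exact_mod_cast m.factorial_ne_zero
    -- the antisymmetrisation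
    have h1 : (m.factorial : K) * algebraMap ℚ K (f v) =
        ∑ t, c t * det (of fun i j => P (t j) (v i)) := by
      have h2 : ∀ σ : Equiv.Perm (Fin m), algebraMap ℚ K (f v) =
          ((Equiv.Perm.sign σ : ℤ) : K) * ∑ t, c t * ∏ j, P (t j) (v (σ j)) := by
        intro σ
        have h3 := f.map_perm v σ
        have h4 := hexp (v ∘ σ)
        rw [h3] at h4
        simp only [Function.comp_apply] at h4
        rw [← h4, Units.smul_def, zsmul_eq_mul, map_mul, map_intCast, ← mul_assoc]
        have h5 : ((Equiv.Perm.sign σ : ℤ) : K) * ((Equiv.Perm.sign σ : ℤ) : K) = 1 := by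
          rcases Int.units_eq_one_or (Equiv.Perm.sign σ) with h | h <;> rw [h] <;> norm_num
        rw [h5, one_mul]
      have h3 : ∑ _σ : Equiv.Perm (Fin m), algebraMap ℚ K (f v) =
          (m.factorial : K) * algebraMap ℚ K (f v) := by
        rw [Finset.sum_const, Finset.card_univ, Fintype.card_perm, Fintype.card_fin, nsmul_eq_mul]
      rw [← h3, Finset.sum_congr rfl fun σ _ => h2 σ]
      simp only [Finset.mul_sum]
      rw [Finset.sum_comm]
      refine Finset.sum_congr rfl fun t _ => ?_
      rw [Matrix.det_apply', Finset.mul_sum]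
      refine Finset.sum_congr rfl fun σ _ => ?_
      simp only [of_apply]
      ring
    have h4 : ∑ t, Algebra.trace ℚ K (((m.factorial * finrank ℚ K : ℕ) : K)⁻¹ * c t *
        det (of fun i j => P (t j) (v i))) = Algebra.trace ℚ K
          (algebraMap ℚ K ((finrank ℚ K : ℚ)⁻¹ * f v)) := by
      rw [← map_sum]
      congr 1
      simp only [mul_assoc]
      rw [← Finset.mul_sum, ← h1]
      rw [map_mul, map_inv₀, map_natCast]
      push_cast
      have hm' : (m.factorial : K) ≠ 0 := by exact_mod_cast m.factorial_ne_zero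
      rw [mul_inv, mul_comm ((m.factorial : K)⁻¹), mul_assoc, ← mul_assoc ((m.factorial : K)⁻¹),
        inv_mul_cancel₀ hm', one_mul]
    rw [h4, Algebra.trace_algebraMap, nsmul_eq_mul, ← mul_assoc, mul_inv_cancel₀ hN, one_mul]

end Pool.Agent.NH36.VH
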