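import Pool.Agent.NH36.VH.Stm

/-!
# Project VH, B6a: the field generated by the eigenvalues and `i`
-/

namespace Pool.Agent.NH36.VH

open Module Matrix Pool.Agent.Y90 Pool.Agent.NH32

namespace B6aL

theorem cj_apply (z : ℂ) : cj z = starRingEnd ℂ z := rfl

theorem cj_of_re {z : ℂ} (h : z.re = 0) : cj z = -z := by
  rw [cj_apply]
  apply Complex.ext
  · rw [Complex.conj_re, Complex.neg_re, h, neg_zero]
  · rw [Complex.conj_im, Complex.neg_im]

end B6aL

open B6aL

theorem t_B6a : St_B6a := by
  intro n l hre hgal halg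
  let Gen : Set ℂ := Set.range l ∪ {Complex.I}
  let L : IntermediateField ℚ ℂ := IntermediateField.adjoin ℚ Gen
  have hGen : ∀ x ∈ Gen, IsIntegral ℚ x := by
    rintro x (⟨j, rfl⟩ | hx)
    · exact (halg j).isIntegral
    · rw [Set.mem_singleton_iff] at hx
      rw [hx]
      exact ⟨Polynomial.X ^ 2 + 1, by monicity!, by simp⟩
  have hfin : FiniteDimensional ℚ L := by
    apply IntermediateField.finiteDimensional_adjoin
    exact hGen
  have hIm : ∀ x ∈ Gen, cj x = -x := by
    rintro x (⟨j, rfl⟩ | hx)
    · exact cj_of_re (hre j)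
    · rw [Set.mem_singleton_iff] at hx
      rw [hx]
      exact cj_of_re Complex.I_re
  have hst : ∀ (σ : ℂ ≃+* ℂ), ∀ x ∈ Gen, σ x ∈ Gen ∨ -σ x ∈ Gen := by
    rintro σ x (⟨j, rfl⟩ | hx)
    · obtain ⟨i, hi⟩ := hgal σ j
      left
      left
      exact ⟨i, hi.symm⟩
    · rw [Set.mem_singleton_iff] at hx
      have h1 : σ Complex.I * σ Complex.I = -1 := by
        rw [← map_mul, Complex.I_mul_I, map_neg, map_one]
      have h2 : (σ Complex.I - Complex.I) * (σ Complex.I + Complex.I) = 0 := by
        have : (σ Complex.I - Complex.I) * (σ Complex.I + Complex.I) =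
          σ Complex.I * σ Complex.I - Complex.I * Complex.I := by ring
        rw [this, h1, Complex.I_mul_I, sub_self]
      rw [hx]
      rcases mul_eq_zero.1 h2 with h3 | h3
      · left
        right
        rw [Set.mem_singleton_iff]
        exact sub_eq_zero.1 h3
      · right
        right
        rw [Set.mem_singleton_iff]
        exact neg_eq_of_add_eq_zero_right h3
  have hsub : ∀ x ∈ Gen, x ∈ L := fun x hx => IntermediateField.subset_adjoin ℚ Gen hx
  -- a subfield which contains the generators contains `L`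
  have hle : ∀ F : Subfield ℂ, Gen ⊆ F → ∀ x ∈ L, x ∈ F := by
    intro F hF x hx
    have h1 : L ≤ F.toIntermediateField (fun q => by
        rw [eq_ratCast]
        exact SubfieldClass.ratCast_mem F q) := IntermediateField.adjoin_le_iff.2 hF
    exact h1 hx
  refine ⟨L.toSubfield, ⟨hfin, ?_, ?_, ?_⟩, ?_⟩
  · intro σ z hz
    have h1 : Gen ⊆ (L.toSubfield.comap (σ : ℂ →+* ℂ) : Subfield ℂ) := by
      intro x hx
      show σ x ∈ L
      rcases hst σ x hx with h | h
      · exact hsub _ h
      · have := L.neg_mem (hsub _ h)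
        rwa [neg_neg] at this
    exact hle _ h1 z hz
  · intro σ z hz
    let F : Subfield ℂ := RingHom.eqLocusField ((σ : ℂ →+* ℂ).comp (cj : ℂ →+* ℂ))
      ((cj : ℂ →+* ℂ).comp (σ : ℂ →+* ℂ))
    have h1 : Gen ⊆ F := by
      intro x hx
      show σ (cj x) = cj (σ x)
      rw [hIm x hx, map_neg]
      rcases hst σ x hx with h | h
      · rw [hIm _ h]
      · have := hIm _ h
        rw [map_neg, neg_neg] at this
        exact (neg_eq_iff_eq_neg.1 this).symm
    exact hle F h1 z hz
  · exact hsub _ (Or.inr rfl)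
  · intro j
    exact hsub _ (Or.inl ⟨j, rfl⟩)

end Pool.Agent.NH36.VH
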