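import Mathlib
import Pool.Agent.NH36.VH.Stm

/-!
# B6b: eigenfunctionals with values in the field of the eigenvalues
-/

set_option autoImplicit false

namespace Pool.Agent.NH36.VH

open Module Matrix Pool.Agent.Y90 Pool.Agent.NH32
open Pool.Agent.H204R3.CM (IsHodge)

noncomputable section

namespace B6bAux

/-- a coordinate of a functional -/
def crd {V : Type} [AddCommGroup V] [Module ℚ V] {K : Subfield ℂ} (g : ℂ →ₗ[K] K)
    (Q : V →ₗ[ℚ] ℂ) : V →ₗ[ℚ] K :=
  AddMonoidHom.toRatLinearMap (g.toAddMonoidHom.comp Q.toAddMonoidHom)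

theorem crd_apply {V : Type} [AddCommGroup V] [Module ℚ V] {K : Subfield ℂ} (g : ℂ →ₗ[K] K)
    (Q : V →ₗ[ℚ] ℂ) (v : V) : crd g Q v = g (Q v) := rfl

end B6bAux

open B6bAux

theorem t_B6b : St_B6b := by
  intro V _ _ _ z K Q l hQ hz
  classical
  let F : Set (V →ₗ[ℚ] ℂ) := {f | ∃ (P : V →ₗ[ℚ] K) (i : Fin (finrank ℚ V)), toC P = f ∧
    ∀ v, P (z v) = l i * P v}
  have hfin : finrank ℂ (V →ₗ[ℚ] ℂ) = finrank ℚ V := Module.finrank_linearMap_self ℚ ℂ V
  have hQF : ∀ j, Q j ∈ Submodule.span ℂ F := by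
    intro j
    let b := Basis.ofVectorSpace K ℂ
    let e := Module.finBasis ℚ V
    let S := Finset.univ.biUnion fun k => (b.repr (Q j (e k))).support
    have h0 : ∀ i ∉ S, crd (b.coord i) (Q j) = 0 := by
      intro i hi
      refine e.ext fun k => ?_
      rw [crd_apply, LinearMap.zero_apply]
      by_contra h
      exact hi (Finset.mem_biUnion.2 ⟨k, Finset.mem_univ _, Finsupp.mem_support_iff.2 h⟩)
    have h1 : Q j = ∑ i ∈ S, b i • toC (crd (b.coord i) (Q j)) := by
      ext v
      rw [LinearMap.sum_apply]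
      have h2 : (b.repr (Q j v)).support ⊆ S := by
        intro i hi
        by_contra h
        have := congrArg (fun f => f v) (h0 i h)
        simp only [crd_apply, LinearMap.zero_apply] at this
        exact (Finsupp.mem_support_iff.1 hi) this
      have h3 := b.linearCombination_repr (Q j v)
      rw [Finsupp.linearCombination_apply, Finsupp.sum_of_support_subset _ h2
        (fun i a => a • b i) (fun i _ => zero_smul _ _)] at h3
      conv_lhs => rw [← h3]
      refine Finset.sum_congr rfl fun i _ => ?_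
      change ((b.repr (Q j v) i : K) : ℂ) * b i = b i * ((b.coord i (Q j v) : K) : ℂ)
      rw [mul_comm]
      rfl
    rw [h1]
    refine Submodule.sum_mem _ fun i _ => Submodule.smul_mem _ _ (Submodule.subset_span ?_)
    refine ⟨_, j, rfl, fun v => ?_⟩
    rw [crd_apply, crd_apply, hz]
    have : (l j : ℂ) * Q j v = (l j) • Q j v := rfl
    rw [this, map_smul]
    rfl
  have hspan : Submodule.span ℂ F = ⊤ := by
    rw [eq_top_iff, ← hQ.span_eq_top_of_card_eq_finrank' (by rw [hfin, Fintype.card_fin])]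
    refine Submodule.span_le.2 ?_
    rintro _ ⟨j, rfl⟩
    exact hQF j
  obtain ⟨B, hBF, hBs, hBi⟩ := exists_linearIndependent ℂ F
  let bb : Basis B ℂ (V →ₗ[ℚ] ℂ) := Basis.mk hBi (by
    rw [Subtype.range_coe, hBs, hspan])
  have : Fintype B := FiniteDimensional.fintypeBasisIndex bb
  have hcard : Fintype.card B = finrank ℚ V := by
    rw [← hfin, Module.finrank_eq_card_basis bb]
  let eq : Fin (finrank ℚ V) ≃ B := (Fintype.equivFinOfCardEq hcard).symm
  have hch : ∀ j, ∃ (P : V →ₗ[ℚ] K) (i : Fin (finrank ℚ V)), toC P = (eq j : V →ₗ[ℚ] ℂ) ∧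
      ∀ v, P (z v) = l i * P v := fun j => hBF (eq j).2
  choose P i hP hPz using hch
  refine ⟨P, fun j => l (i j), ?_, fun j => ⟨hPz j, i j, rfl⟩⟩
  have : (fun j => toC (P j)) = (fun b : B => (b : V →ₗ[ℚ] ℂ)) ∘ eq := funext hP
  rw [this]
  exact hBi.comp _ eq.injective

end

end Pool.Agent.NH36.VH
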