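import Pool.Agent.NH36.VH.Stm

/-!
# VH-B6c: complex eigenfunctionals
-/

set_option autoImplicit false

namespace Pool.Agent.NH36.VH

open Module Matrix Pool.Agent.Y90 Pool.Agent.NH32
open Pool.Agent.H204R3.CM (IsHodge)

namespace B6c45

theorem aeval_eig {V : Type} [AddCommGroup V] [Module ℚ V] (z : V →ₗ[ℚ] V) (Q : V →ₗ[ℚ] ℂ)
    (l : ℂ) (h : ∀ v, Q (z v) = l * Q v) (p : Polynomial ℚ) :
    ∀ v, Q (Polynomial.aeval z p v) = Polynomial.aeval l p * Q v := by
  induction p using Polynomial.induction_on with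
  | C a =>
    intro v
    rw [Polynomial.aeval_C, Polynomial.aeval_C, Module.algebraMap_end_apply, map_smul,
      Algebra.smul_def]
  | add p q hp hq =>
    intro v
    rw [map_add, map_add, LinearMap.add_apply, map_add, hp, hq, add_mul]
  | monomial n a ih =>
    intro v
    have h1 : (Polynomial.C a * Polynomial.X ^ (n + 1) : Polynomial ℚ) =
        (Polynomial.C a * Polynomial.X ^ n) * Polynomial.X := by
      rw [pow_succ, mul_assoc]
    have e1 : Polynomial.aeval z ((Polynomial.C a * Polynomial.X ^ n) * Polynomial.X) =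
        Polynomial.aeval z (Polynomial.C a * Polynomial.X ^ n) * z := by
      rw [map_mul (Polynomial.aeval z) (Polynomial.C a * Polynomial.X ^ n), Polynomial.aeval_X]
    have e2 : Polynomial.aeval l ((Polynomial.C a * Polynomial.X ^ n) * Polynomial.X) =
        Polynomial.aeval l (Polynomial.C a * Polynomial.X ^ n) * l := by
      rw [map_mul (Polynomial.aeval l) (Polynomial.C a * Polynomial.X ^ n), Polynomial.aeval_X]
    rw [h1, e1, e2, Module.End.mul_apply, ih, h]
    ring

end B6c45

open B6c45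

theorem t_B6c (r1 : St_R1) (r2 : St_R2) : St_B6c := by
  classical
  intro V _ _ _ z S hsym hpos hskew hinj
  let b : Basis (Fin (finrank ℚ V)) ℚ V := finBasis ℚ V
  let Z : Matrix (Fin (finrank ℚ V)) (Fin (finrank ℚ V)) ℚ := LinearMap.toMatrix b b z
  let Sm : Matrix (Fin (finrank ℚ V)) (Fin (finrank ℚ V)) ℚ := Matrix.of fun i j => S (b i) (b j)
  have hS1 : ∀ v w, S v w = ∑ k, b.repr v k * S (b k) w := by
    intro v w
    conv_lhs => rw [← b.sum_repr v]
    rw [map_sum, LinearMap.sum_apply]
    exact Finset.sum_congr rfl fun k _ => by rw [map_smul, LinearMap.smul_apply, smul_eq_mul]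
  have hS2 : ∀ v w, S v w = ∑ k, S v (b k) * b.repr w k := by
    intro v w
    conv_lhs => rw [← b.sum_repr w]
    rw [map_sum]
    exact Finset.sum_congr rfl fun k _ => by rw [map_smul, smul_eq_mul, mul_comm]
  have hSm : ∀ v w, S v w = (fun i => b.repr v i) ⬝ᵥ (Sm *ᵥ fun j => b.repr w j) := by
    intro v w
    rw [hS1 v w]
    refine Finset.sum_congr rfl fun k _ => ?_
    rw [hS2 (b k) w]
    rfl
  have hsymQ : Smᵀ = Sm := by
    ext i j
    exact hsym _ _
  have hposQ : ∀ x : Fin (finrank ℚ V) → ℚ, x ≠ 0 → 0 < x ⬝ᵥ (Sm *ᵥ x) := by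
    intro x hx
    have h1 : (fun i => b.repr (b.equivFun.symm x) i) = x := by
      funext i
      exact congrFun (b.equivFun.apply_symm_apply x) i
    have h2 := hpos (b.equivFun.symm x) (fun h => hx (by
      rw [← b.equivFun.apply_symm_apply x, h, map_zero]))
    rw [hSm, h1] at h2
    exact h2
  have hskQ : Zᵀ * Sm + Sm * Z = 0 := by
    ext i j
    rw [Matrix.add_apply, Matrix.mul_apply, Matrix.mul_apply, Matrix.zero_apply]
    have h1 : ∑ k, Zᵀ i k * Sm k j = S (z (b i)) (b j) := by
      rw [hS1 (z (b i)) (b j)]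
      refine Finset.sum_congr rfl fun k _ => ?_
      rw [Matrix.transpose_apply]
      show LinearMap.toMatrix b b z k i * _ = _
      rw [LinearMap.toMatrix_apply]
      rfl
    have h2 : ∑ k, Sm i k * Z k j = S (b i) (z (b j)) := by
      rw [hS2 (b i) (z (b j))]
      refine Finset.sum_congr rfl fun k _ => ?_
      show _ * LinearMap.toMatrix b b z k j = _
      rw [LinearMap.toMatrix_apply]
      rfl
    rw [h1, h2, hskew, neg_add_cancel]
  have hsymR : (rm Sm)ᵀ = rm Sm := by
    ext i j
    show ((Sm j i : ℚ) : ℝ) = ((Sm i j : ℚ) : ℝ)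
    have := congrFun (congrFun hsymQ i) j
    rw [Matrix.transpose_apply] at this
    rw [this]
  have hskR : (rm Z)ᵀ * rm Sm + rm Sm * rm Z = 0 := by
    ext i j
    have h1 := congrFun (congrFun hskQ i) j
    simp only [rm, Matrix.add_apply, Matrix.mul_apply, Matrix.transpose_apply, Matrix.map_apply,
      Matrix.zero_apply] at h1 ⊢
    exact_mod_cast h1
  obtain ⟨u, μ, hu, hZu⟩ := r2 _ (rm Sm) (rm Z) hsymR (r1 _ Sm hsymQ hposQ) hskR
  have hspan : ⊤ ≤ Submodule.span ℂ (Set.range u) :=
    (hu.span_eq_top_of_card_eq_finrank' (by simp)).ge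
  let B : Basis (Fin (finrank ℚ V)) ℂ (Fin (finrank ℚ V) → ℂ) := Basis.mk hu hspan
  have hBu : ∀ k, B k = u k := fun k => Basis.mk_apply _ _ k
  let ι : V →ₗ[ℚ] (Fin (finrank ℚ V) → ℂ) :=
    { toFun := fun v i => ((b.repr v i : ℚ) : ℂ)
      map_add' := by
        intro v w
        funext i
        simp
      map_smul' := by
        intro q v
        funext i
        simp [Rat.smul_def] }
  have hιa : ∀ v i, ι v i = ((b.repr v i : ℚ) : ℂ) := fun v i => rfl
  have hιb : ∀ i, ι (b i) = Pi.single i 1 := by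
    intro i
    funext j
    rw [hιa, b.repr_self, Finsupp.single_apply, Pi.single_apply]
    by_cases h : i = j
    · rw [if_pos h, if_pos h.symm, Rat.cast_one]
    · rw [if_neg h, if_neg (Ne.symm h), Rat.cast_zero]
  have hιz : ∀ v, ι (z v) = cmx (rm Z) *ᵥ ι v := by
    intro v
    funext i
    have h1 := congrFun (LinearMap.toMatrix_mulVec_repr b b z v) i
    rw [hιa, ← h1]
    show ((∑ j, Z i j * b.repr v j : ℚ) : ℂ) = ∑ j, (((Z i j : ℚ) : ℝ) : ℂ) * ι v j
    push_cast
    rfl
  have hext : ∀ F G : (Fin (finrank ℚ V) → ℂ) →ₗ[ℂ] ℂ, (∀ v, F (ι v) = G (ι v)) → F = G := by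
    intro F G hFG
    refine (Pi.basisFun ℂ (Fin (finrank ℚ V))).ext fun i => ?_
    rw [Pi.basisFun_apply, ← hιb]
    exact hFG _
  let l : Fin (finrank ℚ V) → ℂ := fun k => Complex.I * μ k
  let Q : Fin (finrank ℚ V) → (V →ₗ[ℚ] ℂ) := fun k => (B.coord k).restrictScalars ℚ ∘ₗ ι
  have hQa : ∀ k v, Q k v = B.coord k (ι v) := fun k v => rfl
  have hcoord : ∀ k x, B.coord k (cmx (rm Z) *ᵥ x) = l k * B.coord k x := by
    intro k x
    have h1 : B.coord k ∘ₗ (cmx (rm Z)).mulVecLin = l k • B.coord k := by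
      refine B.ext fun j => ?_
      rw [LinearMap.comp_apply, Matrix.mulVecLin_apply, LinearMap.smul_apply, smul_eq_mul]
      have h2 : cmx (rm Z) *ᵥ B j = l j • B j := by
        rw [hBu]
        exact hZu j
      rw [h2, map_smul, smul_eq_mul, Basis.coord_apply, B.repr_self, Finsupp.single_apply]
      by_cases hjk : j = k
      · rw [hjk]
      · rw [if_neg hjk, mul_zero, mul_zero]
    exact LinearMap.congr_fun h1 x
  have hQz : ∀ k v, Q k (z v) = l k * Q k v := fun k v => by rw [hQa, hQa, hιz, hcoord]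
  have hQli : LinearIndependent ℂ Q := by
    rw [Fintype.linearIndependent_iff]
    intro a ha k
    have h1 : ∑ k, a k • B.coord k = 0 := by
      apply hext
      intro v
      have h2 := LinearMap.congr_fun ha v
      rw [LinearMap.zero_apply] at h2 ⊢
      rw [← h2, LinearMap.sum_apply, LinearMap.sum_apply]
      rfl
    have h3 := LinearMap.congr_fun h1 (B k)
    rw [LinearMap.sum_apply, LinearMap.zero_apply, Finset.sum_eq_single k] at h3
    · rw [LinearMap.smul_apply, Basis.coord_apply, B.repr_self, Finsupp.single_eq_same,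
        smul_eq_mul, mul_one] at h3
      exact h3
    · intro j _ hj
      rw [LinearMap.smul_apply, Basis.coord_apply, B.repr_self, Finsupp.single_apply,
        if_neg (Ne.symm hj), smul_zero]
    · intro h
      exact absurd (Finset.mem_univ _) h
  have hstab : ∀ (R : V →ₗ[ℚ] ℂ) (c : ℂ), R ≠ 0 → (∀ v, R (z v) = c * R v) →
      ∃ i, c = l i := by
    intro R c hR hRz
    by_contra hno
    push Not at hno
    apply hR
    let Rc : (Fin (finrank ℚ V) → ℂ) →ₗ[ℂ] ℂ := ∑ i, R (b i) • LinearMap.proj i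
    have hRc : ∀ v, Rc (ι v) = R v := by
      intro v
      have h1 : Rc (ι v) = ∑ i, R (b i) * ι v i := by
        show (∑ i, R (b i) • LinearMap.proj i : (Fin (finrank ℚ V) → ℂ) →ₗ[ℂ] ℂ) (ι v) = _
        rw [LinearMap.sum_apply]
        rfl
      rw [h1]
      conv_rhs => rw [← b.sum_repr v]
      rw [map_sum]
      refine Finset.sum_congr rfl fun i _ => ?_
      rw [map_smul, Rat.smul_def, hιa, mul_comm]
    have h2 : Rc ∘ₗ (cmx (rm Z)).mulVecLin = c • Rc := by
      apply hext
      intro v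
      rw [LinearMap.comp_apply, Matrix.mulVecLin_apply, ← hιz, hRc, hRz, LinearMap.smul_apply, hRc,
        smul_eq_mul]
    have h3 : Rc = 0 := by
      refine B.ext fun i => ?_
      have h4 := LinearMap.congr_fun h2 (B i)
      rw [LinearMap.comp_apply, Matrix.mulVecLin_apply, LinearMap.smul_apply, hBu, hZu, map_smul,
        smul_eq_mul, smul_eq_mul] at h4
      have h5 : (l i - c) * Rc (u i) = 0 := by
        rw [sub_mul]
        exact sub_eq_zero.2 h4
      rw [hBu, LinearMap.zero_apply]
      exact (mul_eq_zero.1 h5).resolve_left (sub_ne_zero.2 (Ne.symm (hno i)))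
    refine LinearMap.ext fun v => ?_
    rw [← hRc, h3]
    rfl
  have hzs : Function.Surjective z := LinearMap.injective_iff_surjective.1
    (LinearMap.ker_eq_bot.1 (LinearMap.ker_eq_bot'.2 hinj))
  have halg : ∀ k, IsAlgebraic ℚ (l k) := by
    intro k
    refine ⟨minpoly ℚ z, minpoly.ne_zero (Algebra.IsIntegral.isIntegral z), ?_⟩
    obtain ⟨v, hv⟩ : ∃ v, Q k v ≠ 0 := by
      by_contra hc
      push Not at hc
      exact hQli.ne_zero k (LinearMap.ext hc)
    have h1 := aeval_eig z (Q k) (l k) (hQz k) (minpoly ℚ z) v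
    rw [minpoly.aeval, LinearMap.zero_apply, map_zero] at h1
    exact (mul_eq_zero.1 h1.symm).resolve_right hv
  refine ⟨Q, l, hQli, fun j => ⟨hQz j, ?_, ?_, halg j⟩, fun σ j => ?_⟩
  · show (Complex.I * (μ j : ℂ)).re = 0
    simp
  · intro h0
    apply hQli.ne_zero j
    refine LinearMap.ext fun v => ?_
    obtain ⟨w, rfl⟩ := hzs v
    rw [hQz, h0, zero_mul]
    rfl
  · let R : V →ₗ[ℚ] ℂ :=
      { toFun := fun v => σ (Q j v)
        map_add' := fun v w => by rw [map_add, map_add]
        map_smul' := fun q v => by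
          rw [map_smul, Rat.smul_def, map_mul, map_ratCast, RingHom.id_apply, Rat.smul_def] }
    refine hstab R (σ (l j)) ?_ fun v => ?_
    · intro hR
      apply hQli.ne_zero j
      refine LinearMap.ext fun v => ?_
      have h1 : σ (Q j v) = 0 := LinearMap.congr_fun hR v
      exact (map_eq_zero_iff σ σ.injective).1 h1
    · show σ (Q j (z v)) = σ (l j) * σ (Q j v)
      rw [hQz, map_mul]

end Pool.Agent.NH36.VH
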