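import Pool.Agent.NH36.VH.Stm

/-!
# Project VH, piece B7: the assembly of part 2
-/

namespace Pool.Agent.NH36.VH

open Module Matrix Pool.Agent.Y90 Pool.Agent.NH32
open Pool.Agent.H204R3.CM (IsHodge)

noncomputable section

namespace B7

theorem cj_neg {z : ℂ} (h : z.re = 0) : cj z = -z := by
  apply Complex.ext
  · show (starRingEnd ℂ z).re = (-z).re
    simp [h]
  · show (starRingEnd ℂ z).im = (-z).im
    simp

end B7

theorem t_B6 (a : St_B6a) (b : St_B6b) (c : St_B6c) : St_B6 := by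
  intro V _ _ _ z S hsym hpos hskew hinj
  obtain ⟨Q, l, hQ, hl, hσ⟩ := c V z S hsym hpos hskew hinj
  obtain ⟨K, hK, hlK⟩ := a _ l (fun j => (hl j).2.1) hσ (fun j => (hl j).2.2.2)
  obtain ⟨P, l', hP, hl'⟩ := b V z K Q (fun j => ⟨l j, hlK j⟩) hQ (fun j v => (hl j).1 v)
  refine ⟨K, hK, P, l', hP, fun j => ⟨(hl' j).1, ?_, ?_⟩⟩
  · obtain ⟨i, hi⟩ := (hl' j).2
    rw [hi]
    apply Subtype.ext
    exact B7.cj_neg (hl i).2.1
  · obtain ⟨i, hi⟩ := (hl' j).2
    rw [hi]
    intro h
    exact (hl i).2.2.1 (congrArg Subtype.val h)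

namespace B7

/-- The form `E (z v) w`. -/
theorem form {X : AV} {E : X.H → X.H → ℚ} (hE : IsPolarization X.per E) (z : X.H →ₗ[ℚ] X.H) :
    ∃ S : LinearMap.BilinForm ℚ X.H, ∀ v w, S v w = E (z v) w := by
  obtain ⟨Ψ, hlin, hconj, -, him⟩ := hE
  have alt : ∀ v w, E w v = -E v w := by
    intro v w
    have h1 := him w v
    have h2 := him v w
    rw [hconj (X.per v) (X.per w), Complex.conj_im, h2] at h1
    exact_mod_cast h1.symm
  have add1 : ∀ u v w, E (u + v) w = E u w + E v w := by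
    intro u v w
    have h := him (u + v) w
    rw [map_add, (hlin (X.per w)).map_add, Complex.add_im, him u w, him v w] at h
    exact_mod_cast h.symm
  have smul1 : ∀ (a : ℚ) v w, E (a • v) w = a * E v w := by
    intro a v w
    let φ : X.H →+ ℚ := AddMonoidHom.mk' (fun v => E v w) (fun u v => add1 u v w)
    exact map_rat_smul φ a v
  have add2 : ∀ u v w, E w (u + v) = E w u + E w v := by
    intro u v w
    rw [alt (u + v) w, add1, alt w u, alt w v]
    ring
  have smul2 : ∀ (a : ℚ) v w, E w (a • v) = a * E w v := by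
    intro a v w
    rw [alt (a • v) w, smul1, alt w v]
    ring
  refine ⟨LinearMap.mk₂ ℚ (fun v w => E (z v) w) ?_ ?_ ?_ ?_, fun v w => rfl⟩
  · intro u v w
    rw [map_add, add1]
  · intro a v w
    rw [map_smul, smul1]
    rfl
  · intro u v w
    rw [add2]
  · intro a v w
    rw [smul2]
    rfl

theorem skw {X : AV} {E : X.H → X.H → ℚ} (hE : IsPolarization X.per E) :
    ∀ v w, E w v = -E v w := by
  obtain ⟨Ψ, hlin, hconj, -, him⟩ := hE
  intro v w
  have h1 := him w v
  have h2 := him v w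
  rw [hconj (X.per v) (X.per w), Complex.conj_im, h2] at h1
  exact_mod_cast h1.symm

/-- The functional `σ ∘ P`. -/
def tw {K : Subfield ℂ} {H : Type} [AddCommGroup H] [Module ℚ H] (σ : ℂ ≃+* ℂ)
    (P : H →ₗ[ℚ] K) : H →ₗ[ℚ] ℂ where
  toFun v := σ (P v)
  map_add' v w := by rw [map_add, Subfield.coe_add, map_add]
  map_smul' a v := by
    rw [map_smul, RingHom.id_apply, Rat.smul_def, Rat.smul_def, Subfield.coe_mul, map_mul]
    congr 1
    rw [SubfieldClass.coe_ratCast, map_ratCast]

theorem tw_ind {K : Subfield ℂ} {H : Type} [AddCommGroup H] [Module ℚ H] (σ : ℂ ≃+* ℂ) {n : ℕ}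
    {P : Fin n → (H →ₗ[ℚ] K)} (hP : LinearIndependent ℂ fun j => toC (P j)) :
    LinearIndependent ℂ fun j => tw σ (P j) := by
  rw [Fintype.linearIndependent_iff] at hP ⊢
  intro g hg j
  have h : ∑ j, (σ.symm (g j)) • toC (P j) = 0 := by
    apply LinearMap.ext
    intro v
    have h1 := congrArg (fun L : H →ₗ[ℚ] ℂ => σ.symm (L v)) hg
    simp only [LinearMap.sum_apply, LinearMap.smul_apply, LinearMap.zero_apply, map_sum, map_zero,
      smul_eq_mul, map_mul] at h1 ⊢
    rw [← h1]
    apply Finset.sum_congr rfl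
    intro i _
    show _ * ((P i v : K) : ℂ) = _ * σ.symm (σ (P i v))
    rw [RingEquiv.symm_apply_apply]
  have h2 := hP _ h j
  exact (map_eq_zero_iff σ.symm σ.symm.injective).1 h2

/-- The trace of a multiple of a determinant, as an alternating form. -/
theorem dt {K : Subfield ℂ} {H : Type} [AddCommGroup H] [Module ℚ H] (c : K)
    (P : Fin 4 → (H →ₗ[ℚ] K)) : ∃ g : H [⋀^Fin 4]→ₗ[ℚ] ℚ, ∀ v,
      g v = Algebra.trace ℚ K (c * det (of fun i j => P j (v i))) := by
  let D : (Fin 4 → K) [⋀^Fin 4]→ₗ[ℚ] K :=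
    { (Matrix.detRowAlternating (R := K) (n := Fin 4)).toMultilinearMap.restrictScalars ℚ with
      map_eq_zero_of_eq' := fun v i j h hij =>
        (Matrix.detRowAlternating (R := K) (n := Fin 4)).map_eq_zero_of_eq v h hij }
  exact ⟨((Algebra.trace ℚ K) ∘ₗ LinearMap.mulLeft ℚ c).compAlternatingMap
    (D.compLinearMap (LinearMap.pi P)), fun v => rfl⟩

theorem sm (𝒜 : Sys) (X : AV) {ι : Type} [DecidableEq ι] (s : Finset ι)
    (g : ι → (X.H [⋀^Fin 4]→ₗ[ℚ] ℚ)) (h : ∀ i ∈ s, 𝒜.A X (Fin 4) (g i)) :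
    𝒜.A X (Fin 4) (∑ i ∈ s, g i) := by
  induction s using Finset.induction_on with
  | empty => rw [Finset.sum_empty]; exact 𝒜.zero X (Fin 4)
  | insert i s hi ih =>
    rw [Finset.sum_insert hi]
    exact 𝒜.add _ _ (h i (Finset.mem_insert_self i s))
      (ih fun j hj => h j (Finset.mem_insert_of_mem hj))

theorem sap {H : Type} [AddCommGroup H] [Module ℚ H] {ι : Type} (s : Finset ι)
    (g : ι → (H [⋀^Fin 4]→ₗ[ℚ] ℚ)) (v : Fin 4 → H) : (∑ i ∈ s, g i) v = ∑ i ∈ s, g i v := by
  classical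
  induction s using Finset.induction_on with
  | empty => rfl
  | insert i s hi ih =>
    rw [Finset.sum_insert hi, Finset.sum_insert hi, AlternatingMap.add_apply, ih]

end B7

theorem t_cm4 (h0 : St_B0) (h1 : St_B1) (h4 : St_B4) (h5 : St_B5) (h6 : St_B6) : St_cm4 := by
  intro X E z hX 𝒜 hA f hf
  obtain ⟨S, hS⟩ := B7.form hX.pol z
  have alt := B7.skw hX.pol
  obtain ⟨K, hK, P, l, hP, hl⟩ := h6 X.H z S
    (fun v w => by rw [hS, hS, hX.sk, alt (z w) v, neg_neg])
    (fun v hv => by rw [hS]; exact hX.pos v hv)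
    (fun v w => by rw [hS, hS, hX.sk (z v) w])
    (fun v hv => by
      by_contra hne
      have h := hX.pos v hne
      rw [hv] at h
      have h' : E 0 v = 0 := by
        have := hS 0 v
        rw [map_zero, map_zero, LinearMap.zero_apply] at this
        exact this.symm
      rw [h'] at h
      exact lt_irrefl _ h)
  obtain ⟨c, hc1, hc2⟩ := h5 K hK.fin X.H _ P rfl hP 4 f
  have key : ∀ t : Fin 4 → Fin (finrank ℚ X.H), ∃ g : X.H [⋀^Fin 4]→ₗ[ℚ] ℚ,
      (∀ v, g v = Algebra.trace ℚ K (((Nat.factorial 4 * finrank ℚ K : ℕ) : K)⁻¹ * c t *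
        det (of fun i j => P (t j) (v i)))) ∧ 𝒜.A X (Fin 4) g := by
    intro t
    obtain ⟨g, hg⟩ := B7.dt (((Nat.factorial 4 * finrank ℚ K : ℕ) : K)⁻¹ * c t) fun j => P (t j)
    refine ⟨g, hg, ?_⟩
    by_cases hct : c t = 0
    · have : g = 0 := by
        apply AlternatingMap.ext
        intro v
        rw [hg v, hct, mul_zero, zero_mul, map_zero]
        rfl
      rw [this]
      exact 𝒜.zero X (Fin 4)
    refine h4 X E z hX K hK (fun j => P (t j)) (fun j => l (t j)) (fun j => ⟨?_, (hl (t j)).1⟩)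
      (fun j => (hl (t j)).2) ?_ 𝒜 hA _ g hg
    · intro h
      apply hP.ne_zero (t j)
      apply LinearMap.ext
      intro v
      show ((P (t j) v : K) : ℂ) = 0
      rw [h]
      rfl
    · intro σ
      have hind := B7.tw_ind σ hP
      refine h1 X 4 f hf _ (fun j => B7.tw σ (P j)) (fun j => sg (σ (l j))) hind ?_
        (fun t => σ (c t)) ?_ t ?_
      · intro j
        have h := h0 X E z hX (B7.tw σ (P j)) (σ (l j)) (hind.ne_zero j) (fun v => by
          show σ (P j (z v)) = σ (l j) * σ (P j v)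
          rw [(hl j).1 v, Subfield.coe_mul, map_mul])
        rcases h.2 with ⟨h2, h3⟩ | ⟨h2, h3⟩
        · left
          exact ⟨if_pos h2, h3⟩
        · right
          exact ⟨if_neg (not_lt.2 h2.le), h3⟩
      · intro v
        have h := congrArg σ (hc1 v)
        rw [map_ratCast, map_sum] at h
        rw [h]
        apply Finset.sum_congr rfl
        intro t' _
        rw [map_mul, map_prod]
        rfl
      · intro h
        apply hct
        apply Subtype.ext
        exact (map_eq_zero_iff σ σ.injective).1 h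
  choose g hg1 hg2 using key
  have hf' : f = ∑ t, g t := by
    apply AlternatingMap.ext
    intro v
    rw [hc2 v, B7.sap]
    exact Finset.sum_congr rfl fun t _ => (hg1 t v).symm
  rw [hf']
  exact B7.sm 𝒜 X _ g fun t _ => hg2 t

end

end Pool.Agent.NH36.VH
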