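import Mathlib
import Pool.Agent.NH36.VH.Stm

/-!
# Project VH, piece C1: rational solutions near a real solution
-/

namespace Pool.Agent.NH36.VH

open Module Matrix Pool.Agent.Y90 Pool.Agent.NH32
open Pool.Agent.H204R3.CM (IsHodge)

namespace C1

/-- A rational matrix has a generalized inverse. -/
theorem exists_ginv {I I' : Type} [Fintype I] [DecidableEq I] [Fintype I'] [DecidableEq I']
    (A : Matrix I' I ℚ) : ∃ G : Matrix I I' ℚ, A * G * A = A := by
  set f : (I → ℚ) →ₗ[ℚ] (I' → ℚ) := Matrix.toLin' A with hf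
  obtain ⟨h, hh⟩ := f.rangeRestrict.exists_rightInverse_of_surjective f.range_rangeRestrict
  obtain ⟨g, hg⟩ := LinearMap.exists_extend h
  refine ⟨LinearMap.toMatrix' g, ?_⟩
  apply Matrix.toLin'.injective
  rw [Matrix.toLin'_mul, Matrix.toLin'_mul, Matrix.toLin'_toMatrix', ← hf]
  ext1 x
  apply LinearMap.ext
  intro y
  have h1 : g (f ((LinearMap.single ℚ (fun _ : I => ℚ) x) y)) =
      h ⟨f ((LinearMap.single ℚ (fun _ : I => ℚ) x) y), LinearMap.mem_range_self _ _⟩ := by
    rw [← hg]
    rfl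
  have h2 := LinearMap.congr_fun hh
    ⟨f ((LinearMap.single ℚ (fun _ : I => ℚ) x) y), LinearMap.mem_range_self _ _⟩
  have h3 := congrArg Subtype.val h2
  simp only [LinearMap.coe_comp, Function.comp_apply, LinearMap.id_coe, id_eq] at h3 ⊢
  rw [h1]
  exact h3

/-- Rational solutions of a rational linear system near a real solution. -/
theorem approx {I I' : Type} [Fintype I] [DecidableEq I] [Fintype I'] [DecidableEq I']
    (l : I' → (I → ℝ) →ₗ[ℝ] ℝ)
    (hl : ∀ i (v : I → ℚ), ∃ q : ℚ, l i (fun a => (v a : ℝ)) = (q : ℝ))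
    (x : I → ℝ) (hx : ∀ i, l i x = 0) (ε : ℝ) (hε : 0 < ε) :
    ∃ y : I → ℚ, (∀ i, l i (fun a => (y a : ℝ)) = 0) ∧ ∀ a, |(y a : ℝ) - x a| < ε := by
  classical
  choose q hq using hl
  -- the matrix of the system
  set A : Matrix I' I ℚ := fun i a => q i (Pi.single a 1) with hA
  have hlA : ∀ i (u : I → ℝ), l i u = ∑ a, (A i a : ℝ) * u a := by
    intro i u
    conv_lhs => rw [← Finset.univ_sum_single u]
    rw [map_sum]
    refine Finset.sum_congr rfl fun a _ => ?_
    have h1 : (Pi.single a (u a) : I → ℝ) = u a • fun b => ((Pi.single a 1 : I → ℚ) b : ℝ) := by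
      funext b
      by_cases hb : b = a
      · subst hb; simp
      · simp [hb]
    rw [h1, map_smul, hq, smul_eq_mul, mul_comm]
  obtain ⟨G, hG⟩ := exists_ginv A
  set P : Matrix I I ℚ := 1 - G * A with hP
  have hAP : A * P = 0 := by
    rw [hP, Matrix.mul_sub, Matrix.mul_one, ← Matrix.mul_assoc, hG, sub_self]
  -- over the real numbers, `P x = x`
  have hPx : (P.map fun q => (q : ℝ)) *ᵥ x = x := by
    have h1 : (P.map fun q => (q : ℝ)) = 1 - (G.map fun q => (q : ℝ)) * (A.map fun q => (q : ℝ)) := by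
      ext i j
      simp only [hP, Matrix.map_apply, Matrix.sub_apply, Matrix.mul_apply, Matrix.one_apply]
      push_cast
      split_ifs <;> simp
    have h2 : (A.map fun q => (q : ℝ)) *ᵥ x = 0 := by
      funext i
      have := hlA i x
      rw [hx] at this
      simpa [Matrix.mulVec, dotProduct] using this.symm
    rw [h1, Matrix.sub_mulVec, Matrix.one_mulVec, ← Matrix.mulVec_mulVec, h2, Matrix.mulVec_zero,
      sub_zero]
  -- the size of `P`
  set C : ℝ := ∑ a, ∑ b, |(P a b : ℝ)| with hC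
  have hC0 : 0 ≤ C := Finset.sum_nonneg fun a _ => Finset.sum_nonneg fun b _ => abs_nonneg _
  have hδ : 0 < ε / (C + 1) := div_pos hε (by linarith)
  have hex : ∀ a, ∃ r : ℚ, |(r : ℝ) - x a| < ε / (C + 1) := by
    intro a
    obtain ⟨r, h1, h2⟩ := exists_rat_btwn (show x a < x a + ε / (C + 1) by linarith)
    exact ⟨r, by rw [abs_lt]; constructor <;> linarith⟩
  choose r hr using hex
  refine ⟨P *ᵥ r, ?_, ?_⟩
  · intro i
    rw [hlA]
    have h1 : A *ᵥ (P *ᵥ r) = 0 := by
      rw [Matrix.mulVec_mulVec, hAP, Matrix.zero_mulVec]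
    have h2 := congrFun h1 i
    have h3 : ((∑ a, A i a * (P *ᵥ r) a : ℚ) : ℝ) = 0 := by
      have : (∑ a, A i a * (P *ᵥ r) a : ℚ) = 0 := h2
      rw [this]
      norm_num
    push_cast at h3
    exact h3
  · intro a
    have h1 : x a = ∑ b, (P a b : ℝ) * x b := by
      conv_lhs => rw [← hPx]
      rfl
    have h2 : (((P *ᵥ r) a : ℚ) : ℝ) = ∑ b, (P a b : ℝ) * (r b : ℝ) := by
      simp only [Matrix.mulVec, dotProduct]
      push_cast
      rfl
    rw [h2, h1, ← Finset.sum_sub_distrib]
    calc |∑ b, ((P a b : ℝ) * (r b : ℝ) - (P a b : ℝ) * x b)|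
        ≤ ∑ b, |(P a b : ℝ) * (r b : ℝ) - (P a b : ℝ) * x b| := Finset.abs_sum_le_sum_abs _ _
      _ ≤ ∑ b, |(P a b : ℝ)| * (ε / (C + 1)) := by
          refine Finset.sum_le_sum fun b _ => ?_
          rw [← mul_sub, abs_mul]
          exact mul_le_mul_of_nonneg_left (hr b).le (abs_nonneg _)
      _ = (∑ b, |(P a b : ℝ)|) * (ε / (C + 1)) := by rw [Finset.sum_mul]
      _ ≤ C * (ε / (C + 1)) := by
          refine mul_le_mul_of_nonneg_right ?_ hδ.le
          exact Finset.single_le_sum (f := fun a => ∑ b, |(P a b : ℝ)|)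
            (fun a _ => Finset.sum_nonneg fun b _ => abs_nonneg _) (Finset.mem_univ a)
      _ < (C + 1) * (ε / (C + 1)) := by
          exact mul_lt_mul_of_pos_right (by linarith) hδ
      _ = ε := by field_simp

/-- A vector as a matrix. -/
def toM {N : ℕ} : (Fin N × Fin N → ℝ) →ₗ[ℝ] Matrix (Fin N) (Fin N) ℝ where
  toFun x := fun i j => x (i, j)
  map_add' _ _ := rfl
  map_smul' _ _ := rfl

/-- The equations expressing that `z` is skew for `M`. -/
def eq1 {N : ℕ} (M : Matrix (Fin N) (Fin N) ℚ) (p : Fin N × Fin N) :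
    (Fin N × Fin N → ℝ) →ₗ[ℝ] ℝ where
  toFun x := ((toM x)ᵀ * rm M + rm M * toM x) p.1 p.2
  map_add' x y := by
    rw [map_add, Matrix.transpose_add, Matrix.add_mul, Matrix.mul_add]
    simp only [Matrix.add_apply]
    ring
  map_smul' c x := by
    rw [map_smul, Matrix.transpose_smul, Matrix.smul_mul, Matrix.mul_smul]
    simp only [Matrix.add_apply, Matrix.smul_apply, smul_eq_mul, RingHom.id_apply]
    ring

/-- The equations expressing that `z` kills `ψ`. -/
def eq2 {N m : ℕ} (ψ : MultilinearMap ℝ (fun _ : Fin m => Fin N → ℝ) ℝ) (s : Fin m → Fin N) :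
    (Fin N × Fin N → ℝ) →ₗ[ℝ] ℝ where
  toFun x := ∑ k, ψ (Function.update (fun k => Pi.single (s k) 1) k (toM x *ᵥ Pi.single (s k) 1))
  map_add' x y := by
    rw [map_add, ← Finset.sum_add_distrib]
    refine Finset.sum_congr rfl fun k _ => ?_
    rw [Matrix.add_mulVec, MultilinearMap.map_update_add]
  map_smul' c x := by
    rw [map_smul, RingHom.id_apply, Finset.smul_sum]
    refine Finset.sum_congr rfl fun k _ => ?_
    rw [Matrix.smul_mulVec, MultilinearMap.map_update_smul]

/-- The action of `z` on `ψ` as a derivation. -/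
def act {N m : ℕ} (z : Matrix (Fin N) (Fin N) ℝ)
    (ψ : MultilinearMap ℝ (fun _ : Fin m => Fin N → ℝ) ℝ) :
    MultilinearMap ℝ (fun _ : Fin m => Fin N → ℝ) ℝ :=
  ∑ k, ψ.compLinearMap (fun k' => if k' = k then Matrix.toLin' z else LinearMap.id)

theorem act_apply {N m : ℕ} (z : Matrix (Fin N) (Fin N) ℝ)
    (ψ : MultilinearMap ℝ (fun _ : Fin m => Fin N → ℝ) ℝ) (u : Fin m → Fin N → ℝ) :
    act z ψ u = ∑ k, ψ (Function.update u k (z *ᵥ u k)) := by
  unfold act
  rw [_root_.sum_apply]
  refine Finset.sum_congr rfl fun k _ => ?_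
  rw [MultilinearMap.compLinearMap_apply]
  congr 1
  funext k'
  by_cases h : k' = k
  · subst h
    simp
  · simp [h]

theorem kills_of_unit {N m : ℕ} (z : Matrix (Fin N) (Fin N) ℝ)
    (ψ : MultilinearMap ℝ (fun _ : Fin m => Fin N → ℝ) ℝ)
    (h : ∀ s : Fin m → Fin N,
      ∑ k, ψ (Function.update (fun k => Pi.single (s k) 1) k (z *ᵥ Pi.single (s k) 1)) = 0) :
    Kills z ψ := by
  have h0 : act z ψ = 0 := by
    refine Basis.ext_multilinear (fun _ => Pi.basisFun ℝ (Fin N)) ?_
    intro s
    rw [act_apply, _root_.zero_apply]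
    simpa only [Pi.basisFun_apply] using h s
  intro u
  rw [← act_apply, h0, _root_.zero_apply]

end C1

open C1 in
/-- **C1.** Rational solutions near a real solution. -/
theorem t_C1 : St_C1 := by
  intro N m J M hJM ψ hψ hK ε hε
  set l : (Fin N × Fin N) ⊕ (Fin m → Fin N) → (Fin N × Fin N → ℝ) →ₗ[ℝ] ℝ :=
    Sum.elim (eq1 M) (eq2 ψ) with hl
  have hcast : ∀ v : Fin N × Fin N → ℚ,
      toM (fun a => (v a : ℝ)) = rm (fun i j => v (i, j) : Matrix (Fin N) (Fin N) ℚ) := by
    intro v
    rfl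
  have hrat : ∀ i (v : Fin N × Fin N → ℚ), ∃ q : ℚ, l i (fun a => (v a : ℝ)) = (q : ℝ) := by
    rintro (p | s) v
    · set V : Matrix (Fin N) (Fin N) ℚ := fun i j => v (i, j) with hV
      refine ⟨(Vᵀ * M + M * V) p.1 p.2, ?_⟩
      change ((toM fun a => (v a : ℝ))ᵀ * rm M + rm M * toM fun a => (v a : ℝ)) p.1 p.2 = _
      rw [hcast]
      simp only [rm, Matrix.add_apply, Matrix.mul_apply, Matrix.transpose_apply, Matrix.map_apply]
      push_cast
      rfl
    · set V : Matrix (Fin N) (Fin N) ℚ := fun i j => v (i, j) with hV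
      have h1 : ∀ k, ∃ q : ℚ, ψ (Function.update (fun k => Pi.single (s k) 1) k
          (toM (fun a => (v a : ℝ)) *ᵥ Pi.single (s k) 1)) = (q : ℝ) := by
        intro k
        obtain ⟨q, hq⟩ := hψ (Function.update (fun k => Pi.single (s k) 1) k
          (V *ᵥ Pi.single (s k) 1))
        refine ⟨q, ?_⟩
        rw [← hq]
        congr 1
        funext k'
        by_cases h : k' = k
        · subst h
          rw [Function.update_self, Function.update_self]
          funext j
          rw [hcast]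
          simp only [rv, rm, Matrix.mulVec_single, Matrix.col_apply, Matrix.map_apply,
            Pi.smul_apply, MulOpposite.op_one, one_smul]
          rfl
        · rw [Function.update_of_ne h, Function.update_of_ne h]
          funext j
          by_cases hj : j = s k'
          · subst hj
            simp [rv]
          · simp [rv, hj]
      choose q hq using h1
      refine ⟨∑ k, q k, ?_⟩
      change ∑ k, ψ (Function.update (fun k => Pi.single (s k) 1) k
          (toM (fun a => (v a : ℝ)) *ᵥ Pi.single (s k) 1)) = _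
      rw [Finset.sum_congr rfl fun k _ => hq k]
      push_cast
      rfl
  have hx : ∀ i, l i (fun a => J a.1 a.2) = 0 := by
    rintro (p | s)
    · change (Jᵀ * rm M + rm M * J) p.1 p.2 = 0
      rw [hJM]
      rfl
    · exact hK fun k => Pi.single (s k) 1
  obtain ⟨y, hy, hyx⟩ := approx l hrat (fun a => J a.1 a.2) hx ε hε
  refine ⟨fun i j => y (i, j), ?_, ?_, ?_⟩
  · ext i j
    exact hy (Sum.inl (i, j))
  · apply kills_of_unit
    intro s
    exact hy (Sum.inr s)
  · intro i j
    exact hyx (i, j)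

end Pool.Agent.NH36.VH
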