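import Mathlib
import Pool.Agent.NH36.VH.Stm

/-!
# VH-C2: matrices close to the complex structure
-/

set_option autoImplicit false

namespace Pool.Agent.NH36.VH

open Module Matrix Pool.Agent.Y90 Pool.Agent.NH32
open Pool.Agent.H204R3.CM (IsHodge)
open Filter Topology

namespace C2

lemma pos_near {N : ℕ} (J : Matrix (Fin N) (Fin N) ℝ) (A : Matrix (Fin N) (Fin N) ℝ)
    (hpos : ∀ x, x ≠ 0 → 0 < (J *ᵥ x) ⬝ᵥ (A *ᵥ x)) :
    ∀ᶠ z : Matrix (Fin N) (Fin N) ℝ in 𝓝 J, ∀ x, x ≠ 0 → 0 < (z *ᵥ x) ⬝ᵥ (A *ᵥ x) := by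
  have hc : Continuous (fun p : Matrix (Fin N) (Fin N) ℝ × (Fin N → ℝ) =>
      (p.1 *ᵥ p.2) ⬝ᵥ (A *ᵥ p.2)) :=
    (continuous_fst.matrix_mulVec continuous_snd).dotProduct
      (continuous_const.matrix_mulVec continuous_snd)
  have h1 : ∀ᶠ z : Matrix (Fin N) (Fin N) ℝ in 𝓝 J,
      ∀ x ∈ Metric.sphere (0 : Fin N → ℝ) 1, 0 < (z *ᵥ x) ⬝ᵥ (A *ᵥ x) := by
    apply IsCompact.eventually_forall_of_forall_eventually (isCompact_sphere (0 : Fin N → ℝ) 1)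
    intro x hx
    have hx0 : x ≠ 0 := by
      rintro rfl
      simp at hx
    exact hc.continuousAt.eventually (lt_mem_nhds (hpos x hx0))
  filter_upwards [h1] with z hz x hx
  have hn : 0 < ‖x‖ := norm_pos_iff.2 hx
  have h2 := hz (‖x‖⁻¹ • x) (by
    rw [mem_sphere_zero_iff_norm, norm_smul, norm_inv, norm_norm, inv_mul_cancel₀ hn.ne'])
  rw [mulVec_smul, mulVec_smul, smul_dotProduct, dotProduct_smul, smul_eq_mul, smul_eq_mul] at h2
  have h3 : 0 < ‖x‖⁻¹ := inv_pos.2 hn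
  by_contra h4
  have h5 : ‖x‖⁻¹ * (‖x‖⁻¹ * ((z *ᵥ x) ⬝ᵥ (A *ᵥ x))) ≤ 0 :=
    mul_nonpos_of_nonneg_of_nonpos h3.le (mul_nonpos_of_nonneg_of_nonpos h3.le (not_lt.1 h4))
  linarith

lemma sq_near {N : ℕ} (J : Matrix (Fin N) (Fin N) ℝ) (hJ : J * J = -1) {δ : ℝ} (hδ : 0 < δ) :
    ∀ᶠ z : Matrix (Fin N) (Fin N) ℝ in 𝓝 J, ∀ i j, |(z * z + 1) i j| < δ := by
  rw [eventually_all]
  intro i
  rw [eventually_all]
  intro j
  have hc : Continuous (fun z : Matrix (Fin N) (Fin N) ℝ => |(z * z + 1) i j|) :=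
    ((((continuous_id.matrix_mul continuous_id).add continuous_const).matrix_elem i j)).abs
  have h0 : |(J * J + 1) i j| < δ := by
    rw [hJ, neg_add_cancel]
    simpa using hδ
  exact hc.continuousAt.eventually (gt_mem_nhds h0)

lemma eig {N : ℕ} (z : Matrix (Fin N) (Fin N) ℝ) {δ : ℝ}
    (h : ∀ i j, |(z * z + 1) i j| < δ) (u : Fin N → ℂ) (l : ℂ) (hu : u ≠ 0)
    (hl : cmx z *ᵥ u = l • u) : ‖l ^ 2 + 1‖ ≤ N * δ := by
  obtain ⟨i0, hi0⟩ := Function.ne_iff.1 hu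
  have hne : (Finset.univ : Finset (Fin N)).Nonempty := ⟨i0, Finset.mem_univ _⟩
  obtain ⟨i, -, hi⟩ := Finset.exists_max_image Finset.univ (fun i => ‖u i‖) hne
  have hpos : 0 < ‖u i‖ := lt_of_lt_of_le (norm_pos_iff.2 hi0) (hi i0 (Finset.mem_univ _))
  have e1 : cmx (z * z + 1) = cmx z * cmx z + 1 := by
    have h1 : ∀ A : Matrix (Fin N) (Fin N) ℝ, cmx A = A.map (Complex.ofRealHom) := fun A => rfl
    rw [h1, h1, ← Matrix.map_mul, Matrix.map_add _ (by intros; simp), Matrix.map_one _ (by simp) (by simp)]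
  have e2 : cmx (z * z + 1) *ᵥ u = (l ^ 2 + 1) • u := by
    rw [e1, add_mulVec, ← mulVec_mulVec, hl, mulVec_smul, hl, one_mulVec, smul_smul, add_smul,
      one_smul, pow_two]
  have e3 := congrFun e2 i
  rw [Matrix.mulVec, dotProduct, Pi.smul_apply, smul_eq_mul] at e3
  have h2 : ‖l ^ 2 + 1‖ * ‖u i‖ ≤ N * δ * ‖u i‖ := by
    rw [← norm_mul, ← e3]
    refine (norm_sum_le _ _).trans ?_
    have h3 : ∀ j ∈ (Finset.univ : Finset (Fin N)), ‖cmx (z * z + 1) i j * u j‖ ≤ δ * ‖u i‖ := by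
      intro j _
      rw [norm_mul]
      have h4 : ‖cmx (z * z + 1) i j‖ = |(z * z + 1) i j| := by
        show ‖(((z * z + 1) i j : ℝ) : ℂ)‖ = _
        rw [Complex.norm_real, Real.norm_eq_abs]
      rw [h4]
      have h5 := hi j (Finset.mem_univ _)
      have h6 := (h i j).le
      exact mul_le_mul h6 h5 (norm_nonneg _) (le_trans (abs_nonneg _) h6)
    refine (Finset.sum_le_sum h3).trans ?_
    rw [Finset.sum_const, Finset.card_univ, Fintype.card_fin, nsmul_eq_mul, mul_assoc]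
  exact le_of_mul_le_mul_right h2 hpos

end C2

open C2 in
theorem t_C2 : St_C2 := by
  intro N m J M hP
  set δ : ℝ := 1 / ((N + 1) * (m + 1)) with hδ
  have hδ0 : 0 < δ := by positivity
  have h1 := (pos_near J (rm M) hP.pos).and (sq_near J hP.sq hδ0)
  have h2 : ∃ ε : ℝ, 0 < ε ∧ ∀ z : Matrix (Fin N) (Fin N) ℝ, (∀ i j, |z i j - J i j| < ε) →
      (∀ x, x ≠ 0 → 0 < (z *ᵥ x) ⬝ᵥ (rm M *ᵥ x)) ∧ ∀ i j, |(z * z + 1) i j| < δ := by
    have h3 : ∀ᶠ z : Fin N → Fin N → ℝ in 𝓝 (J : Fin N → Fin N → ℝ),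
        (∀ x, x ≠ 0 → 0 < ((Matrix.of z) *ᵥ x) ⬝ᵥ (rm M *ᵥ x)) ∧
          ∀ i j, |(Matrix.of z * Matrix.of z + 1) i j| < δ := h1
    obtain ⟨ε, hε, h4⟩ := Metric.eventually_nhds_iff.1 h3
    have key : ∀ z J' : Fin N → Fin N → ℝ, (∀ i j, |z i j - J' i j| < ε) → dist z J' < ε := by
      intro z J' hz
      rw [dist_pi_lt_iff hε]
      intro i
      rw [dist_pi_lt_iff hε]
      intro j
      rw [Real.dist_eq]
      exact hz i j
    exact ⟨ε, hε, fun z hz => h4 (key z J hz)⟩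
  obtain ⟨ε, hε, h3⟩ := h2
  refine ⟨ε, hε, fun z hz => ⟨(h3 z hz).1, fun u l hu hl => ?_⟩⟩
  refine lt_of_le_of_lt (eig z (h3 z hz).2 u l hu hl) ?_
  rw [hδ]
  have hN : (0 : ℝ) ≤ N := Nat.cast_nonneg _
  have hm : (0 : ℝ) ≤ m := Nat.cast_nonneg _
  rw [mul_one_div, div_lt_div_iff₀ (by positivity) (by positivity)]
  nlinarith

end Pool.Agent.NH36.VH

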