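import Mathlib
import Pool.Agent.NH36.VH.Stm

/-!
# The polar part of a skew matrix
-/

set_option autoImplicit false

namespace Pool.Agent.NH36.VH

open Module Matrix

noncomputable section

namespace C3

variable {N : ℕ}

theorem cmx_mul (A B : Matrix (Fin N) (Fin N) ℝ) : cmx (A * B) = cmx A * cmx B := by
  unfold cmx
  exact Matrix.map_mul (f := Complex.ofRealHom)

theorem cmx_add (A B : Matrix (Fin N) (Fin N) ℝ) : cmx (A + B) = cmx A + cmx B := by
  ext i j
  simp [cmx]

theorem cmx_neg (A : Matrix (Fin N) (Fin N) ℝ) : cmx (-A) = -cmx A := by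
  ext i j
  simp [cmx]

theorem cmx_one : cmx (1 : Matrix (Fin N) (Fin N) ℝ) = 1 := by
  ext i j
  by_cases h : i = j
  · subst h
    simp [cmx]
  · simp [cmx, Matrix.one_apply_ne h]

theorem cmx_inj {A B : Matrix (Fin N) (Fin N) ℝ} (h : cmx A = cmx B) : A = B := by
  ext i j
  have := congrFun (congrFun h i) j
  simpa [cmx] using this

/-- two matrices which agree on a basis are equal -/
theorem ext_basis {A B : Matrix (Fin N) (Fin N) ℂ} {u : Fin N → Fin N → ℂ}
    (hu : LinearIndependent ℂ u) (h : ∀ k, A *ᵥ u k = B *ᵥ u k) : A = B := by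
  rcases Nat.eq_zero_or_pos N with rfl | hN
  · ext i
    exact i.elim0
  · have : Nonempty (Fin N) := ⟨⟨0, hN⟩⟩
    have hc : Fintype.card (Fin N) = finrank ℂ (Fin N → ℂ) := by simp
    have e : Matrix.toLin' A = Matrix.toLin' B := by
      refine (basisOfLinearIndependentOfCardEqFinrank hu hc).ext fun k => ?_
      rw [coe_basisOfLinearIndependentOfCardEqFinrank, Matrix.toLin'_apply, Matrix.toLin'_apply]
      exact h k
    exact Matrix.toLin'.injective e

/-- eigenvectors of polynomials -/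
theorem eig {A : Matrix (Fin N) (Fin N) ℝ} {u : Fin N → ℂ} {l : ℝ} (h : cmx A *ᵥ u = (l : ℂ) • u)
    (q : Polynomial ℝ) : cmx (Polynomial.aeval A q) *ᵥ u = ((q.eval l : ℝ) : ℂ) • u := by
  induction q using Polynomial.induction_on with
  | C a =>
    rw [Polynomial.aeval_C, Polynomial.eval_C]
    have e : cmx (algebraMap ℝ (Matrix (Fin N) (Fin N) ℝ) a) = (a : ℂ) • 1 := by
      ext i j
      by_cases h : i = j
      · subst h
        simp [cmx, Matrix.algebraMap_matrix_apply]
      · simp [cmx, Matrix.algebraMap_matrix_apply, h]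
    rw [e, Matrix.smul_mulVec, Matrix.one_mulVec]
  | add p q hp hq =>
    rw [map_add, cmx_add, Matrix.add_mulVec, hp, hq, Polynomial.eval_add, Complex.ofReal_add,
      add_smul]
  | monomial n a hn =>
    rw [pow_succ, ← mul_assoc, map_mul, cmx_mul, ← Matrix.mulVec_mulVec, Polynomial.aeval_X, h,
      Matrix.mulVec_smul, hn, smul_smul,
      Polynomial.eval_mul (p := Polynomial.C a * Polynomial.X ^ n), Polynomial.eval_X,
      Complex.ofReal_mul, mul_comm (l : ℂ)]

/-- what commutes with `A` commutes with the polynomials in `A` -/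
theorem com {A B : Matrix (Fin N) (Fin N) ℝ} (h : A * B = B * A) (q : Polynomial ℝ) :
    Polynomial.aeval A q * B = B * Polynomial.aeval A q := by
  induction q using Polynomial.induction_on with
  | C a =>
    rw [Polynomial.aeval_C, Algebra.algebraMap_eq_smul_one, Matrix.smul_mul, Matrix.mul_smul,
      one_mul, mul_one]
  | add p q hp hq => rw [map_add, add_mul, mul_add, hp, hq]
  | monomial n a hn =>
    rw [pow_succ, ← mul_assoc, map_mul, Polynomial.aeval_X, mul_assoc, h, ← mul_assoc, hn,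
      mul_assoc]

/-- polynomials in `A` are symmetric for the form -/
theorem sym {A M : Matrix (Fin N) (Fin N) ℝ} (h : Aᵀ * M = M * A) (q : Polynomial ℝ) :
    (Polynomial.aeval A q)ᵀ * M = M * Polynomial.aeval A q := by
  induction q using Polynomial.induction_on with
  | C a =>
    rw [Polynomial.aeval_C, Algebra.algebraMap_eq_smul_one, Matrix.transpose_smul,
      Matrix.transpose_one, Matrix.smul_mul, Matrix.mul_smul, one_mul, mul_one]
  | add p q hp hq =>
    rw [map_add, Matrix.transpose_add, add_mul, mul_add, hp, hq]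
  | monomial n a hn =>
    rw [pow_succ, ← mul_assoc, map_mul, Matrix.transpose_mul, Polynomial.aeval_X, mul_assoc, hn,
      ← mul_assoc, h, mul_assoc, com rfl]

theorem mulVec_re (z : Matrix (Fin N) (Fin N) ℝ) (w : Fin N → ℂ) (j : Fin N) :
    ((cmx z *ᵥ w) j).re = (z *ᵥ fun i => (w i).re) j := by
  simp [cmx, Matrix.mulVec, dotProduct, Complex.re_sum]

theorem mulVec_im (z : Matrix (Fin N) (Fin N) ℝ) (w : Fin N → ℂ) (j : Fin N) :
    ((cmx z *ᵥ w) j).im = (z *ᵥ fun i => (w i).im) j := by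
  simp [cmx, Matrix.mulVec, dotProduct, Complex.im_sum]

theorem dot_tr (A : Matrix (Fin N) (Fin N) ℝ) (x y : Fin N → ℝ) :
    (A *ᵥ x) ⬝ᵥ y = x ⬝ᵥ (Aᵀ *ᵥ y) := by
  rw [Matrix.mulVec_transpose, dotProduct_comm, Matrix.dotProduct_mulVec, dotProduct_comm]

end C3

open C3 in
theorem t_C3 : St_C3 := by
  intro N z M hM hz hpos u μ hu he
  have hμ : ∀ k, μ k ≠ 0 := by
    intro k hk
    have h0 : cmx z *ᵥ u k = 0 := by
      rw [he k, hk]
      simp
    have hr : ∀ x : Fin N → ℝ, z *ᵥ x = 0 → x = 0 := by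
      intro x hx
      by_contra hne
      have := hpos x hne
      rw [hx, zero_dotProduct] at this
      exact lt_irrefl _ this
    have h1 : (fun i => (u k i).re) = (0 : Fin N → ℝ) := by
      refine hr _ ?_
      ext j
      rw [← mulVec_re, h0]
      rfl
    have h2 : (fun i => (u k i).im) = (0 : Fin N → ℝ) := by
      refine hr _ ?_
      ext j
      rw [← mulVec_im, h0]
      rfl
    refine hu.ne_zero k ?_
    ext j
    exact Complex.ext (congrFun h1 j) (congrFun h2 j)
  refine ⟨hμ, ?_⟩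
  -- interpolation
  obtain ⟨r, hr⟩ : ∃ r : Polynomial ℝ, ∀ k, r.eval (-(μ k) ^ 2) * r.eval (-(μ k) ^ 2) = |μ k|⁻¹ := by
    classical
    refine ⟨Lagrange.interpolate (Finset.univ.image fun k => -(μ k) ^ 2) id
      fun y => √((√(-y))⁻¹), fun k => ?_⟩
    have e := Lagrange.eval_interpolate_at_node (s := Finset.univ.image fun k => -(μ k) ^ 2)
      (v := (id : ℝ → ℝ)) (i := -(μ k) ^ 2) (fun y => √((√(-y))⁻¹)) (Set.injOn_id _)
      (Finset.mem_image_of_mem _ (Finset.mem_univ k))
    rw [id] at e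
    rw [e, Real.mul_self_sqrt (by positivity), neg_neg, Real.sqrt_sq_eq_abs]
  set A : Matrix (Fin N) (Fin N) ℝ := z * z with hA
  set T : Matrix (Fin N) (Fin N) ℝ := Polynomial.aeval A r with hT
  have hsA : Aᵀ * rm M = rm M * A := by
    have h1 : zᵀ * rm M = -(rm M * z) := eq_neg_of_add_eq_zero_left hz
    rw [hA, Matrix.transpose_mul, mul_assoc, h1, mul_neg, ← mul_assoc, h1, neg_mul, neg_neg,
      mul_assoc]
  have hzM : zᵀ * rm M = -(rm M * z) := eq_neg_of_add_eq_zero_left hz
  have hsT : Tᵀ * rm M = rm M * T := sym hsA r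
  have hcT : T * z = z * T := com (by rw [hA, mul_assoc]) r
  have hzz : ∀ k, cmx A *ᵥ u k = ((-(μ k) ^ 2 : ℝ) : ℂ) • u k := by
    intro k
    rw [hA, cmx_mul, ← Matrix.mulVec_mulVec, he k, Matrix.mulVec_smul, he k, smul_smul]
    congr 1
    push_cast
    linear_combination (μ k : ℂ) ^ 2 * Complex.I_sq
  have hTu : ∀ k, cmx T *ᵥ u k = ((r.eval (-(μ k) ^ 2) : ℝ) : ℂ) • u k := fun k => eig (hzz k) r
  have hJu : ∀ k, cmx (z * (T * T)) *ᵥ u k =
      (Complex.I * (SignType.sign (μ k) : ℝ)) • u k := by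
    intro k
    rw [cmx_mul, cmx_mul, ← Matrix.mulVec_mulVec, ← Matrix.mulVec_mulVec, hTu k,
      Matrix.mulVec_smul, hTu k, smul_smul, Matrix.mulVec_smul, he k, smul_smul]
    congr 1
    have h1 : ((r.eval (-(μ k) ^ 2) : ℝ) : ℂ) * ((r.eval (-(μ k) ^ 2) : ℝ) : ℂ) =
        ((|μ k|⁻¹ : ℝ) : ℂ) := by
      rw [← hr k]
      push_cast
      rfl
    rw [h1]
    have h2 : (SignType.sign (μ k) : ℝ) = |μ k|⁻¹ * μ k := by
      have h3 := sign_mul_abs (μ k)
      have h4 : |μ k| ≠ 0 := abs_ne_zero.2 (hμ k)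
      field_simp
      linarith
    rw [h2]
    push_cast
    ring
  have hsq : z * (T * T) * (z * (T * T)) = -1 := by
    apply cmx_inj
    refine ext_basis hu fun k => ?_
    rw [cmx_mul, ← Matrix.mulVec_mulVec, hJu k, Matrix.mulVec_smul, hJu k, smul_smul, cmx_neg,
      cmx_one, Matrix.neg_mulVec, Matrix.one_mulVec]
    have h1 : ((SignType.sign (μ k) : ℝ)) * (SignType.sign (μ k) : ℝ) = 1 := by
      rcases lt_or_gt_of_ne (hμ k) with h | h
      · rw [sign_neg h]
        simp
      · rw [sign_pos h]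
        simp
    have h2 : (((SignType.sign (μ k) : ℝ)) : ℂ) * ((SignType.sign (μ k) : ℝ) : ℂ) = 1 := by
      exact_mod_cast h1
    have h3 : Complex.I * ((SignType.sign (μ k) : ℝ) : ℂ) *
        (Complex.I * ((SignType.sign (μ k) : ℝ) : ℂ)) = -1 := by
      linear_combination Complex.I ^ 2 * h2 + Complex.I_sq
    rw [h3, neg_one_smul]
  refine ⟨z * (T * T), ⟨hsq, hM, ?_, ?_⟩, ?_, hJu⟩
  · rw [Matrix.transpose_mul, Matrix.transpose_mul, mul_assoc, hzM, mul_neg, mul_assoc,
      ← mul_assoc (Tᵀ) (rm M) z, hsT]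
    have : T * z = z * T := hcT
    rw [mul_assoc (rm M) T z, ← mul_assoc (Tᵀ) (rm M) (T * z), hsT, this]
    have e : rm M * T * (z * T) = rm M * (z * (T * T)) := by
      rw [mul_assoc, ← mul_assoc T z T, this, mul_assoc]
    rw [e]
    exact neg_add_cancel _
  · intro x hx
    have hTx : T *ᵥ x ≠ 0 := by
      intro h0
      have h1 : (z * (T * T)) *ᵥ x = 0 := by
        rw [← Matrix.mulVec_mulVec, ← Matrix.mulVec_mulVec, h0, Matrix.mulVec_zero,
          Matrix.mulVec_zero]
      have h2 : (z * (T * T) * (z * (T * T))) *ᵥ x = 0 := by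
        rw [← Matrix.mulVec_mulVec, h1, Matrix.mulVec_zero]
      rw [hsq, Matrix.neg_mulVec, Matrix.one_mulVec, neg_eq_zero] at h2
      exact hx h2
    have e : (z * (T * T)) *ᵥ x = T *ᵥ (z *ᵥ (T *ᵥ x)) := by
      rw [Matrix.mulVec_mulVec, Matrix.mulVec_mulVec, ← mul_assoc, ← hcT, mul_assoc]
    have e2 : Tᵀ *ᵥ (rm M *ᵥ x) = rm M *ᵥ (T *ᵥ x) := by
      rw [Matrix.mulVec_mulVec, hsT, ← Matrix.mulVec_mulVec]
    rw [e, dot_tr, e2]
    exact hpos _ hTx
  · rw [mul_assoc, mul_assoc, hcT, ← mul_assoc T z T, hcT, mul_assoc]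

end

end Pool.Agent.NH36.VH
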