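import Pool.Agent.NH36.VH.Stm

/-!
# Project VH, C4: the polar part kills the form
-/

set_option autoImplicit false

namespace Pool.Agent.NH36.VH

open Module Matrix Pool.Agent.Y90 Pool.Agent.NH32

namespace C4

noncomputable section

variable {N m : ℕ}

/-- the complexification of a real multilinear form -/
def psiC (ψ : MultilinearMap ℝ (fun _ : Fin m => Fin N → ℝ) ℝ) :
    MultilinearMap ℂ (fun _ : Fin m => Fin N → ℂ) ℂ :=
  ∑ s : Fin m → Fin N, ((ψ fun k => Pi.single (s k) 1 : ℝ) : ℂ) •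
    (MultilinearMap.mkPiAlgebra ℂ (Fin m) ℂ).compLinearMap fun k => LinearMap.proj (s k)

lemma psiC_apply (ψ : MultilinearMap ℝ (fun _ : Fin m => Fin N → ℝ) ℝ)
    (w : Fin m → Fin N → ℂ) : psiC ψ w =
      ∑ s : Fin m → Fin N, ((ψ fun k => Pi.single (s k) 1 : ℝ) : ℂ) * ∏ k, w k (s k) := by
  unfold psiC
  rw [_root_.sum_apply]
  refine Finset.sum_congr rfl fun s _ => ?_
  rw [_root_.smul_apply, MultilinearMap.compLinearMap_apply,
    MultilinearMap.mkPiAlgebra_apply, smul_eq_mul]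
  rfl

lemma expand (ψ : MultilinearMap ℝ (fun _ : Fin m => Fin N → ℝ) ℝ) (v : Fin m → Fin N → ℝ) :
    ψ v = ∑ s : Fin m → Fin N, (ψ fun k => Pi.single (s k) 1) * ∏ k, v k (s k) := by
  have h1 : v = fun k => ∑ j, v k j • (Pi.single j (1 : ℝ) : Fin N → ℝ) := by
    funext k
    exact pi_eq_sum_univ' (v k)
  conv_lhs => rw [h1]
  rw [MultilinearMap.map_sum]
  refine Finset.sum_congr rfl fun s _ => ?_
  rw [MultilinearMap.map_smul_univ ψ (fun k => v k (s k))
    (fun k => (Pi.single (s k) (1 : ℝ) : Fin N → ℝ)), smul_eq_mul, mul_comm]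

/-- a real vector as a complex vector -/
def cv (v : Fin N → ℝ) : Fin N → ℂ := fun j => (v j : ℂ)

lemma psiC_real (ψ : MultilinearMap ℝ (fun _ : Fin m => Fin N → ℝ) ℝ) (v : Fin m → Fin N → ℝ) :
    psiC ψ (fun k => cv (v k)) = (ψ v : ℂ) := by
  rw [psiC_apply, expand ψ v]
  push_cast
  rfl

lemma cv_mulVec (A : Matrix (Fin N) (Fin N) ℝ) (v : Fin N → ℝ) :
    cmx A *ᵥ cv v = cv (A *ᵥ v) := by
  funext i
  simp only [cmx, cv, Matrix.mulVec, dotProduct, Matrix.map_apply]
  push_cast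
  rfl

/-- the derivation given by `A`, applied to the complexification -/
def DC (A : Matrix (Fin N) (Fin N) ℝ) (ψ : MultilinearMap ℝ (fun _ : Fin m => Fin N → ℝ) ℝ) :
    MultilinearMap ℂ (fun _ : Fin m => Fin N → ℂ) ℂ :=
  ∑ k, (psiC ψ).compLinearMap
    (Function.update (fun _ => (LinearMap.id : (Fin N → ℂ) →ₗ[ℂ] (Fin N → ℂ))) k
      (Matrix.mulVecLin (cmx A)))

lemma DC_apply (A : Matrix (Fin N) (Fin N) ℝ)
    (ψ : MultilinearMap ℝ (fun _ : Fin m => Fin N → ℝ) ℝ) (w : Fin m → Fin N → ℂ) :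
    DC A ψ w = ∑ k, psiC ψ (Function.update w k (cmx A *ᵥ w k)) := by
  unfold DC
  rw [_root_.sum_apply]
  refine Finset.sum_congr rfl fun k _ => ?_
  rw [MultilinearMap.compLinearMap_apply]
  congr 1
  funext j
  by_cases h : j = k
  · subst h
    rw [Function.update_self, Function.update_self]
    rfl
  · rw [Function.update_of_ne h, Function.update_of_ne h]
    rfl

lemma DC_real (A : Matrix (Fin N) (Fin N) ℝ)
    (ψ : MultilinearMap ℝ (fun _ : Fin m => Fin N → ℝ) ℝ) (v : Fin m → Fin N → ℝ) :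
    DC A ψ (fun k => cv (v k)) = ((∑ k, ψ (Function.update v k (A *ᵥ v k)) : ℝ) : ℂ) := by
  rw [DC_apply]
  push_cast
  refine Finset.sum_congr rfl fun k _ => ?_
  rw [← psiC_real]
  congr 1
  funext j
  by_cases h : j = k
  · subst h
    rw [Function.update_self, Function.update_self, cv_mulVec]
  · rw [Function.update_of_ne h, Function.update_of_ne h]

lemma kills_iff (A : Matrix (Fin N) (Fin N) ℝ)
    (ψ : MultilinearMap ℝ (fun _ : Fin m => Fin N → ℝ) ℝ) : Kills A ψ ↔ DC A ψ = 0 := by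
  constructor
  · intro h
    refine Basis.ext_multilinear (fun _ => Pi.basisFun ℂ (Fin N)) fun s => ?_
    have h1 : (fun k => (Pi.basisFun ℂ (Fin N)) (s k)) =
        fun k => cv (Pi.single (s k) (1 : ℝ)) := by
      funext k j
      rw [Pi.basisFun_apply]
      unfold cv
      by_cases hj : j = s k
      · subst hj
        rw [Pi.single_eq_same, Pi.single_eq_same, Complex.ofReal_one]
      · rw [Pi.single_eq_of_ne hj, Pi.single_eq_of_ne hj, Complex.ofReal_zero]
    rw [h1, DC_real, h, Complex.ofReal_zero, _root_.zero_apply]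
  · intro h v
    have h1 := DC_real A ψ v
    rw [h, _root_.zero_apply] at h1
    exact_mod_cast h1.symm

lemma DC_eig (A : Matrix (Fin N) (Fin N) ℝ)
    (ψ : MultilinearMap ℝ (fun _ : Fin m => Fin N → ℝ) ℝ) (w : Fin m → Fin N → ℂ)
    (l : Fin m → ℂ) (h : ∀ k, cmx A *ᵥ w k = l k • w k) :
    DC A ψ w = (∑ k, l k) * psiC ψ w := by
  rw [DC_apply, Finset.sum_mul]
  refine Finset.sum_congr rfl fun k _ => ?_
  rw [h, MultilinearMap.map_update_smul, Function.update_eq_self, smul_eq_mul]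

lemma sign_close (x : ℝ) (hx : x ≠ 0) (ε : ℝ) (h : ‖(Complex.I * x : ℂ) ^ 2 + 1‖ < ε) :
    |((SignType.sign x : SignType) : ℝ) - x| < ε := by
  have h1 : (Complex.I * x : ℂ) ^ 2 + 1 = ((1 - x ^ 2 : ℝ) : ℂ) := by
    rw [mul_pow, Complex.I_sq]
    push_cast
    ring
  rw [h1, Complex.norm_real, Real.norm_eq_abs] at h
  refine lt_of_le_of_lt ?_ h
  rcases lt_or_gt_of_ne hx with hx | hx
  · rw [sign_neg hx]
    have h2 : |1 - x ^ 2| = |-1 - x| * |x - 1| := by
      rw [← abs_mul]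
      congr 1
      ring
    rw [SignType.coe_neg, SignType.coe_one, h2]
    have h3 : 1 ≤ |x - 1| := by
      rw [abs_of_neg (by linarith)]
      linarith
    exact le_mul_of_one_le_right (abs_nonneg _) h3
  · rw [sign_pos hx]
    have h2 : |1 - x ^ 2| = |1 - x| * |x + 1| := by
      rw [← abs_mul]
      congr 1
      ring
    rw [SignType.coe_one, h2]
    have h3 : 1 ≤ |x + 1| := by
      rw [abs_of_pos (by linarith)]
      linarith
    exact le_mul_of_one_le_right (abs_nonneg _) h3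

lemma sum_sign (x : Fin m → ℝ) (hx : ∀ k, x k ≠ 0)
    (h : ∀ k, ‖(Complex.I * x k : ℂ) ^ 2 + 1‖ < 1 / (m + 1)) (h0 : ∑ k, x k = 0) :
    ∑ k, ((SignType.sign (x k) : SignType) : ℝ) = 0 := by
  have h1 : |∑ k, ((SignType.sign (x k) : SignType) : ℝ)| ≤ ∑ _k : Fin m, (1 / ((m : ℝ) + 1)) := by
    have h2 : ∑ k, ((SignType.sign (x k) : SignType) : ℝ) =
        ∑ k, (((SignType.sign (x k) : SignType) : ℝ) - x k) := by
      rw [Finset.sum_sub_distrib, h0, sub_zero]
    rw [h2]
    exact (Finset.abs_sum_le_sum_abs _ _).trans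
      (Finset.sum_le_sum fun k _ => (sign_close (x k) (hx k) _ (h k)).le)
  rw [Finset.sum_const, Finset.card_univ, Fintype.card_fin, nsmul_eq_mul, mul_one_div] at h1
  have h3 : (m : ℝ) / (m + 1) < 1 := by
    rw [div_lt_one (by positivity)]
    linarith
  have h4 : ∑ k, ((SignType.sign (x k) : SignType) : ℝ) =
      ((∑ k, ((SignType.sign (x k) : SignType) : ℤ) : ℤ) : ℝ) := by
    push_cast
    rfl
  rw [h4] at h1 ⊢
  have h5 : |((∑ k, ((SignType.sign (x k) : SignType) : ℤ) : ℤ) : ℝ)| < 1 := lt_of_le_of_lt h1 h3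
  rw [← Int.cast_abs] at h5
  have h6 : |(∑ k, ((SignType.sign (x k) : SignType) : ℤ))| < 1 := by exact_mod_cast h5
  rw [Int.abs_lt_one_iff.1 h6, Int.cast_zero]

end

end C4

open C4 in
theorem t_C4 : St_C4 := by
  intro N m z J u μ hu h hε ψ hz
  rw [kills_iff] at hz ⊢
  have hcard : Fintype.card (Fin N) = finrank ℂ (Fin N → ℂ) := by
    rw [finrank_fintype_fun_eq_card]
  set b : Basis (Fin N) ℂ (Fin N → ℂ) :=
    Basis.mk hu (hu.span_eq_top_of_card_eq_finrank' hcard).ge with hb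
  refine Basis.ext_multilinear (fun _ => b) fun t => ?_
  have h1 : (fun k => b (t k)) = fun k => u (t k) := by
    funext k
    rw [hb, Basis.mk_apply]
  rw [h1, _root_.zero_apply]
  have h2 := DC_eig z ψ (fun k => u (t k)) (fun k => Complex.I * μ (t k)) fun k => (h (t k)).2.1
  rw [hz, _root_.zero_apply] at h2
  rw [DC_eig J ψ (fun k => u (t k)) (fun k => Complex.I * (SignType.sign (μ (t k)) : ℝ))
    fun k => (h (t k)).2.2]
  rcases mul_eq_zero.1 h2.symm with h3 | h3
  · have h4 : ∑ k, μ (t k) = 0 := by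
      rw [← Finset.mul_sum] at h3
      have h5 := (mul_eq_zero.1 h3).resolve_left Complex.I_ne_zero
      exact_mod_cast h5
    have h5 := sum_sign (fun k => μ (t k)) (fun k => (h (t k)).1) (fun k => hε (t k)) h4
    rw [← Finset.mul_sum]
    have h6 : ∑ k, ((((SignType.sign (μ (t k)) : SignType) : ℝ)) : ℂ) = 0 := by
      rw [← Complex.ofReal_sum, h5, Complex.ofReal_zero]
    rw [h6, mul_zero, zero_mul]
  · rw [h3, mul_zero]

end Pool.Agent.NH36.VH
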