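import Pool.Agent.NH36.VH.Stm

/-!
# Project VH: the CM point (assembly)
-/

namespace Pool.Agent.NH36.VH

open Module Matrix Pool.Agent.Y90 Pool.Agent.NH32
open Pool.Agent.H204R3.CM (IsHodge)

namespace C568

theorem rm_mul {N : ℕ} (A B : Matrix (Fin N) (Fin N) ℚ) : rm (A * B) = rm A * rm B := by
  ext i j
  simp [rm, Matrix.mul_apply]

theorem rm_tr {N : ℕ} (A : Matrix (Fin N) (Fin N) ℚ) : rm Aᵀ = (rm A)ᵀ := rfl

theorem rm_add {N : ℕ} (A B : Matrix (Fin N) (Fin N) ℚ) : rm (A + B) = rm A + rm B := by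
  ext i j
  simp [rm]

theorem rm_neg {N : ℕ} (A : Matrix (Fin N) (Fin N) ℚ) : rm (-A) = -rm A := by
  ext i j
  simp [rm]

theorem rm_zero {N : ℕ} {A : Matrix (Fin N) (Fin N) ℚ} (h : rm A = 0) : A = 0 := by
  ext i j
  have h1 := congrFun (congrFun h i) j
  simpa [rm] using h1

theorem rv_mul {N : ℕ} (A : Matrix (Fin N) (Fin N) ℚ) (x : Fin N → ℚ) :
    rv (A *ᵥ x) = rm A *ᵥ rv x := by
  funext i
  simp [rv, rm, Matrix.mulVec, dotProduct]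

theorem rv_dot {N : ℕ} (x y : Fin N → ℚ) : ((x ⬝ᵥ y : ℚ) : ℝ) = rv x ⬝ᵥ rv y := by
  simp [rv, dotProduct]

theorem rv_ne {N : ℕ} {x : Fin N → ℚ} (h : x ≠ 0) : rv x ≠ 0 := by
  intro h1
  refine h (funext fun i => ?_)
  have h2 := congrFun h1 i
  simpa [rv] using h2

theorem dot_tr {N : ℕ} {R : Type} [CommRing R] (A : Matrix (Fin N) (Fin N) R) (x y : Fin N → R) :
    x ⬝ᵥ (Aᵀ *ᵥ y) = (A *ᵥ x) ⬝ᵥ y := by
  rw [Matrix.dotProduct_mulVec, Matrix.vecMul_transpose]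

end C568

open C568

/-- **C5.** The CM point. -/
theorem t_cmp (a1 : St_A1) (a2 : St_A2) (a3 : St_A3) (a4 : St_A4) (r2 : St_R2) (c1 : St_C1)
    (c2 : St_C2) (c3 : St_C3) (c4 : St_C4) : St_cmp := by
  intro X E hE m f hf
  obtain ⟨N, e, L, J, M, hch, hpol, hEM⟩ := a2 X E hE
  obtain ⟨ψ, hψ, hk⟩ := (a4 X N e L J hch m f).1 hf
  obtain ⟨ε, hε, h2⟩ := c2 N m J M hpol
  have hψ' : ∀ v : Fin m → Fin N → ℚ, ψ (fun k => rv (v k)) = (f (fun k => e.symm (v k)) : ℝ) := by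
    intro v
    have h := hψ fun k => e.symm (v k)
    simp only [LinearEquiv.apply_symm_apply] at h
    exact h
  obtain ⟨z, hz1, hz2, hz3⟩ := c1 N m J M hpol.sp ψ (fun v => ⟨_, hψ' v⟩) hk ε hε
  obtain ⟨hpos, hbd⟩ := h2 (rm z) hz3
  have hMt : (rm M)ᵀ = -rm M := by
    rw [← rm_tr, hpol.sk, rm_neg]
  have hzM : (rm z)ᵀ * rm M = -(rm M * rm z) := eq_neg_of_add_eq_zero_left hz1
  have hS : ((rm z)ᵀ * rm M)ᵀ = (rm z)ᵀ * rm M := by
    rw [Matrix.transpose_mul, Matrix.transpose_transpose, hMt, hzM, Matrix.neg_mul]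
  have hSpos : ∀ x : Fin N → ℝ, x ≠ 0 → 0 < x ⬝ᵥ (((rm z)ᵀ * rm M) *ᵥ x) := by
    intro x hx
    rw [← Matrix.mulVec_mulVec, dot_tr]
    exact hpos x hx
  have hzS : (rm z)ᵀ * ((rm z)ᵀ * rm M) + ((rm z)ᵀ * rm M) * rm z = 0 := by
    rw [Matrix.mul_assoc (rm z)ᵀ (rm M) (rm z), ← Matrix.mul_add, hz1, Matrix.mul_zero]
  obtain ⟨u, μ, hu, hzu⟩ := r2 N ((rm z)ᵀ * rm M) (rm z) hS hSpos hzS
  obtain ⟨hμ, J', hJ1, hJ2, hJ3⟩ := c3 N (rm z) M hpol.sk hz1 hpos u μ hu hzu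
  have hk' : Kills J' ψ := c4 N m (rm z) J' u μ hu (fun k => ⟨hμ k, hzu k, hJ3 k⟩)
    (fun k => hbd (u k) _ (hu.ne_zero k) (hzu k)) ψ hz2
  obtain ⟨Y, e', L', hch', hpol'⟩ := a1 N J' M hJ1
  have hq : zᵀ * M = -(M * z) := by
    refine eq_neg_of_add_eq_zero_left (rm_zero ?_)
    rw [rm_add, rm_mul, rm_mul, rm_tr]
    exact hz1
  have hEe : ∀ v w, E ((e'.trans e.symm) v) ((e'.trans e.symm) w) = e' v ⬝ᵥ (M *ᵥ e' w) := by
    intro v w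
    rw [hEM]
    simp only [LinearEquiv.trans_apply, LinearEquiv.apply_symm_apply]
  have hze : ∀ v, e' ((e'.symm.toLinearMap ∘ₗ Matrix.toLin' z ∘ₗ e'.toLinearMap) v) =
      z *ᵥ e' v := by
    intro v
    simp only [LinearMap.comp_apply, LinearEquiv.coe_coe, LinearEquiv.apply_symm_apply,
      Matrix.toLin'_apply]
  refine ⟨Y, e'.trans e.symm, e'.symm.toLinearMap ∘ₗ Matrix.toLin' z ∘ₗ e'.toLinearMap,
    ⟨a3 Y N e' L' J' hch' z hJ2, ?_, ?_, ?_⟩, ?_⟩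
  · have h : (fun v w => E ((e'.trans e.symm) v) ((e'.trans e.symm) w)) =
        fun v w => e' v ⬝ᵥ (M *ᵥ e' w) := by
      funext v w
      exact hEe v w
    rw [h]
    exact hpol'
  · intro v w
    rw [hEe, hEe, hze, hze, ← dot_tr, Matrix.mulVec_mulVec, hq, Matrix.neg_mulVec,
      dotProduct_neg, Matrix.mulVec_mulVec]
  · intro v hv
    rw [hEe, hze]
    have hx : e' v ≠ 0 := fun h => hv (e'.map_eq_zero_iff.1 h)
    have h := hpos (rv (e' v)) (rv_ne hx)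
    rw [← rv_mul, ← rv_mul, ← rv_dot] at h
    exact_mod_cast h
  · rw [a4 Y N e' L' J' hch' m]
    refine ⟨ψ, fun v => ?_, hk'⟩
    rw [hψ' fun k => e' (v k)]
    rfl

end Pool.Agent.NH36.VH
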