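import Mathlib
import Pool.Agent.NH36.VH.Stm
import Pool.Agent.NH32.GD6
import Pool.Agent.NH32.GD7a
import Pool.Agent.NH32.GD7b
import Pool.Agent.NH32.GD7c

/-!
# Project VH: the results of the library in the notation of this project
-/

namespace Pool.Agent.NH36.VH

open Module Matrix Pool.Agent.Y90 Pool.Agent.NH32
open Pool.Agent.H204R3.CM (IsHodge)

theorem cmf {K : Subfield ℂ} (hK : CMF K) : NH32.CMF K := ⟨hK.fin, hK.st, hK.cc, hK.i⟩

theorem cjk_eq {K : Subfield ℂ} (hK : CMF K) (z : K) : NH32.cjk (cmf hK) z = cjk hK z := rfl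

theorem frK_eq {K : Subfield ℂ} (hK : CMF K) {ι : Type} [Fintype ι] (κ x y : ι → K) :
    NH32.frK (cmf hK) κ x y = frK hK κ x y := rfl

theorem t_spw : St_spw := by
  intro K hK κ hκ Y b hb hp a w hw
  exact NH32.spw_of NH32.hsp_of K (cmf hK) 2 κ (by norm_num) hκ Y b hb hp a w hw

theorem t_cmav : St_cmav := by
  intro K hK d κ hκ
  obtain ⟨Y, b, h1, h2, h3⟩ := NH32.cmav_of K (cmf hK) d κ hκ
  refine ⟨Y, b, h1, h2, fun X P hP => h3 X P fun j σ => ?_⟩
  rcases hP j σ.symm with ⟨hs, hh⟩ | ⟨hs, hh⟩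
  · refine ⟨NH32.toC (P j), 0, (add_zero _).symm, ?_, hh, ?_⟩
    · have : NH32.sgf (κ j) σ = -1 := hs
      rw [this]
      simp
    · exact ⟨0, fun w => by simp [NH32.tw]⟩
  · refine ⟨0, NH32.toC (P j), (zero_add _).symm, ?_, ⟨0, fun w => by simp [NH32.tw]⟩, hh⟩
    have : NH32.sgf (κ j) σ = 1 := hs
    rw [this]
    simp

end Pool.Agent.NH36.VH
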