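import Pool.Agent.NH36.VH.Stm

/-!
# Project VH, R1: rational positive definite forms are real positive definite
-/

namespace Pool.Agent.NH36.VH

open Module Matrix Pool.Agent.Y90 Pool.Agent.NH32

namespace R1L

/-- a positive semidefinite form with trivial kernel is positive definite -/
theorem pos_of_semi {V : Type} [AddCommGroup V] [Module ℝ V] (s : V → V → ℝ)
    (hadd : ∀ x y z, s (x + y) z = s x z + s y z) (hsmul : ∀ (t : ℝ) x y, s (t • x) y = t * s x y)
    (hsymm : ∀ x y, s x y = s y x) (hnn : ∀ x, 0 ≤ s x x) (hker : ∀ x, (∀ y, s x y = 0) → x = 0)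
    (x : V) (hx : x ≠ 0) : 0 < s x x := by
  rcases (hnn x).lt_or_eq with h | h
  · exact h
  · exfalso
    apply hx
    apply hker
    intro y
    have key : ∀ t : ℝ, 0 ≤ 2 * t * s x y + t ^ 2 * s y y := by
      intro t
      have h1 := hnn (x + t • y)
      have h2 : s (x + t • y) (x + t • y) = s x x + 2 * t * s x y + t ^ 2 * s y y := by
        rw [hadd, hsmul, hsymm x (x + t • y), hsymm y (x + t • y), hadd, hadd, hsmul, hsmul,
          hsymm y x]
        ring
      rw [h2, ← h] at h1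
      linarith
    have hc := hnn y
    have h3 := key (-(s x y) / (s y y + 1))
    have hpos : 0 < s y y + 1 := by linarith
    have h4 : 2 * (-(s x y) / (s y y + 1)) * s x y + (-(s x y) / (s y y + 1)) ^ 2 * s y y =
        -(s x y ^ 2 * (s y y + 2)) / (s y y + 1) ^ 2 := by
      field_simp
      ring
    rw [h4, le_div_iff₀ (by positivity), zero_mul] at h3
    have h5 : s x y ^ 2 * (s y y + 2) = 0 := by
      apply le_antisymm
      · linarith
      · positivity
    rcases mul_eq_zero.1 h5 with h6 | h6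
    · exact pow_eq_zero_iff (by norm_num) |>.1 h6
    · linarith

theorem dense_rv (N : ℕ) : DenseRange (rv : (Fin N → ℚ) → Fin N → ℝ) := by
  have h : DenseRange (Pi.map fun _ : Fin N => ((↑) : ℚ → ℝ)) :=
    DenseRange.piMap fun _ => Rat.denseRange_cast
  exact h

theorem rv_form {N : ℕ} (S : Matrix (Fin N) (Fin N) ℚ) (x y : Fin N → ℚ) :
    rv x ⬝ᵥ (rm S *ᵥ rv y) = ((x ⬝ᵥ (S *ᵥ y) : ℚ) : ℝ) := by
  simp only [dotProduct, mulVec, rv, rm, Matrix.map_apply]
  push_cast
  rfl

end R1L

open R1L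

theorem t_R1 : St_R1 := by
  intro N S hS hpos x hx
  have hsT : (rm S)ᵀ = rm S := by
    have : (rm S)ᵀ = rm Sᵀ := rfl
    rw [this, hS]
  refine pos_of_semi (fun x y => x ⬝ᵥ (rm S *ᵥ y)) ?_ ?_ ?_ ?_ ?_ x hx
  · intro x y z
    exact add_dotProduct _ _ _
  · intro t x y
    show (t • x) ⬝ᵥ _ = t * _
    rw [smul_dotProduct, smul_eq_mul]
  · intro x y
    show x ⬝ᵥ (rm S *ᵥ y) = y ⬝ᵥ (rm S *ᵥ x)
    rw [dotProduct_mulVec, ← mulVec_transpose, hsT, dotProduct_comm]
  · intro x
    refine (dense_rv N).induction_on (p := fun x => 0 ≤ x ⬝ᵥ (rm S *ᵥ x)) x ?_ ?_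
    · apply isClosed_le continuous_const
      have e : (fun x : Fin N → ℝ => x ⬝ᵥ (rm S *ᵥ x)) =
          fun x => ∑ i, x i * ∑ j, rm S i j * x j := rfl
      rw [e]
      fun_prop
    · intro a
      rw [rv_form]
      by_cases ha : a = 0
      · rw [ha]
        simp
      · exact_mod_cast (hpos a ha).le
  · intro x hx0
    have h1 : rm S *ᵥ x = 0 := by
      funext i
      have h2 : x ⬝ᵥ (rm S *ᵥ Pi.single i 1) = 0 := hx0 (Pi.single i 1)
      rw [dotProduct_mulVec, ← mulVec_transpose, hsT] at h2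
      simpa using h2
    by_contra hne
    have hdet : (rm S).det = 0 := Matrix.exists_mulVec_eq_zero_iff.1 ⟨x, hne, h1⟩
    have hdet2 : ((S.det : ℚ) : ℝ) = 0 := by
      have h3 : (Rat.castHom ℝ) S.det = ((Rat.castHom ℝ).mapMatrix S).det :=
        RingHom.map_det _ _
      have h4 : (Rat.castHom ℝ).mapMatrix S = rm S := rfl
      rw [h4, hdet] at h3
      exact h3
    have hdet3 : S.det = 0 := by exact_mod_cast hdet2
    obtain ⟨v, hv, hv0⟩ := Matrix.exists_mulVec_eq_zero_iff.2 hdet3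
    have h5 := hpos v hv
    rw [hv0, dotProduct_zero] at h5
    exact lt_irrefl _ h5

end Pool.Agent.NH36.VH
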