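import Pool.Agent.NH36.VH.Stm

/-!
# R2: skew matrices have eigenbases
-/

namespace Pool.Agent.NH36.VH

open Module Matrix

namespace R294

open scoped MatrixOrder

lemma cmul {N : ℕ} (A B : Matrix (Fin N) (Fin N) ℝ) : cmx (A * B) = cmx A * cmx B := by
  unfold cmx
  exact Matrix.map_mul (f := Complex.ofRealHom)

lemma cone (N : ℕ) : cmx (1 : Matrix (Fin N) (Fin N) ℝ) = 1 := by
  unfold cmx
  exact Matrix.map_one _ Complex.ofReal_zero Complex.ofReal_one

lemma cH {N : ℕ} {B : Matrix (Fin N) (Fin N) ℝ} (hB : Bᵀ = -B) :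
    (Complex.I • cmx B).IsHermitian := by
  ext i j
  rw [conjTranspose_apply, Matrix.smul_apply, Matrix.smul_apply]
  have h := congrFun (congrFun hB i) j
  rw [transpose_apply, neg_apply] at h
  have e1 : cmx B j i = ((B j i : ℝ) : ℂ) := rfl
  have e2 : cmx B i j = ((B i j : ℝ) : ℂ) := rfl
  rw [e1, e2, h]
  simp

lemma fac {N : ℕ} {S z : Matrix (Fin N) (Fin N) ℝ} (hS : Sᵀ = S)
    (hpos : ∀ x : Fin N → ℝ, x ≠ 0 → 0 < x ⬝ᵥ (S *ᵥ x)) (hz : zᵀ * S + S * z = 0) :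
    ∃ G : Matrix (Fin N) (Fin N) ℝ, IsUnit G.det ∧ (G * z * G⁻¹)ᵀ = -(G * z * G⁻¹) := by
  have hPD : S.PosDef := by
    refine .of_dotProduct_mulVec_pos ?_ ?_
    · rw [IsHermitian, conjTranspose_eq_transpose_of_trivial]
      exact hS
    · intro x hx
      simpa using hpos x hx
  obtain ⟨G, hG⟩ := CStarAlgebra.nonneg_iff_eq_star_mul_self.mp hPD.posSemidef.nonneg
  have hG' : S = Gᵀ * G := by
    rw [hG, star_eq_conjTranspose, conjTranspose_eq_transpose_of_trivial]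
  have hdet : IsUnit G.det := by
    have h1 : S.det ≠ 0 := hPD.det_pos.ne'
    rw [hG', det_mul, det_transpose] at h1
    exact isUnit_iff_ne_zero.2 (left_ne_zero_of_mul h1)
  have hdetT : IsUnit Gᵀ.det := by rwa [det_transpose]
  refine ⟨G, hdet, ?_⟩
  rw [hG', ← mul_assoc] at hz
  have h1 : zᵀ * Gᵀ * G * G⁻¹ = zᵀ * Gᵀ := by
    rw [mul_assoc (zᵀ * Gᵀ), mul_nonsing_inv _ hdet, mul_one]
  have h2 : zᵀ * Gᵀ * G = -(Gᵀ * G * z) := eq_neg_of_add_eq_zero_left hz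
  have h3 : zᵀ * Gᵀ = -(Gᵀ * (G * z * G⁻¹)) := by
    rw [← h1, h2, neg_mul]
    simp only [mul_assoc]
  rw [transpose_mul, transpose_mul, transpose_nonsing_inv, h3, mul_neg, ← mul_assoc,
    nonsing_inv_mul _ hdetT, one_mul]

end R294

theorem t_R2 : St_R2 := by
  intro N S z hS hpos hz
  obtain ⟨G, hdet, hB⟩ := R294.fac hS hpos hz
  have hA := R294.cH hB
  have hli : LinearIndependent ℂ fun k : Fin N => (hA.eigenvectorBasis k : Fin N → ℂ) := by
    have h1 := hA.eigenvectorBasis.toBasis.linearIndependent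
    have h2 := h1.map' (WithLp.linearEquiv 2 ℂ (Fin N → ℂ)).toLinearMap
      (LinearEquiv.ker _)
    refine (linearIndependent_equiv' (Equiv.refl _) ?_).1 h2
    ext k i
    simp
  have hG1 : cmx G⁻¹ * cmx G = 1 := by
    rw [← R294.cmul, nonsing_inv_mul _ hdet, R294.cone]
  have hG2 : cmx G * cmx G⁻¹ = 1 := by
    rw [← R294.cmul, mul_nonsing_inv _ hdet, R294.cone]
  refine ⟨fun k => cmx G⁻¹ *ᵥ (hA.eigenvectorBasis k : Fin N → ℂ), fun k => -hA.eigenvalues k,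
    ?_, ?_⟩
  · have h3 := hli.map' (cmx G⁻¹).mulVecLin (by
      rw [LinearMap.ker_eq_bot]
      intro x y hxy
      have h4 : cmx G *ᵥ (cmx G⁻¹ *ᵥ x) = cmx G *ᵥ (cmx G⁻¹ *ᵥ y) := by
        congr 1
      rwa [mulVec_mulVec, mulVec_mulVec, hG2, one_mulVec, one_mulVec] at h4)
    exact h3
  · intro k
    have h5 := hA.mulVec_eigenvectorBasis k
    have h6 : cmx z * cmx G⁻¹ = cmx G⁻¹ * cmx (G * z * G⁻¹) := by
      rw [R294.cmul, R294.cmul, ← mul_assoc, ← mul_assoc, hG1, one_mul]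
    have h7 : cmx (G * z * G⁻¹) *ᵥ (hA.eigenvectorBasis k : Fin N → ℂ) =
        (Complex.I * ((-hA.eigenvalues k : ℝ) : ℂ)) • (hA.eigenvectorBasis k : Fin N → ℂ) := by
      have h8 : ∀ w : Fin N → ℂ, cmx (G * z * G⁻¹) *ᵥ w =
          (-Complex.I) • ((Complex.I • cmx (G * z * G⁻¹)) *ᵥ w) := by
        intro w
        rw [smul_mulVec, smul_smul, neg_mul, Complex.I_mul_I, neg_neg, one_smul]
      rw [h8, h5]
      ext i
      simp
      ring
    rw [mulVec_mulVec, h6, ← mulVec_mulVec, h7, mulVec_smul]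

end Pool.Agent.NH36.VH
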