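import Mathlib
import Pool.Agent.NH36.VH.Stm

/-!
# W1a: the skew Hermitian form
-/

namespace Pool.Agent.NH36.VH.W1aH

open Module

variable {K : Type} [Field K] [Algebra ℚ K] {c : K → K}

/-- An embedding. -/
theorem exEmb (hc : CMc K c) : Nonempty (K →ₐ[ℚ] ℂ) := by
  have := hc.fin
  exact ⟨IsAlgClosed.lift⟩

theorem c_add (hc : CMc K c) (a b : K) : c (a + b) = c a + c b := by
  obtain ⟨φ⟩ := exEmb hc
  apply φ.toRingHom.injective
  have h := hc.cc φ.toRingHom
  rw [h, map_add, map_add, map_add, h, h]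

theorem c_mul (hc : CMc K c) (a b : K) : c (a * b) = c a * c b := by
  obtain ⟨φ⟩ := exEmb hc
  apply φ.toRingHom.injective
  have h := hc.cc φ.toRingHom
  rw [h, map_mul, map_mul, map_mul, h, h]

theorem c_c (hc : CMc K c) (a : K) : c (c a) = a := by
  obtain ⟨φ⟩ := exEmb hc
  apply φ.toRingHom.injective
  have h := hc.cc φ.toRingHom
  rw [h, h, Complex.conj_conj]

theorem tr_c (hc : CMc K c) (a : K) :
    Algebra.trace ℚ K (c a) = Algebra.trace ℚ K a := by
  have := hc.fin
  have h1 := trace_eq_sum_embeddings (K := ℚ) (L := K) ℂ (x := c a)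
  have h2 := trace_eq_sum_embeddings (K := ℚ) (L := K) ℂ (x := a)
  have h3 : ∑ σ : K →ₐ[ℚ] ℂ, σ (c a) = starRingEnd ℂ (∑ σ : K →ₐ[ℚ] ℂ, σ a) := by
    rw [map_sum]
    exact Finset.sum_congr rfl fun σ _ => hc.cc σ.toRingHom a
  rw [h3, ← h2] at h1
  apply (algebraMap ℚ ℂ).injective
  rw [h1]
  simp

/-- The functional. -/
def fn {V : Type} [AddCommGroup V] [Module ℚ V] (ρ : K →ₐ[ℚ] Module.End ℚ V) {E : V → V → ℚ}
    (hE : Bil E) (v w : V) : Module.Dual ℚ K where
  toFun a := E (ρ a v) w
  map_add' a b := by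
    rw [map_add, LinearMap.add_apply, hE.add]
  map_smul' q a := by
    rw [map_smul, LinearMap.smul_apply, hE.smul]
    rfl

theorem fn_apply {V : Type} [AddCommGroup V] [Module ℚ V] (ρ : K →ₐ[ℚ] Module.End ℚ V)
    {E : V → V → ℚ} (hE : Bil E) (v w : V) (a : K) : fn ρ hE v w a = E (ρ a v) w := rfl

theorem uniq [FiniteDimensional ℚ K] {x y : K}
    (h : ∀ a, Algebra.trace ℚ K (x * a) = Algebra.trace ℚ K (y * a)) : x = y := by
  have hnd := traceForm_nondegenerate ℚ K
  apply (LinearMap.BilinForm.toDual (Algebra.traceForm ℚ K) hnd).injective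
  ext a
  rw [LinearMap.BilinForm.toDual_def, LinearMap.BilinForm.toDual_def, Algebra.traceForm_apply,
    Algebra.traceForm_apply]
  exact h a

end Pool.Agent.NH36.VH.W1aH

namespace Pool.Agent.NH36.VH

open Module W1aH

theorem t_W1a : St_W1a := by
  intro V _ _ _ K _ _ c hc ρ E hE hρ
  have := hc.fin
  have hnd := traceForm_nondegenerate ℚ K
  let h : V → V → K := fun v w =>
    (LinearMap.BilinForm.toDual (Algebra.traceForm ℚ K) hnd).symm (fn ρ hE v w)
  have key : ∀ v w a, Algebra.trace ℚ K (h v w * a) = E (ρ a v) w := by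
    intro v w a
    have h1 := LinearMap.BilinForm.apply_toDual_symm_apply (B := Algebra.traceForm ℚ K) (hB := hnd)
      (fn ρ hE v w) a
    rw [Algebra.traceForm_apply] at h1
    exact h1
  refine ⟨h, ?_, ?_, ?_, ?_⟩
  · intro u v w
    apply uniq
    intro a
    rw [add_mul, map_add, key, key, key, map_add, hE.add]
  · intro a v w
    apply uniq
    intro b
    have h1 : a * h v w * b = h v w * (b * a) := by ring
    rw [h1, key, key, map_mul]
    rfl
  · intro v w
    apply uniq
    intro a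
    have h1 : -c (h v w) * a = -c (h v w * c a) := by
      rw [c_mul hc, c_c hc]
      ring
    rw [h1, map_neg, tr_c hc, key, key, hρ a w v, hE.alt (ρ (c a) v) w]
  · intro v w
    have h1 := key v w 1
    rw [mul_one, map_one] at h1
    exact h1.symm

end Pool.Agent.NH36.VH
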