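import Pool.Agent.NH36.VH.Stm

/-!
# VH-W1b, VH-W1: hyperbolic coordinates
-/

set_option autoImplicit false

namespace Pool.Agent.NH36.VH

open Module Matrix Pool.Agent.Y90 Pool.Agent.NH32
open Pool.Agent.H204R3.CM (IsHodge)

namespace W1b45

/-- the properties of the conjugation -/
structure Cj {K : Type} [Field K] (c : K → K) : Prop where
  add : ∀ a b, c (a + b) = c a + c b
  mul : ∀ a b, c (a * b) = c a * c b
  inv : ∀ a, c (c a) = a

theorem Cj.zero {K : Type} [Field K] {c : K → K} (hc : Cj c) : c 0 = 0 := by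
  have h := hc.add 0 0
  rw [add_zero] at h
  exact left_eq_add.1 h

theorem Cj.neg {K : Type} [Field K] {c : K → K} (hc : Cj c) (a : K) : c (-a) = -c a := by
  have h := hc.add a (-a)
  rw [add_neg_cancel, hc.zero] at h
  exact (neg_eq_of_add_eq_zero_right h.symm).symm

theorem Cj.inj {K : Type} [Field K] {c : K → K} (hc : Cj c) {a : K} (h : c a = 0) : a = 0 := by
  rw [← hc.inv a, h, hc.zero]

theorem Cj.one {K : Type} [Field K] {c : K → K} (hc : Cj c) : c 1 = 1 := by
  have h := hc.mul 1 (c 1)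
  rw [one_mul, hc.inv, mul_one] at h
  exact h.symm

theorem Cj.sum {K : Type} [Field K] {c : K → K} (hc : Cj c) {ι : Type} (s : Finset ι)
    (f : ι → K) : c (∑ i ∈ s, f i) = ∑ i ∈ s, c (f i) :=
  map_sum (⟨⟨c, hc.zero⟩, hc.add⟩ : K →+ K) f s

theorem cj_of_cmc {K : Type} [Field K] [Algebra ℚ K] {c : K → K} (hc : CMc K c) : Cj c := by
  have hf : FiniteDimensional ℚ K := hc.fin
  let φ : K →ₐ[ℚ] ℂ := IsAlgClosed.lift
  have hi : Function.Injective (φ : K →+* ℂ) := (φ : K →+* ℂ).injective
  refine ⟨fun a b => hi ?_, fun a b => hi ?_, fun a => hi ?_⟩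
  · rw [hc.cc, map_add, map_add, map_add, hc.cc, hc.cc]
  · rw [hc.cc, map_mul, map_mul, map_mul, hc.cc, hc.cc]
  · rw [hc.cc, hc.cc, Complex.conj_conj]

section abs

variable {K V : Type} [Field K] [AddCommGroup V] [Module K V]

/-- the linear form `h (., w)` -/
def HL (h : V → V → K) (hadd : ∀ u v w, h (u + v) w = h u w + h v w)
    (hsm : ∀ (a : K) v w, h (a • v) w = a * h v w) (w : V) : V →ₗ[K] K where
  toFun v := h v w
  map_add' u v := hadd u v w
  map_smul' a v := hsm a v w

theorem main (h2 : (2 : K) ≠ 0) {c : K → K} (hc : Cj c) (h : V → V → K)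
    (hadd : ∀ u v w, h (u + v) w = h u w + h v w)
    (hsm : ∀ (a : K) v w, h (a • v) w = a * h v w) (hsk : ∀ v w, h w v = -c (h v w))
    (hnd : ∀ v, (∀ w, h v w = 0) → v = 0) [FiniteDimensional K V] (W : Submodule K V)
    (hW : ∀ v ∈ W, ∀ v' ∈ W, h v v' = 0) (hdim : 2 * finrank K W = finrank K V) :
    ∃ b : V ≃ₗ[K] (Fin (finrank K W) ⊕ Fin (finrank K W) → K), ∀ v w, h v w =
      ∑ i, (b v (Sum.inl i) * c (b w (Sum.inr i)) - b v (Sum.inr i) * c (b w (Sum.inl i))) := by
  classical
  set d := finrank K W with hd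
  let wb : Basis (Fin d) K W := finBasis K W
  set w : Fin d → V := fun i => (wb i : V) with hw
  have hww : ∀ i j, h (w i) (w j) = 0 := fun i j => hW _ (wb i).2 _ (wb j).2
  -- the second variable
  have hsum1 : ∀ (s : Finset (Fin d)) (f : Fin d → V) (v : V), h (∑ i ∈ s, f i) v =
      ∑ i ∈ s, h (f i) v := fun s f v => map_sum (HL h hadd hsm v) f s
  have hz1 : ∀ v, h 0 v = 0 := fun v => (HL h hadd hsm v).map_zero
  have hadd2 : ∀ u v v', h u (v + v') = h u v + h u v' := by
    intro u v v'
    rw [hsk (v + v') u, hadd, hc.add, hsk v u, hsk v' u]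
    ring
  have hsm2 : ∀ (a : K) u v, h u (a • v) = c a * h u v := by
    intro a u v
    rw [hsk (a • v) u, hsm, hc.mul, hsk v u]
    ring
  have hz2 : ∀ v, h v 0 = 0 := fun v => by rw [hsk 0 v, hz1, hc.zero, neg_zero]
  have hsum2 : ∀ (s : Finset (Fin d)) (f : Fin d → V) (v : V), h v (∑ i ∈ s, f i) =
      ∑ i ∈ s, h v (f i) := fun s f v =>
    map_sum (⟨⟨fun x => h v x, hz2 v⟩, hadd2 v⟩ : V →+ K) f s
  -- the dual vectors
  let Φ : V →ₗ[K] (Fin d → K) := LinearMap.pi fun i => HL h hadd hsm (w i)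
  have hΦ : ∀ v i, Φ v i = h v (w i) := fun v i => rfl
  have hsurj : LinearMap.range Φ = ⊤ := by
    by_contra hne
    obtain ⟨f, hf0, hf⟩ := Submodule.exists_le_ker_of_lt_top _ (lt_top_iff_ne_top.2 hne)
    apply hf0
    set a : Fin d → K := fun i => f (fun j => if i = j then 1 else 0) with ha
    have h1 : ∀ x, f x = ∑ i, x i • a i := fun x => LinearMap.pi_apply_eq_sum_univ f x
    have h3 : ∑ i, c (a i) • w i = 0 := by
      apply hnd
      intro v
      rw [hsk v, hsum2]
      have h4 : ∑ i, h v (c (a i) • w i) = 0 := by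
        have h5 : f (Φ v) = 0 := hf (LinearMap.mem_range_self Φ v)
        rw [h1] at h5
        rw [← h5]
        refine Finset.sum_congr rfl fun i _ => ?_
        rw [hsm2, hc.inv, hΦ, smul_eq_mul, mul_comm]
      rw [h4, hc.zero, neg_zero]
    have h6 : ∑ i, c (a i) • wb i = 0 := by
      apply Subtype.ext
      rw [Submodule.coe_sum, Submodule.coe_zero]
      exact h3
    have h7 : ∀ i, c (a i) = 0 := fun i =>
      Fintype.linearIndependent_iff.1 wb.linearIndependent _ h6 i
    refine LinearMap.ext fun y => ?_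
    rw [h1, LinearMap.zero_apply]
    exact Finset.sum_eq_zero fun i _ => by rw [hc.inj (h7 i), smul_zero]
  have hex : ∀ j, ∃ v, ∀ i, h v (w i) = if i = j then -1 else 0 := by
    intro j
    have h1 : (fun i => if i = j then (-1 : K) else 0) ∈ LinearMap.range Φ := by
      rw [hsurj]
      trivial
    obtain ⟨v, hv⟩ := h1
    exact ⟨v, fun i => congrFun hv i⟩
  choose e' he' using hex
  have hwe' : ∀ i j, h (w i) (e' j) = if i = j then 1 else 0 := by
    intro i j
    rw [hsk (e' j) (w i), he']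
    split_ifs
    · rw [hc.neg, hc.one, neg_neg]
    · rw [hc.zero, neg_zero]
  set e : Fin d → V := fun i => e' i + ∑ k, (-(h (e' i) (e' k)) / 2) • w k with he
  have hwe : ∀ i j, h (w i) (e j) = if i = j then 1 else 0 := by
    intro i j
    simp only [he]
    rw [hadd2, hsum2, Finset.sum_eq_zero, add_zero, hwe']
    intro k _
    rw [hsm2, hww, mul_zero]
  have hew : ∀ i j, h (e i) (w j) = if i = j then -1 else 0 := by
    intro i j
    rw [hsk (w j) (e i), hwe]
    by_cases hij : i = j
    · rw [if_pos hij.symm, if_pos hij, hc.one]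
    · rw [if_neg (Ne.symm hij), if_neg hij, hc.zero, neg_zero]
  have hee : ∀ i j, h (e i) (e j) = 0 := by
    intro i j
    have h3 : h (e i) (e j) = h (e' i) (e j) + -(h (e' i) (e' j)) / 2 := by
      have h4 : h (e i) (e j) = h (e' i) (e j) +
          h (∑ k, (-(h (e' i) (e' k)) / 2) • w k) (e j) := hadd _ _ _
      rw [h4, hsum1]
      congr 1
      rw [Finset.sum_eq_single j]
      · rw [hsm, hwe, if_pos rfl, mul_one]
      · intro k _ hk
        rw [hsm, hwe, if_neg hk, mul_zero]
      · intro hj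
        exact absurd (Finset.mem_univ _) hj
    have h5 : h (e' i) (e j) = h (e' i) (e' j) + c (-(h (e' j) (e' i)) / 2) * (-1) := by
      have h4 : h (e' i) (e j) = h (e' i) (e' j) +
          h (e' i) (∑ k, (-(h (e' j) (e' k)) / 2) • w k) := hadd2 _ _ _
      rw [h4, hsum2]
      congr 1
      rw [Finset.sum_eq_single i]
      · rw [hsm2, he', if_pos rfl]
      · intro k _ hk
        rw [hsm2, he', if_neg hk, mul_zero]
      · intro hj
        exact absurd (Finset.mem_univ _) hj
    have h6 : c (-(h (e' j) (e' i)) / 2) = h (e' i) (e' j) / 2 := by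
      have h7 : c (1 / 2 : K) = 1 / 2 := by
        have h8 : c (1 / 2) + c (1 / 2) = 1 := by
          rw [← hc.add, show (1 / 2 : K) + 1 / 2 = 1 by field_simp; norm_num, hc.one]
        have h9 : c (1 / 2) * 2 = 1 := by linear_combination h8
        field_simp
        linear_combination h9
      have h8 : -(h (e' j) (e' i)) / 2 = -(h (e' j) (e' i)) * (1 / 2) := by ring
      rw [h8, hc.mul, h7, hc.neg, hsk (e' j) (e' i)]
      ring
    rw [h3, h5, h6]
    field_simp
    ring
  -- the coordinates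
  let T : (Fin d ⊕ Fin d → K) →ₗ[K] V := Fintype.linearCombination K (Sum.elim w e)
  have hT : ∀ x, T x = ∑ i, x (Sum.inl i) • w i + ∑ i, x (Sum.inr i) • e i := by
    intro x
    show Fintype.linearCombination K (Sum.elim w e) x = _
    rw [Fintype.linearCombination_apply, Fintype.sum_sum_type]
    rfl
  have F1 : ∀ x i, h (T x) (w i) = -x (Sum.inr i) := by
    intro x i
    rw [hT, hadd, hsum1, hsum1, Finset.sum_eq_zero, zero_add, Finset.sum_eq_single i]
    · rw [hsm, hew, if_pos rfl, mul_neg, mul_one]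
    · intro k _ hk
      rw [hsm, hew, if_neg hk, mul_zero]
    · intro hj
      exact absurd (Finset.mem_univ _) hj
    · intro k _
      rw [hsm, hww, mul_zero]
  have F2 : ∀ x i, h (T x) (e i) = x (Sum.inl i) := by
    intro x i
    rw [hT, hadd, hsum1, hsum1, Finset.sum_eq_single i]
    · rw [hsm, hwe, if_pos rfl, mul_one, Finset.sum_eq_zero, add_zero]
      intro k _
      rw [hsm, hee, mul_zero]
    · intro k _ hk
      rw [hsm, hwe, if_neg hk, mul_zero]
    · intro hj
      exact absurd (Finset.mem_univ _) hj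
  have hinj : Function.Injective T := by
    rw [← LinearMap.ker_eq_bot, LinearMap.ker_eq_bot']
    intro x hx
    funext i
    rcases i with i | i
    · have := F2 x i
      rw [hx, hz1] at this
      exact this.symm
    · have := F1 x i
      rw [hx, hz1] at this
      exact neg_eq_zero.1 this.symm
  have hfr : finrank K (Fin d ⊕ Fin d → K) = finrank K V := by
    rw [finrank_fintype_fun_eq_card, Fintype.card_sum, Fintype.card_fin, ← hdim]
    omega
  let TE : (Fin d ⊕ Fin d → K) ≃ₗ[K] V := LinearMap.linearEquivOfInjective T hinj hfr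
  have hTE : ∀ x, TE x = T x := fun x => rfl
  refine ⟨TE.symm, fun v v' => ?_⟩
  obtain ⟨x, rfl⟩ := TE.surjective v
  obtain ⟨y, rfl⟩ := TE.surjective v'
  rw [TE.symm_apply_apply, TE.symm_apply_apply, hTE, hTE, hT x, hadd, hsum1, hsum1,
    Finset.sum_sub_distrib, sub_eq_add_neg, ← Finset.sum_neg_distrib]
  congr 1
  · refine Finset.sum_congr rfl fun i _ => ?_
    rw [hsm, hsk (T y) (w i), F1, hc.neg, neg_neg]
  · refine Finset.sum_congr rfl fun i _ => ?_
    rw [hsm, hsk (T y) (e i), F2, mul_neg]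

end abs

end W1b45

open W1b45

theorem t_W1b : St_W1b := by
  intro V _ _ _ K _ _ c hcm ρ h W n hadd hsm hsk hnd hdim hWρ hW hWd
  have hc := cj_of_cmc hcm
  have hfK : FiniteDimensional ℚ K := hcm.fin
  let _ : Module K V := Module.compHom V (ρ : K →+* Module.End ℚ V)
  have hsmul : ∀ (a : K) (v : V), a • v = ρ a v := fun a v => rfl
  have _ : IsScalarTower ℚ K V := ⟨fun q a v => by
    rw [hsmul, hsmul, map_smul]
    rfl⟩
  have _ : FiniteDimensional K V := Module.Finite.of_restrictScalars_finite ℚ K V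
  let W' : Submodule K V :=
    { W with smul_mem' := fun a v hv => hWρ a v hv }
  have hK0 : 0 < finrank ℚ K := finrank_pos
  have hV : finrank ℚ K * finrank K V = finrank ℚ V := finrank_mul_finrank ℚ K V
  have hn : finrank K V = n := by
    rw [hdim, mul_comm n] at hV
    exact Nat.eq_of_mul_eq_mul_left hK0 hV
  have hW' : finrank ℚ K * finrank K W' = finrank ℚ W' := finrank_mul_finrank ℚ K W'
  have hW'' : finrank ℚ W' = finrank ℚ W := rfl
  have h2 : 2 * finrank K W' = finrank K V := by
    have h3 : finrank ℚ K * (2 * finrank K W') = finrank ℚ K * finrank K V := by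
      rw [hV, ← hWd, ← hW'', ← hW']
      ring
    exact Nat.eq_of_mul_eq_mul_left hK0 h3
  have hch : CharZero K := algebraRat.charZero K
  obtain ⟨b, hb⟩ := main two_ne_zero hc h hadd (fun a v w => by rw [hsmul]; exact hsm a v w) hsk
    hnd W' (fun v hv v' hv' => hW v hv v' hv') h2
  refine ⟨finrank K W', by omega, b.restrictScalars ℚ, fun a v j => ?_, hb⟩
  have h3 : b (a • v) = a • b v := b.map_smul a v
  exact congrFun h3 j

theorem t_W1 (h : St_W1a) (h' : St_W1b) : St_W1 := by
  intro V _ _ _ K _ _ c hcm ρ E W n hE hnd hdim hρ hWρ hW hWd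
  obtain ⟨hh, hadd, hsm, hsk, htr⟩ := h V K c hcm ρ E hE hρ
  have hfK : FiniteDimensional ℚ K := hcm.fin
  have hnd' : ∀ v, (∀ w, hh v w = 0) → v = 0 := by
    intro v hv
    apply hnd
    intro w
    rw [htr, hv, map_zero]
  have hW' : ∀ v ∈ W, ∀ v' ∈ W, hh v v' = 0 := by
    intro v hv v' hv'
    by_contra hne
    have h1 : E (ρ (hh v v')⁻¹ v) v' = 0 := hW _ (hWρ _ v hv) _ hv'
    rw [htr, hsm, inv_mul_cancel₀ hne] at h1
    have h2 : Algebra.trace ℚ K 1 = finrank ℚ K := by
      have h3 := Algebra.trace_algebraMap (R := ℚ) (S := K) 1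
      rw [map_one] at h3
      rw [h3, nsmul_eq_mul, mul_one]
    rw [h2] at h1
    have h4 : 0 < finrank ℚ K := finrank_pos
    have h5 : finrank ℚ K = 0 := by exact_mod_cast h1
    omega
  obtain ⟨d, hd, b, hb1, hb2⟩ := h' V K c hcm ρ hh W n hadd hsm hsk hnd' hdim hWρ hW' hWd
  exact ⟨d, hd, b, hb1, fun v w => by rw [htr, hb2]⟩

end Pool.Agent.NH36.VH
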