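import Pool.Agent.NH36.VH.Stm

/-!
# VH-W2: abelian varieties with a rational complex structure
-/

set_option autoImplicit false

namespace Pool.Agent.NH36.VH

open Module Matrix Pool.Agent.Y90 Pool.Agent.NH32
open Pool.Agent.H204R3.CM (IsHodge)

noncomputable section

namespace W2p

variable {N : ℕ}

lemma rm_mul (A B : Matrix (Fin N) (Fin N) ℚ) : rm (A * B) = rm A * rm B :=
  Matrix.map_mul (f := Rat.castHom ℝ)

lemma rm_add (A B : Matrix (Fin N) (Fin N) ℚ) : rm (A + B) = rm A + rm B := by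
  ext i j
  simp [rm]

lemma rm_neg (A : Matrix (Fin N) (Fin N) ℚ) : rm (-A) = -rm A := by
  ext i j
  simp [rm]

lemma rm_zero : rm (0 : Matrix (Fin N) (Fin N) ℚ) = 0 := by
  ext i j
  simp [rm]

lemma rm_one : rm (1 : Matrix (Fin N) (Fin N) ℚ) = 1 := by
  ext i j
  by_cases h : i = j
  · subst h
    simp [rm]
  · simp [rm, h]

lemma rm_tr (A : Matrix (Fin N) (Fin N) ℚ) : rm Aᵀ = (rm A)ᵀ := rfl

lemma rv_dot (A : Matrix (Fin N) (Fin N) ℚ) (x y : Fin N → ℚ) :
    rv x ⬝ᵥ (rm A *ᵥ rv y) = ((x ⬝ᵥ (A *ᵥ y) : ℚ) : ℝ) := by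
  simp only [dotProduct, mulVec, rm, rv, Matrix.map_apply]
  push_cast
  rfl

/-- the matrices are determined by the bilinear forms -/
lemma mat_zero {A : Matrix (Fin N) (Fin N) ℚ} (h : ∀ x y : Fin N → ℚ, x ⬝ᵥ (A *ᵥ y) = 0) :
    A = 0 := by
  ext i j
  have := h (Pi.single i 1) (Pi.single j 1)
  rw [Matrix.mulVec_single_one, single_one_dotProduct] at this
  exact this

variable {V : Type} [AddCommGroup V] [Module ℚ V]

/-- the bilinear map -/
def blm {E : V → V → ℚ} (hE : Bil E) : V →ₗ[ℚ] V →ₗ[ℚ] ℚ :=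
  LinearMap.mk₂ ℚ E hE.add (fun a v w => by rw [hE.smul, smul_eq_mul])
    (fun u v w => by rw [hE.alt (v + w) u, hE.add, hE.alt v u, hE.alt w u]; ring)
    (fun a v w => by rw [hE.alt (a • w) v, hE.smul, hE.alt w v, smul_eq_mul]; ring)

/-- the matrix of a bilinear form -/
def mt (b : Basis (Fin N) ℚ V) (E : V → V → ℚ) : Matrix (Fin N) (Fin N) ℚ :=
  of fun i j => E (b i) (b j)

lemma mt_eq (b : Basis (Fin N) ℚ V) {E : V → V → ℚ} (hE : Bil E) (v w : V) :
    E v w = b.equivFun v ⬝ᵥ (mt b E *ᵥ b.equivFun w) := by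
  have h := dotProduct_toMatrix₂_mulVec b b (blm hE) (b.equivFun v) (b.equivFun w)
  have e : LinearMap.toMatrix₂ b b (blm hE) = mt b E := by
    ext i j
    rw [LinearMap.toMatrix₂_apply]
    rfl
  rw [e] at h
  have h2 : (fun i => (RingHom.id ℚ) ((b.equivFun v) i)) = b.equivFun v := rfl
  have h3 : (fun i => (RingHom.id ℚ) ((b.equivFun w) i)) = b.equivFun w := rfl
  simp only [Function.comp_def, h2, h3, LinearEquiv.symm_apply_apply] at h
  rw [h]
  rfl

lemma mt_tr (b : Basis (Fin N) ℚ V) {E : V → V → ℚ} (hE : Bil E) : (mt b E)ᵀ = -mt b E := by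
  ext i j
  show E (b j) (b i) = -E (b i) (b j)
  exact hE.alt _ _

/-- the matrix of an endomorphism -/
def mj (b : Basis (Fin N) ℚ V) (J : V →ₗ[ℚ] V) : Matrix (Fin N) (Fin N) ℚ :=
  LinearMap.toMatrix b b J

lemma mj_eq (b : Basis (Fin N) ℚ V) (J : V →ₗ[ℚ] V) (v : V) :
    mj b J *ᵥ b.equivFun v = b.equivFun (J v) := by
  have h := LinearMap.toMatrix_mulVec_repr b b J v
  exact h

lemma mj_mul (b : Basis (Fin N) ℚ V) (J z : V →ₗ[ℚ] V) : mj b (J ∘ₗ z) = mj b J * mj b z :=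
  LinearMap.toMatrix_comp b b b J z

/-- the skew endomorphisms -/
lemma skew (b : Basis (Fin N) ℚ V) {E : V → V → ℚ} (hE : Bil E) {J : V →ₗ[ℚ] V}
    (hJ : ∀ v w, E (J v) w = -E v (J w)) : (mj b J)ᵀ * mt b E + mt b E * mj b J = 0 := by
  refine mat_zero fun x y => ?_
  obtain ⟨v, rfl⟩ := b.equivFun.surjective x
  obtain ⟨w, rfl⟩ := b.equivFun.surjective y
  rw [Matrix.add_mulVec, dotProduct_add, ← Matrix.mulVec_mulVec, ← Matrix.mulVec_mulVec,
    Matrix.dotProduct_mulVec, Matrix.vecMul_transpose, mj_eq, mj_eq, ← mt_eq b hE, ← mt_eq b hE,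
    hJ, neg_add_cancel]

lemma skewR {J M : Matrix (Fin N) (Fin N) ℚ} (h : Jᵀ * M + M * J = 0) :
    (rm J)ᵀ * rm M + rm M * rm J = 0 := by
  rw [← rm_tr, ← rm_mul, ← rm_mul, ← rm_add, h, rm_zero]

/-- the real bilinear form of a matrix as a multilinear map -/
def ps (M : Matrix (Fin N) (Fin N) ℝ) : MultilinearMap ℝ (fun _ : Fin 2 => Fin N → ℝ) ℝ where
  toFun u := u 0 ⬝ᵥ (M *ᵥ u 1)
  map_update_add' := by
    intro dc m i x y
    obtain rfl : dc = instDecidableEqFin 2 := Subsingleton.elim _ _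
    fin_cases i
    · simp [add_dotProduct]
    · simp [mulVec_add, dotProduct_add]
  map_update_smul' := by
    intro dc m i c x
    obtain rfl : dc = instDecidableEqFin 2 := Subsingleton.elim _ _
    fin_cases i
    · simp [smul_dotProduct]
    · simp [mulVec_smul, dotProduct_smul]

lemma ps_kills {J M : Matrix (Fin N) (Fin N) ℝ} (h : Jᵀ * M + M * J = 0) : Kills J (ps M) := by
  intro u
  rw [Fin.sum_univ_two]
  have h1 : (ps M) (Function.update u 0 (J *ᵥ u 0)) = (J *ᵥ u 0) ⬝ᵥ (M *ᵥ u 1) := by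
    show (Function.update u 0 (J *ᵥ u 0)) 0 ⬝ᵥ (M *ᵥ (Function.update u 0 (J *ᵥ u 0)) 1) = _
    rw [Function.update_self, Function.update_of_ne (by decide)]
  have h2 : (ps M) (Function.update u 1 (J *ᵥ u 1)) = u 0 ⬝ᵥ (M *ᵥ (J *ᵥ u 1)) := by
    show (Function.update u 1 (J *ᵥ u 1)) 0 ⬝ᵥ (M *ᵥ (Function.update u 1 (J *ᵥ u 1)) 1) = _
    rw [Function.update_self, Function.update_of_ne (by decide)]
  rw [h1, h2]
  have h3 : u 0 ⬝ᵥ ((Jᵀ * M + M * J) *ᵥ u 1) = 0 := by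
    rw [h, Matrix.zero_mulVec, dotProduct_zero]
  rw [Matrix.add_mulVec, dotProduct_add, ← Matrix.mulVec_mulVec, ← Matrix.mulVec_mulVec,
    Matrix.dotProduct_mulVec, Matrix.vecMul_transpose] at h3
  exact h3

/-- alternating forms of degree two -/
lemma bil_alt (β : V [⋀^Fin 2]→ₗ[ℚ] ℚ) : Bil fun v w => β ![v, w] where
  add u v w := β.map_vecCons_add _ _ _
  smul a v w := β.map_vecCons_smul _ _ _
  alt v w := by
    have h := β.map_swap ![v, w] (show (0 : Fin 2) ≠ 1 by decide)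
    have e : (![v, w] : Fin 2 → V) ∘ (Equiv.swap (0 : Fin 2) 1) = ![w, v] := by
      funext k
      fin_cases k <;> simp
    rwa [e] at h

end W2p

open W2p

/-- VH-W2 -/
theorem t_W2 (a1 : St_A1) (a3 : St_A3) (a4 : St_A4) (r1 : St_R1) : St_W2 := by
  intro V _ _ _ J E hE hJ hEJ hpos
  set b := Module.finBasis ℚ V with hb
  set M := mt b E with hM
  set Jq := mj b J with hJq
  have hsk : Jqᵀ * M + M * Jq = 0 := skew b hE hEJ
  have hsq : Jq * Jq = -1 := by
    rw [hJq, ← mj_mul]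
    have e : J ∘ₗ J = -LinearMap.id := by
      ext v
      simp [hJ]
    rw [e]
    unfold mj
    rw [map_neg, LinearMap.toMatrix_id]
  have hS : (Jqᵀ * M)ᵀ = Jqᵀ * M := by
    rw [Matrix.transpose_mul, Matrix.transpose_transpose, hM, mt_tr b hE, ← hM]
    have h1 := eq_neg_of_add_eq_zero_left hsk
    rw [h1, Matrix.neg_mul]
  have hSp : ∀ x : Fin (finrank ℚ V) → ℚ, x ≠ 0 → 0 < x ⬝ᵥ ((Jqᵀ * M) *ᵥ x) := by
    intro x hx
    obtain ⟨v, rfl⟩ := b.equivFun.surjective x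
    rw [← Matrix.mulVec_mulVec, Matrix.dotProduct_mulVec, Matrix.vecMul_transpose, hJq, mj_eq, hM,
      ← mt_eq b hE]
    refine hpos v fun h => hx ?_
    rw [h, map_zero]
  have pol : Pol (rm Jq) M := by
    refine ⟨?_, mt_tr b hE, skewR hsk, fun x hx => ?_⟩
    · rw [← rm_mul, hsq, rm_neg, rm_one]
    · have h1 := r1 _ _ hS hSp x hx
      rw [rm_mul, rm_tr, ← Matrix.mulVec_mulVec, Matrix.dotProduct_mulVec,
        Matrix.vecMul_transpose] at h1
      exact h1
  obtain ⟨Y, e', L', hch, hpl⟩ := a1 _ _ _ pol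
  set e : Y.H ≃ₗ[ℚ] V := e'.trans b.equivFun.symm with he
  have hee : ∀ v, b.equivFun (e v) = e' v := fun v => by
    rw [he, LinearEquiv.trans_apply, LinearEquiv.apply_symm_apply]
  refine ⟨Y, e, ?_, fun z hz => ?_, fun β hβ => ?_⟩
  · have h1 : (fun v w => E (e v) (e w)) = fun v w => e' v ⬝ᵥ (M *ᵥ e' w) := by
      funext v w
      rw [mt_eq b hE, hee, hee]
    rw [h1]
    exact hpl
  · have hc : rm Jq * rm (mj b z) = rm (mj b z) * rm Jq := by
      rw [← rm_mul, ← rm_mul, hJq, ← mj_mul, ← mj_mul]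
      have h1 : J ∘ₗ z = z ∘ₗ J := by
        ext v
        exact (hz v).symm
      rw [h1]
    have h2 := a3 Y _ e' L' _ hch (mj b z) hc
    have h3 : e'.symm.toLinearMap ∘ₗ Matrix.toLin' (mj b z) ∘ₗ e'.toLinearMap =
        e.symm.toLinearMap ∘ₗ z ∘ₗ e.toLinearMap := by
      ext v
      show e'.symm (mj b z *ᵥ e' v) = e.symm (z (e v))
      rw [LinearEquiv.symm_apply_eq, ← hee v, mj_eq, ← hee, LinearEquiv.apply_symm_apply]
    rw [h3] at h2
    exact h2
  · rw [a4 Y _ e' L' _ hch]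
    have hB := bil_alt β
    have hBJ : ∀ v w, β ![J v, w] = -β ![v, J w] := by
      intro v w
      have h1 := hβ ![v, J w]
      have h2 : (fun k => J ((![v, J w] : Fin 2 → V) k)) = ![J v, -w] := by
        funext k
        fin_cases k
        · rfl
        · exact hJ w
      rw [h2] at h1
      have h3 : β ![J v, -w] = -β ![J v, w] := by
        have h4 := hB.alt (-w) (J v)
        have h5 := hB.smul (-1) w (J v)
        have h6 := hB.alt w (J v)
        rw [neg_one_smul] at h5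
        rw [h4, h5, h6]
        ring
      rw [h3] at h1
      rw [← h1, neg_neg]
    refine ⟨ps (rm (mt b fun v w => β ![v, w])), fun v => ?_,
      ps_kills (skewR (skew b hB (J := J) hBJ))⟩
    show rv (e' (v 0)) ⬝ᵥ (rm (mt b fun v w => β ![v, w]) *ᵥ rv (e' (v 1))) = _
    rw [rv_dot, ← hee, ← hee, ← mt_eq b hB]
    show ((β ![e (v 0), e (v 1)] : ℚ) : ℝ) = ((β (fun k => e (v k)) : ℚ) : ℝ)
    congr 2
    funext k
    fin_cases k <;> rfl

end

end Pool.Agent.NH36.VH
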