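import Pool.Agent.NH36.VH.Stm

/-!
# Project VH: the Hodge classes of an abelian variety form a ring
-/

set_option autoImplicit false

namespace Pool.Agent.NH36.VH

open Module Pool.Agent.Y90 Pool.Agent.NH32
open Pool.Agent.H204R3.CM (IsHodge)

namespace W3

variable {T : Type} [AddCommGroup T] [Module ℂ T]

/-- the product of two real multilinear forms in separate variables -/
noncomputable def pr {κ κ' : Type} (ψ : MultilinearMap ℝ (fun _ : κ => T) ℝ)
    (ψ' : MultilinearMap ℝ (fun _ : κ' => T) ℝ) : MultilinearMap ℝ (fun _ : κ ⊕ κ' => T) ℝ :=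
  (LinearMap.mul' ℝ ℝ).compMultilinearMap (ψ.domCoprod ψ')

theorem pr_apply {κ κ' : Type} (ψ : MultilinearMap ℝ (fun _ : κ => T) ℝ)
    (ψ' : MultilinearMap ℝ (fun _ : κ' => T) ℝ) (u : κ ⊕ κ' → T) :
    pr ψ ψ' u = ψ (fun k => u (Sum.inl k)) * ψ' (fun k => u (Sum.inr k)) := by
  unfold pr
  rw [LinearMap.compMultilinearMap_apply, MultilinearMap.domCoprod_apply, LinearMap.mul'_apply]

/-- the cup product of two real multilinear forms -/
noncomputable def cu {κ κ' : Type} [Fintype κ] [DecidableEq κ] [Fintype κ'] [DecidableEq κ']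
    (ψ : MultilinearMap ℝ (fun _ : κ => T) ℝ) (ψ' : MultilinearMap ℝ (fun _ : κ' => T) ℝ) :
    MultilinearMap ℝ (fun _ : κ ⊕ κ' => T) ℝ :=
  ∑ σ : Equiv.Perm (κ ⊕ κ'), ((Equiv.Perm.sign σ : ℤ) : ℝ) • (pr ψ ψ').domDomCongr σ

theorem cu_apply {κ κ' : Type} [Fintype κ] [DecidableEq κ] [Fintype κ'] [DecidableEq κ']
    (ψ : MultilinearMap ℝ (fun _ : κ => T) ℝ) (ψ' : MultilinearMap ℝ (fun _ : κ' => T) ℝ)
    (u : κ ⊕ κ' → T) : cu ψ ψ' u = ∑ σ : Equiv.Perm (κ ⊕ κ'), ((Equiv.Perm.sign σ : ℤ) : ℝ) *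
      (ψ (fun k => u (σ (Sum.inl k))) * ψ' (fun k => u (σ (Sum.inr k)))) := by
  unfold cu
  rw [MultilinearMap.sum_apply]
  refine Finset.sum_congr rfl fun σ _ => ?_
  rw [MultilinearMap.smul_apply, MultilinearMap.domDomCongr_apply, pr_apply, smul_eq_mul]

end W3

open W3

theorem t_W3 : St_W3 := by
  intro Y
  refine { unit := ?_, zero := ?_, add := ?_, smul := ?_, reindex := ?_, cup := ?_ }
  · intro κ _ f
    refine ⟨MultilinearMap.constOfIsEmpty ℝ (fun _ : κ => Y.T) ((f fun k => isEmptyElim k : ℚ) : ℝ),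
      fun v => ?_, fun z _ u => rfl⟩
    have e : v = fun k => isEmptyElim k := funext fun k => isEmptyElim k
    rw [e]
    rfl
  · intro κ
    refine ⟨0, fun v => ?_, fun z _ u => rfl⟩
    rw [AlternatingMap.zero_apply, Rat.cast_zero]
    rfl
  · rintro κ f g ⟨ψ, h1, h2⟩ ⟨ψ', h1', h2'⟩
    refine ⟨ψ + ψ', fun v => ?_, fun z hz u => ?_⟩
    · rw [MultilinearMap.add_apply, h1, h1', AlternatingMap.add_apply, Rat.cast_add]
    · rw [MultilinearMap.add_apply, MultilinearMap.add_apply, h2 z hz, h2' z hz]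
  · rintro κ a f ⟨ψ, h1, h2⟩
    refine ⟨(a : ℝ) • ψ, fun v => ?_, fun z hz u => ?_⟩
    · rw [MultilinearMap.smul_apply, h1, AlternatingMap.smul_apply, smul_eq_mul, smul_eq_mul,
        Rat.cast_mul]
    · rw [MultilinearMap.smul_apply, MultilinearMap.smul_apply, h2 z hz]
  · rintro κ κ' e f ⟨ψ, h1, h2⟩
    refine ⟨ψ.domDomCongr e, fun v => ?_, fun z hz u => ?_⟩
    · rw [MultilinearMap.domDomCongr_apply, AlternatingMap.domDomCongr_apply]
      exact h1 fun k => v (e k)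
    · rw [MultilinearMap.domDomCongr_apply, MultilinearMap.domDomCongr_apply]
      exact h2 z hz fun k => u (e k)
  · rintro κ κ' _ _ _ _ f g ⟨ψ, h1, h2⟩ ⟨ψ', h1', h2'⟩ h hc
    refine ⟨cu ψ ψ', fun v => ?_, fun z hz u => ?_⟩
    · rw [cu_apply, hc v]
      push_cast
      refine Finset.sum_congr rfl fun σ _ => ?_
      rw [h1 fun k => v (σ (Sum.inl k)), h1' fun k => v (σ (Sum.inr k))]
    · rw [cu_apply, cu_apply]
      refine Finset.sum_congr rfl fun σ _ => ?_
      rw [h2 z hz fun k => u (σ (Sum.inl k)), h2' z hz fun k => u (σ (Sum.inr k))]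

end Pool.Agent.NH36.VH
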