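import Pool.Agent.NH36.VH.Stm

/-!
# Project VH: forms which are multilinear over `K` are traces of determinants
-/

set_option autoImplicit false

namespace Pool.Agent.NH36.VH

open Module Matrix

namespace W4

/-- the rational dual of `K` as a vector space over `K` -/
def Du (K : Type) [Field K] [Algebra ℚ K] : Type := K →ₗ[ℚ] ℚ

noncomputable section

variable {K : Type} [Field K] [Algebra ℚ K]

instance : AddCommGroup (Du K) := inferInstanceAs (AddCommGroup (K →ₗ[ℚ] ℚ))

/-- evaluation -/
def ev (φ : Du K) (x : K) : ℚ := (show K →ₗ[ℚ] ℚ from φ) x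

theorem ev_add (φ ψ : Du K) (x : K) : ev (φ + ψ) x = ev φ x + ev ψ x := rfl

theorem ev_zero (x : K) : ev (0 : Du K) x = 0 := rfl

theorem Du.ext {φ ψ : Du K} (h : ∀ x, ev φ x = ev ψ x) : φ = ψ := LinearMap.ext h

theorem ev_add' (φ : Du K) (x y : K) : ev φ (x + y) = ev φ x + ev φ y :=
  map_add (show K →ₗ[ℚ] ℚ from φ) x y

instance : Module K (Du K) where
  smul c φ := (show K →ₗ[ℚ] ℚ from φ) ∘ₗ LinearMap.mulLeft ℚ c
  one_smul φ := by
    refine Du.ext fun x => ?_
    show ev φ (1 * x) = ev φ x
    rw [one_mul]
  mul_smul c d φ := by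
    refine Du.ext fun x => ?_
    show ev φ (c * d * x) = ev φ (d * (c * x))
    congr 1
    ring
  smul_zero c := rfl
  smul_add c φ ψ := rfl
  add_smul c d φ := by
    refine Du.ext fun x => ?_
    show ev φ ((c + d) * x) = ev φ (c * x) + ev φ (d * x)
    rw [add_mul, ev_add']
  zero_smul φ := by
    refine Du.ext fun x => ?_
    show ev φ (0 * x) = 0
    rw [zero_mul]
    exact map_zero (show K →ₗ[ℚ] ℚ from φ)

theorem ev_smul (c : K) (φ : Du K) (x : K) : ev (c • φ) x = ev φ (c * x) := rfl

variable {n : ℕ} (w : (Fin n → K) [⋀^Fin n]→ₗ[ℚ] ℚ)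
  (hw : ∀ (a : K) (u : Fin n → Fin n → K) (k l : Fin n),
    w (Function.update u k (a • u k)) = w (Function.update u l (a • u l)))

/-- the functional -/
def Wf (k0 : Fin n) (u : Fin n → Fin n → K) : Du K :=
  show K →ₗ[ℚ] ℚ from
  { toFun := fun a => w (Function.update u k0 (a • u k0))
    map_add' := fun a b => by rw [add_smul, w.map_update_add]
    map_smul' := fun c a => by rw [smul_assoc, w.map_update_smul, RingHom.id_apply] }

theorem ev_Wf (k0 : Fin n) (u : Fin n → Fin n → K) (a : K) :
    ev (Wf w k0 u) a = w (Function.update u k0 (a • u k0)) := rfl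

include hw in
theorem ev_Wf' (k0 k : Fin n) (u : Fin n → Fin n → K) (x : Fin n → K) (a : K) :
    ev (Wf w k0 (Function.update u k x)) a = w (Function.update u k (a • x)) := by
  rw [ev_Wf, hw a _ k0 k, Function.update_self, Function.update_idem]

/-- the alternating form over `K` -/
def WA (k0 : Fin n) : (Fin n → K) [⋀^Fin n]→ₗ[K] Du K where
  toFun := Wf w k0
  map_update_add' := by
    intro inst u i x y
    have : inst = instDecidableEqFin n := Subsingleton.elim _ _
    subst this
    refine Du.ext fun a => ?_
    rw [ev_add, ev_Wf' w hw, ev_Wf' w hw, ev_Wf' w hw, smul_add, w.map_update_add]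
  map_update_smul' := by
    intro inst u i c x
    have : inst = instDecidableEqFin n := Subsingleton.elim _ _
    subst this
    refine Du.ext fun a => ?_
    rw [ev_smul, ev_Wf' w hw, ev_Wf' w hw, smul_smul, mul_comm]
  map_eq_zero_of_eq' := by
    intro u i j hij hne
    refine Du.ext fun a => ?_
    have h1 : w (Function.update u j (a • u j)) = -w (Function.update u i (a • u i)) := by
      rw [← w.map_swap _ hne]
      congr 1
      funext m
      rw [Function.comp_apply]
      by_cases hmi : m = i
      · subst hmi
        rw [Equiv.swap_apply_left, Function.update_of_ne hne, Function.update_of_ne hne.symm, hij]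
      · by_cases hmj : m = j
        · subst hmj
          rw [Equiv.swap_apply_right, Function.update_self, Function.update_self, hij]
        · rw [Equiv.swap_apply_of_ne_of_ne hmi hmj, Function.update_of_ne hmi,
            Function.update_of_ne hmj]
    have h2 : ev (Wf w k0 u) a = w (Function.update u i (a • u i)) := by
      rw [ev_Wf, hw a u k0 i]
    have h3 : ev (Wf w k0 u) a = w (Function.update u j (a • u j)) := by
      rw [ev_Wf, hw a u k0 j]
    show ev (Wf w k0 u) a = 0
    rw [h1, ← h2] at h3
    linarith

theorem WA_apply (k0 : Fin n) (u : Fin n → Fin n → K) : WA w hw k0 u = Wf w k0 u := rfl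

include hw in
theorem main (k0 : Fin n) (u : Fin n → Fin n → K) :
    w u = ev (Wf w k0 fun i => Pi.basisFun K (Fin n) i) (det (of u)) := by
  have h1 : WA w hw k0 = (LinearMap.toSpanSingleton K (Du K)
      (WA w hw k0 (Pi.basisFun K (Fin n)))).compAlternatingMap (Pi.basisFun K (Fin n)).det := by
    refine Basis.ext_alternating (Pi.basisFun K (Fin n)) fun v hv => ?_
    have hb : Function.Bijective v := Finite.injective_iff_bijective.1 hv
    set σ : Equiv.Perm (Fin n) := Equiv.ofBijective v hb with hσ
    have h2 : (fun i => Pi.basisFun K (Fin n) (v i)) = Pi.basisFun K (Fin n) ∘ σ := rfl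
    rw [h2, AlternatingMap.map_perm, AlternatingMap.map_perm]
    congr 1
    rw [LinearMap.compAlternatingMap_apply, Basis.det_self, LinearMap.toSpanSingleton_apply,
      one_smul]
  have h3 := congrArg (fun g => ev (g u) 1) h1
  rw [LinearMap.compAlternatingMap_apply, LinearMap.toSpanSingleton_apply, ev_smul, WA_apply,
    WA_apply, ev_Wf, one_smul, Function.update_eq_self, mul_one, Pi.basisFun_det] at h3
  exact h3

end

end W4

/-- W4 -/
theorem t_W4 : St_W4 := by
  intro V _ _ K _ _ n b w hw hn
  set w' : (Fin n → K) [⋀^Fin n]→ₗ[ℚ] ℚ := w.compLinearMap b.symm.toLinearMap with hw'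
  have key : ∀ u : Fin n → Fin n → K, w' u = w fun i => b.symm (u i) := fun u => rfl
  have hb : ∀ (a : K) (u : Fin n → Fin n → K) (k : Fin n),
      w' (Function.update u k (a • u k)) = w (Function.update (fun i => b.symm (u i)) k
        (b.symm (a • b ((fun i => b.symm (u i)) k)))) := by
    intro a u k
    rw [key]
    congr 1
    funext i
    by_cases h : i = k
    · subst h
      rw [Function.update_self, Function.update_self, LinearEquiv.apply_symm_apply]
    · rw [Function.update_of_ne h, Function.update_of_ne h]
  refine ⟨W4.Wf w' ⟨0, hn⟩ fun i => Pi.basisFun K (Fin n) i, fun v => ?_⟩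
  have h1 := W4.main w' (fun a u k l => by rw [hb, hb, hw]) ⟨0, hn⟩ fun i => b (v i)
  rw [key] at h1
  have h2 : (fun i => b.symm (b (v i))) = v := by
    funext i
    exact b.symm_apply_apply (v i)
  rw [h2] at h1
  exact h1

end Pool.Agent.NH36.VH
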