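import Mathlib
import Pool.Agent.NH36.VH.Stm

/-!
# Project VH: the special member of a family of split Weil type
-/

namespace Pool.Agent.NH36.VH

open Module Matrix Pool.Agent.Y90 Pool.Agent.NH32
open Pool.Agent.H204R3.CM (IsHodge)

noncomputable section

namespace W6

/-! ### The period map is injective, the polarization is nondegenerate -/

theorem per_smul (X : AV) (c : ℚ) (v : X.H) : X.per (c • v) = (c : ℝ) • X.per v := by
  simpa using map_ratCast_smul X.per ℚ ℝ c v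

theorem span_basis (X : AV) {ι : Type} [Fintype ι] (b : Basis ι ℚ X.H) :
    ⊤ ≤ Submodule.span ℝ (Set.range fun i => X.per (b i)) := by
  rw [← X.span, Submodule.span_le]
  rintro _ ⟨v, rfl⟩
  rw [← b.sum_repr v, map_sum]
  refine Submodule.sum_mem _ fun i _ => ?_
  rw [per_smul]
  exact Submodule.smul_mem _ _ (Submodule.subset_span ⟨i, rfl⟩)

theorem finrank_T (X : AV) : finrank ℝ X.T = finrank ℚ X.H := by
  rw [X.rank, finrank_real_of_complex]

/-- The basis of `X.T` given by a basis of `X.H`. -/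
noncomputable def pB (X : AV) {ι : Type} [Fintype ι] (b : Basis ι ℚ X.H) : Basis ι ℝ X.T :=
  basisOfTopLeSpanOfCardEqFinrank (fun i => X.per (b i)) (span_basis X b)
    (by rw [finrank_T, finrank_eq_card_basis b])

theorem pB_apply (X : AV) {ι : Type} [Fintype ι] (b : Basis ι ℚ X.H) (i : ι) :
    pB X b i = X.per (b i) := by
  simp [pB]

theorem ext_eq (X : AV) {V : Type} [AddCommGroup V] [Module ℝ V] (F G : X.T →ₗ[ℝ] V)
    (h : ∀ v, F (X.per v) = G (X.per v)) : F = G := by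
  refine (pB X (finBasis ℚ X.H)).ext fun i => ?_
  rw [pB_apply]
  exact h _

theorem per_inj (X : AV) {v : X.H} (h : X.per v = 0) : v = 0 := by
  have h0 : ∑ i, ((((finBasis ℚ X.H).repr v i : ℚ)) : ℝ) • pB X (finBasis ℚ X.H) i = 0 := by
    rw [← h]
    conv_rhs => rw [← (finBasis ℚ X.H).sum_repr v]
    rw [map_sum]
    refine Finset.sum_congr rfl fun i _ => ?_
    rw [per_smul, pB_apply]
  have h1 := Fintype.linearIndependent_iff.1 (pB X (finBasis ℚ X.H)).linearIndependent _ h0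
  have h2 : (finBasis ℚ X.H).repr v = 0 := by
    ext i
    simpa using h1 i
  simpa using h2

/-- A polarization is bilinear and alternating. -/
theorem bil (Y : AV) {E : Y.H → Y.H → ℚ} (hE : IsPolarization Y.per E) : Bil E := by
  obtain ⟨Ψ, hl, hc, -, hE⟩ := hE
  refine ⟨fun u v w => ?_, fun a v w => ?_, fun v w => ?_⟩
  · have h : ((E (u + v) w : ℚ) : ℝ) = ((E u w + E v w : ℚ) : ℝ) := by
      push_cast
      rw [← hE, ← hE, ← hE, map_add, (hl _).map_add, Complex.add_im]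
    exact_mod_cast h
  · have h : ((E (a • v) w : ℚ) : ℝ) = ((a * E v w : ℚ) : ℝ) := by
      push_cast
      rw [← hE, ← hE, per_smul]
      have h1 : Ψ ((a : ℝ) • Y.per v) (Y.per w) = ((a : ℝ) : ℂ) * Ψ (Y.per v) (Y.per w) :=
        (hl _).map_smul ((a : ℝ) : ℂ) _
      rw [h1, Complex.im_ofReal_mul]
    exact_mod_cast h
  · have h : ((E w v : ℚ) : ℝ) = ((-E v w : ℚ) : ℝ) := by
      push_cast
      rw [← hE, ← hE, hc, Complex.conj_im]
    exact_mod_cast h

/-- A polarization is nondegenerate. -/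
theorem nondeg (Y : AV) {E : Y.H → Y.H → ℚ} (hE : IsPolarization Y.per E) (v : Y.H)
    (hv : ∀ w, E v w = 0) : v = 0 := by
  have hB := bil Y hE
  obtain ⟨Ψ, hl, hc, hp, hE⟩ := hE
  let F : Y.T →ₗ[ℝ] ℝ :=
    { toFun := fun t => (Ψ t (Y.per v)).im
      map_add' := fun s t => by rw [(hl _).map_add, Complex.add_im]
      map_smul' := fun r t => by
        have h1 : Ψ (r • t) (Y.per v) = (r : ℂ) * Ψ t (Y.per v) := (hl _).map_smul (r : ℂ) _
        rw [h1, Complex.im_ofReal_mul, RingHom.id_apply, smul_eq_mul] }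
  have hF : F = 0 := by
    refine ext_eq Y F 0 fun u => ?_
    change (Ψ (Y.per u) (Y.per v)).im = 0
    rw [hE, hB.alt, hv, neg_zero, Rat.cast_zero]
  apply per_inj Y
  by_contra hne
  have h1 := hp _ hne
  have h2 : F (Complex.I • Y.per v) = 0 := by rw [hF]; rfl
  have h3 : Ψ (Complex.I • Y.per v) (Y.per v) = Complex.I * Ψ (Y.per v) (Y.per v) :=
    (hl _).map_smul Complex.I _
  change (Ψ (Complex.I • Y.per v) (Y.per v)).im = 0 at h2
  rw [h3, Complex.I_mul_im] at h2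
  exact h1.ne' h2

/-! ### The complex conjugation and the trace -/

section CM

variable {K : Type} [Field K] [Algebra ℚ K] {c : K → K}

theorem ex_emb (h : CMc K c) : Nonempty (K →ₐ[ℚ] ℂ) := by
  have := h.fin
  have : Algebra.IsAlgebraic ℚ K := Algebra.IsAlgebraic.of_finite ℚ K
  exact ⟨IsAlgClosed.lift⟩

theorem c_mul (h : CMc K c) (x y : K) : c (x * y) = c x * c y := by
  obtain ⟨φ⟩ := ex_emb h
  apply (φ : K →+* ℂ).injective
  rw [map_mul, h.cc, h.cc, h.cc, map_mul, map_mul]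

theorem c_add (h : CMc K c) (x y : K) : c (x + y) = c x + c y := by
  obtain ⟨φ⟩ := ex_emb h
  apply (φ : K →+* ℂ).injective
  rw [map_add, h.cc, h.cc, h.cc, map_add, map_add]

theorem c_c (h : CMc K c) (x : K) : c (c x) = x := by
  obtain ⟨φ⟩ := ex_emb h
  apply (φ : K →+* ℂ).injective
  rw [h.cc, h.cc, Complex.conj_conj]

theorem c_zero (h : CMc K c) : c 0 = 0 := by
  obtain ⟨φ⟩ := ex_emb h
  apply (φ : K →+* ℂ).injective
  rw [h.cc, map_zero, map_zero]

theorem c_sum (h : CMc K c) {ι : Type} (s : Finset ι) (f : ι → K) :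
    c (∑ i ∈ s, f i) = ∑ i ∈ s, c (f i) := by
  classical
  induction s using Finset.induction_on with
  | empty => simpa using c_zero h
  | insert a s ha ih => rw [Finset.sum_insert ha, Finset.sum_insert ha, c_add h, ih]

theorem tr_eq [FiniteDimensional ℚ K] (x : K) :
    ((Algebra.trace ℚ K x : ℚ) : ℂ) = ∑ σ : K →ₐ[ℚ] ℂ, σ x := by
  have h1 := trace_eq_sum_embeddings ℂ (K := ℚ) (L := K) (x := x)
  simpa using h1

theorem tr_c (h : CMc K c) (x : K) : Algebra.trace ℚ K (c x) = Algebra.trace ℚ K x := by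
  have := h.fin
  have h1 : ((Algebra.trace ℚ K (c x) : ℚ) : ℂ) = ((Algebra.trace ℚ K x : ℚ) : ℂ) := by
    have h2 : ((Algebra.trace ℚ K (c x) : ℚ) : ℂ) =
        starRingEnd ℂ ((Algebra.trace ℚ K x : ℚ) : ℂ) := by
      rw [tr_eq, tr_eq, map_sum]
      exact Finset.sum_congr rfl fun σ _ => h.cc (σ : K →+* ℂ) x
    rw [h2, map_ratCast]
  exact_mod_cast h1

theorem tr_pos (h : CMc K c) (x : K) (hx : x ≠ 0) : 0 < Algebra.trace ℚ K (x * c x) := by
  have := h.fin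
  have h1 : ((Algebra.trace ℚ K (x * c x) : ℚ) : ℂ) =
      ((∑ σ : K →ₐ[ℚ] ℂ, Complex.normSq (σ x) : ℝ) : ℂ) := by
    rw [tr_eq, Complex.ofReal_sum]
    refine Finset.sum_congr rfl fun σ _ => ?_
    rw [map_mul]
    have h2 : σ (c x) = starRingEnd ℂ (σ x) := h.cc (σ : K →+* ℂ) x
    rw [h2, Complex.mul_conj]
  have h3 : ((Algebra.trace ℚ K (x * c x) : ℚ) : ℝ) =
      ∑ σ : K →ₐ[ℚ] ℂ, Complex.normSq (σ x) := by
    exact_mod_cast h1
  have h4 : 0 < ∑ σ : K →ₐ[ℚ] ℂ, Complex.normSq (σ x) := by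
    have hne := ex_emb h
    refine Finset.sum_pos (fun σ _ => ?_) (Finset.univ_nonempty_iff.2 hne)
    rw [Complex.normSq_pos]
    exact (map_ne_zero σ).2 hx
  rw [← h3] at h4
  exact_mod_cast h4

theorem tr_nonneg (h : CMc K c) (x : K) : 0 ≤ Algebra.trace ℚ K (x * c x) := by
  by_cases hx : x = 0
  · rw [hx, zero_mul, map_zero]
  · exact (tr_pos h x hx).le

end CM

/-! ### The rational complex structure -/

section J

variable {V K : Type} [AddCommGroup V] [Module ℚ V] [Field K] [Algebra ℚ K] {d : ℕ}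

/-- The rotation of the coordinates. -/
def Jk (K : Type) [Field K] [Algebra ℚ K] (d : ℕ) :
    (Fin d ⊕ Fin d → K) →ₗ[ℚ] (Fin d ⊕ Fin d → K) :=
  LinearMap.pi (Sum.elim (fun i => LinearMap.proj (Sum.inr i))
    (fun i => -LinearMap.proj (Sum.inl i)))

/-- The complex structure. -/
def Jv (b : V ≃ₗ[ℚ] (Fin d ⊕ Fin d → K)) : V →ₗ[ℚ] V :=
  b.symm.toLinearMap ∘ₗ Jk K d ∘ₗ b.toLinearMap

theorem Jl (b : V ≃ₗ[ℚ] (Fin d ⊕ Fin d → K)) (v : V) (i : Fin d) :
    b (Jv b v) (Sum.inl i) = b v (Sum.inr i) := by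
  simp [Jv, Jk]

theorem Jr (b : V ≃ₗ[ℚ] (Fin d ⊕ Fin d → K)) (v : V) (i : Fin d) :
    b (Jv b v) (Sum.inr i) = -b v (Sum.inl i) := by
  simp [Jv, Jk]

theorem JJ (b : V ≃ₗ[ℚ] (Fin d ⊕ Fin d → K)) (v : V) : Jv b (Jv b v) = -v := by
  apply b.injective
  funext j
  rw [map_neg]
  rcases j with i | i
  · rw [Jl, Jr, Pi.neg_apply]
  · rw [Jr, Jl, Pi.neg_apply]

theorem Jrho (b : V ≃ₗ[ℚ] (Fin d ⊕ Fin d → K)) (z : V →ₗ[ℚ] V) (a : K)
    (hz : ∀ v j, b (z v) j = a * b v j) (v : V) : z (Jv b v) = Jv b (z v) := by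
  apply b.injective
  funext j
  rcases j with i | i
  · rw [hz, Jl, Jl, hz]
  · rw [hz, Jr, Jr, hz, mul_neg]

variable {c : K → K} {E : V → V → ℚ}

theorem EJ (b : V ≃ₗ[ℚ] (Fin d ⊕ Fin d → K))
    (hE : ∀ v w, E v w = Algebra.trace ℚ K
      (∑ i, (b v (Sum.inl i) * c (b w (Sum.inr i)) - b v (Sum.inr i) * c (b w (Sum.inl i)))))
    (v w : V) : E (Jv b v) w = Algebra.trace ℚ K
      (∑ i, (b v (Sum.inr i) * c (b w (Sum.inr i)) + b v (Sum.inl i) * c (b w (Sum.inl i)))) := by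
  rw [hE]
  congr 1
  refine Finset.sum_congr rfl fun i _ => ?_
  rw [Jl, Jr]
  ring

theorem EJ_symm (h : CMc K c) (b : V ≃ₗ[ℚ] (Fin d ⊕ Fin d → K))
    (hE : ∀ v w, E v w = Algebra.trace ℚ K
      (∑ i, (b v (Sum.inl i) * c (b w (Sum.inr i)) - b v (Sum.inr i) * c (b w (Sum.inl i)))))
    (v w : V) : E (Jv b v) w = E (Jv b w) v := by
  rw [EJ b hE, EJ b hE, ← tr_c h, c_sum h]
  congr 1
  refine Finset.sum_congr rfl fun i _ => ?_
  rw [c_add h, c_mul h, c_mul h, c_c h, c_c h]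
  ring

theorem EJ_pos (h : CMc K c) (b : V ≃ₗ[ℚ] (Fin d ⊕ Fin d → K))
    (hE : ∀ v w, E v w = Algebra.trace ℚ K
      (∑ i, (b v (Sum.inl i) * c (b w (Sum.inr i)) - b v (Sum.inr i) * c (b w (Sum.inl i)))))
    (v : V) (hv : v ≠ 0) : 0 < E (Jv b v) v := by
  rw [EJ b hE, map_sum]
  have h1 : ∃ i, b v (Sum.inl i) ≠ 0 ∨ b v (Sum.inr i) ≠ 0 := by
    by_contra hc
    push Not at hc
    apply hv
    apply b.injective
    rw [map_zero]
    funext j
    rcases j with i | i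
    · exact (hc i).1
    · exact (hc i).2
  obtain ⟨i, hi⟩ := h1
  refine Finset.sum_pos' (fun j _ => ?_) ⟨i, Finset.mem_univ i, ?_⟩
  · rw [map_add]
    exact add_nonneg (tr_nonneg h _) (tr_nonneg h _)
  · rw [map_add]
    rcases hi with hi | hi
    · exact add_pos_of_nonneg_of_pos (tr_nonneg h _) (tr_pos h _ hi)
    · exact add_pos_of_pos_of_nonneg (tr_pos h _ hi) (tr_nonneg h _)

end J

/-- The form belongs to each ring which contains the classes of degree two. -/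
theorem core (w4 : St_W4) (w5 : St_W5) {X Y : AV} (e : X.H ≃ₗ[ℚ] Y.H) {K : Type} [Field K]
    [Algebra ℚ K] (hK : FiniteDimensional ℚ K) {d : ℕ} (b : Y.H ≃ₗ[ℚ] (Fin d ⊕ Fin d → K))
    (ρ : K →ₐ[ℚ] Module.End ℚ Y.H) (hb : ∀ a v j, b (ρ a v) j = a * b v j)
    (w : Y.H [⋀^Fin (d + d)]→ₗ[ℚ] ℚ) (hmul : ∀ (a : K) (v : Fin (d + d) → Y.H)
      (k l : Fin (d + d)),
      w (Function.update v k (ρ a (v k))) = w (Function.update v l (ρ a (v l))))
    {A : (κ : Type) → (X.H [⋀^κ]→ₗ[ℚ] ℚ) → Prop} (hA : Rg X A)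
    (h2 : ∀ β : Y.H [⋀^Fin 2]→ₗ[ℚ] ℚ, (∀ v : Fin 2 → Y.H, β (fun k => Jv b (v k)) = β v) →
      A (Fin 2) (β.compLinearMap e.toLinearMap)) :
    A (Fin (d + d)) (w.compLinearMap e.toLinearMap) := by
  rcases Nat.eq_zero_or_pos d with h0 | h0
  · subst h0
    have : IsEmpty (Fin (0 + 0)) := Fin.isEmpty
    exact hA.unit _
  let b' : Y.H ≃ₗ[ℚ] (Fin (d + d) → K) :=
    b.trans (LinearEquiv.funCongrLeft ℚ K finSumFinEquiv.symm)
  have hb' : ∀ v k, b' v k = b v (finSumFinEquiv.symm k) := fun v k => rfl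
  have hrho : ∀ (a : K) (v : Y.H), b'.symm (a • b' v) = ρ a v := by
    intro a v
    apply b'.injective
    rw [LinearEquiv.apply_symm_apply]
    funext k
    rw [Pi.smul_apply, hb', hb', hb, smul_eq_mul]
  obtain ⟨μ, hμ⟩ := w4 Y.H K (d + d) b' w (fun a v k l => by
    rw [hrho, hrho]
    exact hmul a v k l) (by omega)
  let l : Fin d → (X.H →ₗ[ℚ] K) := fun i =>
    LinearMap.proj (Sum.inl i) ∘ₗ b.toLinearMap ∘ₗ e.toLinearMap
  let l' : Fin d → (X.H →ₗ[ℚ] K) := fun i =>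
    LinearMap.proj (Sum.inr i) ∘ₗ b.toLinearMap ∘ₗ e.toLinearMap
  have hl : ∀ j v, Sum.elim l l' j v = b (e v) j := by
    intro j v
    rcases j with i | i
    · rfl
    · rfl
  let w2 : X.H [⋀^(Fin d ⊕ Fin d)]→ₗ[ℚ] ℚ :=
    (w.compLinearMap e.toLinearMap).domDomCongr finSumFinEquiv.symm
  have hw2 : ∀ v, w2 v = μ (det (of fun i j => Sum.elim l l' j (v i))) := by
    intro v
    have h3 : w2 v = w (fun i => e (v (finSumFinEquiv.symm i))) := rfl
    rw [h3, hμ, ← Matrix.det_submatrix_equiv_self (finSumFinEquiv (m := d) (n := d)).symm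
      (of fun i j => Sum.elim l l' j (v i))]
    congr 2
    ext i j
    rw [of_apply, submatrix_apply, of_apply, hl, hb']
  have h5 := w5 X A hA K hK d l l' (fun i ν β hβ => by
    have h6 : β = (β.compLinearMap e.symm.toLinearMap).compLinearMap e.toLinearMap := by
      ext v
      simp
    rw [h6]
    refine h2 _ fun v => ?_
    have h7 : ∀ u : Fin 2 → Y.H, (β.compLinearMap e.symm.toLinearMap) u =
        ν (b (u 0) (Sum.inl i) * b (u 1) (Sum.inr i) -
          b (u 0) (Sum.inr i) * b (u 1) (Sum.inl i)) := by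
      intro u
      have h8 : (β.compLinearMap e.symm.toLinearMap) u = β (fun k => e.symm (u k)) := rfl
      rw [h8, hβ]
      have h9 : ∀ (x : Y.H), l i (e.symm x) = b x (Sum.inl i) := fun x => by
        change b (e (e.symm x)) (Sum.inl i) = _
        rw [LinearEquiv.apply_symm_apply]
      have h10 : ∀ (x : Y.H), l' i (e.symm x) = b x (Sum.inr i) := fun x => by
        change b (e (e.symm x)) (Sum.inr i) = _
        rw [LinearEquiv.apply_symm_apply]
      rw [h9, h9, h10, h10]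
    rw [h7, h7, Jl, Jl, Jr, Jr]
    congr 1
    ring) μ w2 hw2
  have h11 := hA.reindex (finSumFinEquiv (m := d) (n := d)) w2 h5
  have h12 : w2.domDomCongr finSumFinEquiv = w.compLinearMap e.toLinearMap := by
    ext v
    change w (fun i => e (v (finSumFinEquiv (finSumFinEquiv.symm i)))) = w (fun i => e (v i))
    simp
  rwa [h12] at h11

end W6

open W6

/-- **W6.** The special member. -/
theorem t_spm (w1 : St_W1) (w2 : St_W2) (w3 : St_W3) (w4 : St_W4) (w5 : St_W5) : St_spm := by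
  intro Y n w hsw 𝒜 h𝒜
  obtain ⟨hw, K, iF, iA, ρ, c, E, W, hfin, hne, hcc, hhom, hfr, hmul, hpol, hros, hWs, hWi,
    hWd⟩ := hsw
  have hCM : CMc K c := ⟨hfin, hne, hcc⟩
  have hB := bil Y hpol
  obtain ⟨d, hn, b, hb, hbE⟩ := w1 Y.H K c hCM ρ E W n hB (nondeg Y hpol) hfr hros hWs hWi hWd
  subst hn
  have hsy := EJ_symm hCM b hbE
  obtain ⟨X, e, hX, hz, hβ⟩ := w2 Y.H (Jv b) E hB (JJ b)
    (fun v u => by rw [hsy, hB.alt]) (EJ_pos hCM b hbE)
  have hH := core w4 w5 e hfin b ρ hb w hmul (w3 X) hβ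
  have hRg : Rg X fun κ f => 𝒜.A X κ f :=
    ⟨fun f => 𝒜.unit f, fun κ => 𝒜.zero X κ, fun f g hf hg => 𝒜.add f g hf hg,
      fun a f hf => 𝒜.smul a f hf, fun e' f hf => 𝒜.reindex e' f hf,
      fun f g hf hg h hh => 𝒜.cup f g hf hg h hh⟩
  have hA := core w4 w5 e hfin b ρ hb w hmul hRg (fun β h => h𝒜 X _ (hβ β h))
  exact ⟨X, e, ⟨hw, hH, K, iF, iA, ρ, c, E, W, hfin, hne, hcc, hhom,
    fun a => hz (ρ a) (Jrho b (ρ a) a (hb a)), hfr, hmul, hpol, hX, hros, hWs, hWi, hWd⟩, hA⟩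

end

end Pool.Agent.NH36.VH
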