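import Mathlib
import Pool.Agent.NH32.GpB
import Pool.Agent.NH36.VH.Asm
import Pool.Agent.NH36.VH.Lib
import Pool.Agent.NH36.VH.A1
import Pool.Agent.NH36.VH.A2
import Pool.Agent.NH36.VH.A3
import Pool.Agent.NH36.VH.A4
import Pool.Agent.NH36.VH.R1
import Pool.Agent.NH36.VH.R2
import Pool.Agent.NH36.VH.C1
import Pool.Agent.NH36.VH.C2
import Pool.Agent.NH36.VH.C3
import Pool.Agent.NH36.VH.C4
import Pool.Agent.NH36.VH.C5
import Pool.Agent.NH36.VH.B0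
import Pool.Agent.NH36.VH.B1
import Pool.Agent.NH36.VH.B2
import Pool.Agent.NH36.VH.B3
import Pool.Agent.NH36.VH.B4
import Pool.Agent.NH36.VH.B5
import Pool.Agent.NH36.VH.B6a
import Pool.Agent.NH36.VH.B6b
import Pool.Agent.NH36.VH.B6c
import Pool.Agent.NH36.VH.B7
import Pool.Agent.NH36.VH.W1a
import Pool.Agent.NH36.VH.W1b
import Pool.Agent.NH36.VH.W2
import Pool.Agent.NH36.VH.W3
import Pool.Agent.NH36.VH.W4
import Pool.Agent.NH36.VH.W5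
import Pool.Agent.NH36.VH.W6

/-!
# Project VH: the main theorem
-/

namespace Pool.Agent.NH36.VH

open Module Pool.Agent.Y90 Pool.Agent.NH32
open Pool.Agent.H204R3.CM (IsHodge)

theorem cmp' : St_cmp := t_cmp t_A1 t_A2 t_A3 t_A4 t_R2 t_C1 t_C2 t_C3 t_C4

theorem b6' : St_B6 := t_B6 t_B6a t_B6b (t_B6c t_R1 t_R2)

theorem cm4' : St_cm4 := t_cm4 t_B0 t_B1 (t_B4 t_cmav t_B0 t_B2 (t_B3 t_spw)) t_B5 b6'

theorem spm' : St_spm := t_spm (t_W1 t_W1a t_W1b) (t_W2 t_A1 t_A3 t_A4 t_R1) t_W3 t_W4 (t_W5 t_W5a)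

/-- The main theorem. -/
theorem main (𝒜 : Sys) : (∀ A : AV, 𝒜.AllHodge A) ↔
    (∀ (X : AV) (f : X.H [⋀^Fin 2]→ₗ[ℚ] ℚ), IsHodge X.per f → 𝒜.A X (Fin 2) f) ∧
    Variational 𝒜 4 ∧ VariationalSplitWeil 𝒜 :=
  asm (fun 𝒜 h4 hW A => generationS 𝒜 h4 hW A) cmp' cm4' spm' 𝒜

end Pool.Agent.NH36.VH
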