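import Pool.Agent.NH36.VH.R1

/-!
# Project VH, B0: eigenfunctionals are holomorphic or antiholomorphic
-/

namespace Pool.Agent.NH36.VH

open Module Matrix Pool.Agent.Y90 Pool.Agent.NH32

namespace B0L

theorem per_smul (X : AV) (q : ℚ) (v : X.H) : X.per (q • v) = (q : ℝ) • X.per v := by
  have h := map_ratCast_smul X.per ℚ ℝ q v
  simpa using h

theorem per_sum (X : AV) {n : ℕ} (b : Fin n → X.H) (x : Fin n → ℚ) :
    X.per (∑ i, x i • b i) = ∑ i, (x i : ℝ) • X.per (b i) := by
  rw [map_sum]
  exact Finset.sum_congr rfl fun i _ => per_smul X _ _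

/-- the real basis of the tangent space -/
theorem exists_basis (X : AV) : ∃ (n : ℕ) (b : Basis (Fin n) ℚ X.H) (B : Basis (Fin n) ℝ X.T),
    ∀ i, B i = X.per (b i) := by
  classical
  let b := Module.finBasis ℚ X.H
  have hspan : ⊤ ≤ Submodule.span ℝ (Set.range fun i => X.per (b i)) := by
    rw [← X.span, Submodule.span_le]
    rintro _ ⟨v, rfl⟩
    have hv : v = ∑ i, b.repr v i • b i := (b.sum_repr v).symm
    rw [hv, per_sum]
    exact Submodule.sum_mem _ fun i _ => Submodule.smul_mem _ _
      (Submodule.subset_span ⟨i, rfl⟩)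
  have hcard : Fintype.card (Fin (finrank ℚ X.H)) = finrank ℝ X.T := by
    rw [Fintype.card_fin, X.rank, finrank_real_of_complex]
  refine ⟨finrank ℚ X.H, b, basisOfTopLeSpanOfCardEqFinrank _ hspan hcard, ?_⟩
  intro i
  rw [coe_basisOfTopLeSpanOfCardEqFinrank]

theorem exists_ext (X : AV) (P : X.H →ₗ[ℚ] ℂ) : ∃ PR : X.T →ₗ[ℝ] ℂ, ∀ v, PR (X.per v) = P v := by
  obtain ⟨n, b, B, hB⟩ := exists_basis X
  refine ⟨B.constr ℝ fun i => P (b i), fun v => ?_⟩
  have hv : v = ∑ i, b.repr v i • b i := (b.sum_repr v).symm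
  conv_lhs => rw [hv, per_sum]
  conv_rhs => rw [hv]
  rw [map_sum, map_sum]
  apply Finset.sum_congr rfl
  intro i _
  rw [map_smul, map_smul, ← hB i, Basis.constr_basis]
  rw [Complex.real_smul, Rat.smul_def]
  norm_cast

/-- two variables -/
theorem ext2 (X : AV) (f : X.T →ₗ[ℝ] X.T →ₗ[ℝ] ℝ) (h : ∀ v w, f (X.per v) (X.per w) = 0) :
    f = 0 := by
  have h1 : ∀ v, f (X.per v) = 0 := by
    intro v
    apply LinearMap.ext_on X.span
    rintro _ ⟨w, rfl⟩
    rw [h v w]
    rfl
  apply LinearMap.ext_on X.span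
  rintro _ ⟨v, rfl⟩
  rw [h1 v]
  rfl

end B0L

open B0L

theorem t_B0 : St_B0 := by
  classical
  intro X E z hX P l hP hl
  obtain ⟨Z, hZ⟩ := hX.hom
  obtain ⟨Ψ, hlin, hconj, hposd, him⟩ := hX.pol
  have hadd1 : ∀ a a' b, Ψ (a + a') b = Ψ a b + Ψ a' b := fun a a' b => (hlin b).map_add a a'
  have hsm1 : ∀ (c : ℂ) a b, Ψ (c • a) b = c * Ψ a b := fun c a b => (hlin b).map_smul c a
  have hsmr : ∀ (t : ℝ) a b, Ψ (t • a) b = t * Ψ a b := by
    intro t a b
    have : t • a = (t : ℂ) • a := (Complex.coe_smul t a).symm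
    rw [this, hsm1]
  have hadd2 : ∀ a b b', Ψ a (b + b') = Ψ a b + Ψ a b' := by
    intro a b b'
    rw [hconj (b + b') a, hadd1, map_add, ← hconj b a, ← hconj b' a]
  have hsmr2 : ∀ (t : ℝ) a b, Ψ a (t • b) = t * Ψ a b := by
    intro t a b
    rw [hconj (t • b) a, hsmr, map_mul, Complex.conj_ofReal, ← hconj b a]
  -- the real bilinear forms
  let W : X.T →ₗ[ℝ] X.T →ₗ[ℝ] ℝ := LinearMap.mk₂ ℝ (fun a b => (Ψ a b).im)
    (by intro a a' b; rw [hadd1, Complex.add_im])
    (by intro t a b; rw [hsmr, smul_eq_mul, Complex.im_ofReal_mul])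
    (by intro a b b'; rw [hadd2, Complex.add_im])
    (by intro t a b; rw [hsmr2, smul_eq_mul, Complex.im_ofReal_mul])
  have hW : ∀ a b, W a b = (Ψ a b).im := fun a b => rfl
  let ZR : X.T →ₗ[ℝ] X.T := Z.restrictScalars ℝ
  have hZR : ∀ a, ZR a = Z a := fun a => rfl
  have hWE : ∀ v w, W (X.per v) (X.per w) = (E v w : ℝ) := fun v w => him v w
  have hskew : ∀ a b, W (Z a) b = -W a (Z b) := by
    intro a b
    have h0 : W.comp ZR + W.compl₂ ZR = 0 := by
      apply ext2 X
      intro v w
      rw [LinearMap.add_apply, LinearMap.add_apply, LinearMap.comp_apply, LinearMap.compl₂_apply,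
        hZR, hZR, hZ, hZ, hWE, hWE, hX.sk]
      push_cast
      ring
    have h1 : (W.comp ZR + W.compl₂ ZR) a b = 0 := by
      rw [h0]
      rfl
    rw [LinearMap.add_apply, LinearMap.add_apply, LinearMap.comp_apply, LinearMap.compl₂_apply,
      hZR, hZR] at h1
    linarith
  have hWalt : ∀ a b, W b a = -W a b := by
    intro a b
    rw [hW, hW, hconj a b, Complex.conj_im]
  have hΨ : ∀ a b, Ψ (Z a) b = -Ψ a (Z b) := by
    intro a b
    have hre : ∀ a b, (Ψ a b).re = W (Complex.I • a) b := by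
      intro a b
      rw [hW, hsm1, Complex.I_mul_im]
    apply Complex.ext
    · rw [Complex.neg_re, hre, hre, ← map_smul, hskew]
    · rw [Complex.neg_im, ← hW, ← hW, hskew]
  -- the positive definite form
  let s : X.T →ₗ[ℝ] X.T →ₗ[ℝ] ℝ := W.comp ZR
  have hs : ∀ a b, s a b = W (Z a) b := fun a b => rfl
  have hssymm : ∀ a b, s a b = s b a := by
    intro a b
    rw [hs, hs, hskew a b, hWalt (Z b) a, neg_neg]
  obtain ⟨n, b, B, hB⟩ := exists_basis X
  let S : Matrix (Fin n) (Fin n) ℚ := of fun i j => E (z (b i)) (b j)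
  have hsS : ∀ i j, s (B i) (B j) = (S i j : ℝ) := by
    intro i j
    rw [hs, hB, hB, hZ, hWE]
    rfl
  have hSum : ∀ x : Fin n → ℝ, s (∑ i, x i • B i) (∑ i, x i • B i) = x ⬝ᵥ (rm S *ᵥ x) := by
    intro x
    rw [LinearMap.map_sum₂]
    unfold dotProduct
    apply Finset.sum_congr rfl
    intro i _
    rw [map_smul, LinearMap.smul_apply, smul_eq_mul, map_sum]
    congr 1
    unfold mulVec dotProduct
    apply Finset.sum_congr rfl
    intro j _
    rw [map_smul, smul_eq_mul, hsS, mul_comm]
    rfl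
  have hSsymm : Sᵀ = S := by
    ext i j
    have h1 := hssymm (B i) (B j)
    rw [hsS, hsS] at h1
    rw [transpose_apply]
    exact_mod_cast h1.symm
  have hSpos : ∀ x : Fin n → ℚ, x ≠ 0 → 0 < x ⬝ᵥ (S *ᵥ x) := by
    intro x hx
    have hv : ∑ i, x i • b i ≠ 0 := by
      intro h0
      apply hx
      funext i
      exact Fintype.linearIndependent_iff.1 b.linearIndependent x h0 i
    have h1 := hX.pos _ hv
    have h2 : ((E (z (∑ i, x i • b i)) (∑ i, x i • b i) : ℚ) : ℝ) = rv x ⬝ᵥ (rm S *ᵥ rv x) := by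
      rw [← hSum, ← hWE, ← hZ, ← hs]
      have h3 : X.per (∑ i, x i • b i) = ∑ i, rv x i • B i := by
        rw [per_sum]
        apply Finset.sum_congr rfl
        intro i _
        rw [hB]
        rfl
      rw [h3]
    rw [R1L.rv_form] at h2
    have h3 : E (z (∑ i, x i • b i)) (∑ i, x i • b i) = x ⬝ᵥ (S *ᵥ x) := by exact_mod_cast h2
    rw [← h3]
    exact h1
  have hspos : ∀ a, a ≠ 0 → 0 < s a a := by
    intro a ha
    have h1 : a = ∑ i, B.repr a i • B i := (B.sum_repr a).symm
    have h2 : (fun i => B.repr a i) ≠ 0 := by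
      intro h0
      apply ha
      rw [h1]
      apply Finset.sum_eq_zero
      intro i _
      rw [show B.repr a i = 0 from congrFun h0 i, zero_smul]
    have h3 := t_R1 n S hSsymm hSpos (fun i => B.repr a i) h2
    rw [← hSum] at h3
    rw [h1]
    exact h3
  -- eigenvalues
  have heig : ∀ (Q : X.T →ₗ[ℂ] ℂ) (m : ℂ), Q ≠ 0 → (∀ u, Q (Z u) = m * Q u) →
      m.re = 0 ∧ 0 < m.im := by
    intro Q m hQ hQZ
    obtain ⟨N, hN⟩ : ∃ N : X.T →ₗ[ℂ] X.T, N = Z - m • LinearMap.id := ⟨_, rfl⟩
    have hns : ¬ Function.Surjective N := by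
      intro hsur
      apply hQ
      apply LinearMap.ext
      intro u
      obtain ⟨w, rfl⟩ := hsur u
      rw [hN, LinearMap.sub_apply, map_sub, hQZ, LinearMap.smul_apply, LinearMap.id_apply,
        map_smul, smul_eq_mul, sub_self]
      rfl
    have hni : ¬ Function.Injective N := by
      intro h
      exact hns (LinearMap.injective_iff_surjective.1 h)
    rw [← LinearMap.ker_eq_bot, ← ne_eq, Submodule.ne_bot_iff] at hni
    obtain ⟨a, ha, ha0⟩ := hni
    have hZa : Z a = m • a := by
      rw [LinearMap.mem_ker, hN, LinearMap.sub_apply, LinearMap.smul_apply, LinearMap.id_apply,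
        sub_eq_zero] at ha
      exact ha
    have hreal : (Ψ a a).im = 0 := by
      have h1 := congrArg Complex.im (hconj a a)
      rw [Complex.conj_im] at h1
      linarith
    have hrp := hposd a ha0
    have h1 := hΨ a a
    rw [hZa, hconj (m • a) a, hsm1] at h1
    have h2 : (m * Ψ a a).re = m.re * (Ψ a a).re := by
      rw [Complex.mul_re, hreal, mul_zero, sub_zero]
    have h3 : (m * Ψ a a).im = m.im * (Ψ a a).re := by
      rw [Complex.mul_im, hreal, mul_zero, zero_add]
    constructor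
    · have h4 := congrArg Complex.re h1
      rw [Complex.neg_re, Complex.conj_re, h2] at h4
      have h5 : m.re * (Ψ a a).re = 0 := by linarith
      rcases mul_eq_zero.1 h5 with h6 | h6
      · exact h6
      · exact absurd h6 hrp.ne'
    · have h4 := hspos a ha0
      rw [hs, hZa, hW, hsm1, h3] at h4
      exact (pos_iff_pos_of_mul_pos h4).2 hrp
  -- the functional
  obtain ⟨PR, hPR⟩ := exists_ext X P
  have hPZ : ∀ u, PR (Z u) = l * PR u := by
    intro u
    have h1 : PR.comp ZR = l • PR := by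
      apply LinearMap.ext_on X.span
      rintro _ ⟨v, rfl⟩
      rw [LinearMap.comp_apply, hZR, hZ, hPR, LinearMap.smul_apply, hPR, hl, smul_eq_mul]
    have h2 := congrArg (fun f : X.T →ₗ[ℝ] ℂ => f u) h1
    exact h2
  have hsmI : ∀ (c : ℂ) (u : X.T), c • u = c.re • u + c.im • (Complex.I • u) := by
    intro c u
    rw [← Complex.coe_smul, ← Complex.coe_smul, smul_smul, ← add_smul, Complex.re_add_im]
  have hPc : ∀ (c : ℂ) (u : X.T), PR (c • u) = c.re * PR u + c.im * PR (Complex.I • u) := by
    intro c u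
    rw [hsmI, map_add, map_smul, map_smul, Complex.real_smul, Complex.real_smul]
  have hI2 : ∀ u : X.T, PR (Complex.I • (Complex.I • u)) = -PR u := by
    intro u
    rw [smul_smul, Complex.I_mul_I, neg_smul, one_smul, map_neg]
  have hPcI : ∀ (c : ℂ) (u : X.T), PR (Complex.I • (c • u)) =
      c.re * PR (Complex.I • u) - c.im * PR u := by
    intro c u
    rw [smul_comm, hPc, hI2]
    ring
  have hc : ∀ c : ℂ, c = c.re + c.im * Complex.I := fun c => (Complex.re_add_im c).symm
  let P10 : X.T →ₗ[ℂ] ℂ :=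
    { toFun := fun u => (PR u - Complex.I * PR (Complex.I • u)) / 2
      map_add' := by
        intro u v
        rw [smul_add, map_add, map_add]
        ring
      map_smul' := by
        intro c u
        rw [hPc, hPcI, RingHom.id_apply, smul_eq_mul]
        linear_combination (c.im * PR (Complex.I • u) / 2) * Complex.I_sq -
          (PR u - Complex.I * PR (Complex.I • u)) / 2 * hc c }
  have hconjc : ∀ c : ℂ, starRingEnd ℂ c = c.re - c.im * Complex.I := by
    intro c
    conv_lhs => rw [hc c]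
    rw [map_add, map_mul, Complex.conj_ofReal, Complex.conj_ofReal, Complex.conj_I]
    ring
  let P01 : X.T →ₗ[ℂ] ℂ :=
    { toFun := fun u => starRingEnd ℂ ((PR u + Complex.I * PR (Complex.I • u)) / 2)
      map_add' := by
        intro u v
        have h1 : (PR (u + v) + Complex.I * PR (Complex.I • (u + v))) / 2 =
            (PR u + Complex.I * PR (Complex.I • u)) / 2 +
              (PR v + Complex.I * PR (Complex.I • v)) / 2 := by
          rw [smul_add, map_add, map_add]
          ring
        rw [h1, map_add]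
      map_smul' := by
        intro c u
        have h1 : (PR (c • u) + Complex.I * PR (Complex.I • (c • u))) / 2 =
            starRingEnd ℂ c * ((PR u + Complex.I * PR (Complex.I • u)) / 2) := by
          rw [hPc, hPcI]
          linear_combination (c.im * PR (Complex.I • u) / 2) * Complex.I_sq -
            (PR u + Complex.I * PR (Complex.I • u)) / 2 * hconjc c
        rw [h1, map_mul, Complex.conj_conj, RingHom.id_apply, smul_eq_mul] }
  have h10 : ∀ u, P10 u = (PR u - Complex.I * PR (Complex.I • u)) / 2 := fun u => rfl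
  have h01 : ∀ u, P01 u = starRingEnd ℂ ((PR u + Complex.I * PR (Complex.I • u)) / 2) :=
    fun u => rfl
  have hsum : ∀ u, PR u = P10 u + starRingEnd ℂ (P01 u) := by
    intro u
    rw [h10, h01, Complex.conj_conj]
    ring
  have hIZ : ∀ u, PR (Complex.I • Z u) = l * PR (Complex.I • u) := by
    intro u
    rw [← map_smul, hPZ]
  have hZ10 : ∀ u, P10 (Z u) = l * P10 u := by
    intro u
    rw [h10, h10, hPZ, hIZ]
    ring
  have hZ01 : ∀ u, P01 (Z u) = starRingEnd ℂ l * P01 u := by
    intro u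
    rw [h01, h01, hPZ, hIZ, ← map_mul]
    congr 1
    ring
  have hne : P10 ≠ 0 ∨ P01 ≠ 0 := by
    by_contra hcon
    rw [not_or, not_not, not_not] at hcon
    apply hP
    apply LinearMap.ext
    intro v
    rw [← hPR, hsum, hcon.1, hcon.2]
    simp
  by_cases hA : P10 = 0
  · have hB : P01 ≠ 0 := by
      rcases hne with h | h
      · exact absurd hA h
      · exact h
    have h1 := heig P01 _ hB hZ01
    rw [Complex.conj_re, Complex.conj_im] at h1
    refine ⟨h1.1, Or.inr ⟨by linarith [h1.2], P01, fun w => ?_⟩⟩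
    show starRingEnd ℂ (P w) = _
    rw [← hPR, hsum, hA, LinearMap.zero_apply, zero_add, Complex.conj_conj]
  · have h1 := heig P10 _ hA hZ10
    have hB : P01 = 0 := by
      by_contra hB
      have h2 := heig P01 _ hB hZ01
      rw [Complex.conj_re, Complex.conj_im] at h2
      linarith [h1.2, h2.2]
    refine ⟨h1.1, Or.inl ⟨h1.2, P10, fun w => ?_⟩⟩
    rw [← hPR, hsum, hB, LinearMap.zero_apply, map_zero, add_zero]

end Pool.Agent.NH36.VH
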