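import Pool.Agent.NH36.VH.Stm

/-! VH-W5: cup products of traces of determinants. -/

set_option autoImplicit false

namespace Pool.Agent.NH36.VH

open Module Matrix Pool.Agent.Y90 Pool.Agent.NH32
open Pool.Agent.H204R3.CM (IsHodge)

namespace W5

open Equiv

section Alg

variable {V : Type} [AddCommGroup V] [Module ℚ V] {K : Type} [Field K] [Algebra ℚ K]
  {κ κ' : Type} [Fintype κ] [DecidableEq κ] [Fintype κ'] [DecidableEq κ']

/-- the product of the functionals -/
noncomputable def pr (l : κ → (V →ₗ[ℚ] K)) : MultilinearMap ℚ (fun _ : κ => V) K :=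
  (MultilinearMap.mkPiAlgebra ℚ κ K).compLinearMap l

omit [DecidableEq κ] in
lemma pr_apply (l : κ → (V →ₗ[ℚ] K)) (v : κ → V) : pr l v = ∏ i, l i (v i) := by
  simp [pr]

/-- the determinant of the functionals -/
noncomputable def dt (l : κ → (V →ₗ[ℚ] K)) : V [⋀^κ]→ₗ[ℚ] K :=
  MultilinearMap.alternatization (pr l)

lemma dt_apply (l : κ → (V →ₗ[ℚ] K)) (v : κ → V) :
    dt l v = det (of fun i j => l j (v i)) := by
  rw [dt, MultilinearMap.alternatization_apply, det_apply]
  refine Finset.sum_congr rfl fun σ _ => ?_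
  rw [MultilinearMap.domDomCongr_apply, pr_apply]
  rfl

/-- the cup product -/
noncomputable def cup {R : Type} [CommRing R] [Algebra ℚ R] (f : V [⋀^κ]→ₗ[ℚ] R)
    (g : V [⋀^κ']→ₗ[ℚ] R) : V [⋀^(κ ⊕ κ')]→ₗ[ℚ] R :=
  (LinearMap.mul' ℚ R).compAlternatingMap
    (MultilinearMap.alternatization
      (MultilinearMap.domCoprod f.toMultilinearMap g.toMultilinearMap))

lemma cup_apply {R : Type} [CommRing R] [Algebra ℚ R] (f : V [⋀^κ]→ₗ[ℚ] R)
    (g : V [⋀^κ']→ₗ[ℚ] R) (v : κ ⊕ κ' → V) :
    cup f g v = ∑ σ : Perm (κ ⊕ κ'), Perm.sign σ •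
      (f (fun k => v (σ (Sum.inl k))) * g (fun k => v (σ (Sum.inr k)))) := by
  rw [cup, LinearMap.compAlternatingMap_apply, MultilinearMap.alternatization_apply, map_sum]
  refine Finset.sum_congr rfl fun σ _ => ?_
  rw [MultilinearMap.domDomCongr_apply, MultilinearMap.domCoprod_apply, map_zsmul_unit,
    LinearMap.mul'_apply]
  rfl

lemma cup_dt (l : κ → (V →ₗ[ℚ] K)) (l' : κ' → (V →ₗ[ℚ] K)) (v : κ ⊕ κ' → V) :
    cup (dt l) (dt l') v =
      ((Fintype.card κ).factorial * (Fintype.card κ').factorial) • dt (Sum.elim l l') v := by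
  have h1 : MultilinearMap.alternatization
      (MultilinearMap.domCoprod (dt l).toMultilinearMap (dt l').toMultilinearMap) =
      ((Fintype.card κ).factorial * (Fintype.card κ').factorial) •
        MultilinearMap.alternatization (MultilinearMap.domCoprod (pr l) (pr l')) := by
    rw [MultilinearMap.domCoprod_alternization_eq, MultilinearMap.domCoprod_alternization]
    rfl
  rw [cup, h1, LinearMap.compAlternatingMap_apply, AlternatingMap.smul_apply, map_nsmul]
  congr 1
  rw [dt, MultilinearMap.alternatization_apply, MultilinearMap.alternatization_apply, map_sum]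
  refine Finset.sum_congr rfl fun σ _ => ?_
  rw [MultilinearMap.domDomCongr_apply, MultilinearMap.domDomCongr_apply,
    MultilinearMap.domCoprod_apply, map_zsmul_unit, LinearMap.mul'_apply, pr_apply, pr_apply,
    pr_apply, Fintype.prod_sum_type]
  rfl

end Alg

lemma alt_sum {V κ ι : Type} [AddCommGroup V] [Module ℚ V] (s : Finset ι)
    (f : ι → (V [⋀^κ]→ₗ[ℚ] ℚ)) (v : κ → V) : (∑ i ∈ s, f i) v = ∑ i ∈ s, f i v := by
  classical
  induction s using Finset.induction_on with
  | empty => rw [Finset.sum_empty, Finset.sum_empty]; rfl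
  | insert a s ha ih =>
    rw [Finset.sum_insert ha, Finset.sum_insert ha, AlternatingMap.add_apply, ih]

lemma sum_mem {Y : AV} {A : (κ : Type) → (Y.H [⋀^κ]→ₗ[ℚ] ℚ) → Prop} (hA : Rg Y A) {κ ι : Type}
    (s : Finset ι) (f : ι → (Y.H [⋀^κ]→ₗ[ℚ] ℚ)) (hf : ∀ i ∈ s, A κ (f i)) :
    A κ (∑ i ∈ s, f i) := by
  classical
  induction s using Finset.induction_on with
  | empty => rw [Finset.sum_empty]; exact hA.zero κ
  | insert a s ha ih =>
    rw [Finset.sum_insert ha]
    exact hA.add _ _ (hf a (Finset.mem_insert_self a s))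
      (ih fun i hi => hf i (Finset.mem_insert_of_mem hi))

end W5

open W5 Equiv

theorem t_W5a : St_W5a := by
  intro Y A hA K _ _ hK κ κ' _ _ _ _ l l' h h' μ w hw
  let b := Module.finBasis ℚ K
  let F := fun r => (b.coord r).compAlternatingMap (dt l)
  let G := fun r => (b.coord r).compAlternatingMap (dt l')
  have hF (r) : A κ (F r) := h (b.coord r) _ fun v => by
    rw [← dt_apply]; rfl
  have hG (r) : A κ' (G r) := h' (b.coord r) _ fun v => by
    rw [← dt_apply]; rfl
  have hH (r s) : A (κ ⊕ κ') (cup (F r) (G s)) :=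
    hA.cup (F r) (G s) (hF r) (hG s) _ fun v => by
      rw [cup_apply]
      refine Finset.sum_congr rfl fun σ _ => ?_
      rw [Units.smul_def, zsmul_eq_mul]
  let N : ℕ := (Fintype.card κ).factorial * (Fintype.card κ').factorial
  have hN : (N : ℚ) ≠ 0 := by
    have : N ≠ 0 := mul_ne_zero (Nat.factorial_ne_zero _) (Nat.factorial_ne_zero _)
    exact_mod_cast this
  have key : w = (N : ℚ)⁻¹ • ∑ r, ∑ s, μ (b r * b s) • cup (F r) (G s) := by
    ext v
    rw [AlternatingMap.smul_apply, smul_eq_mul, hw, eq_inv_mul_iff_mul_eq₀ hN, ← dt_apply,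
      ← nsmul_eq_mul, ← map_nsmul, ← cup_dt, cup_apply, map_sum, alt_sum]
    simp only [alt_sum, AlternatingMap.smul_apply, cup_apply, smul_eq_mul,
      Finset.mul_sum]
    have e1 : ∀ (x y : K), μ (x * y) = ∑ r, ∑ s, μ (b r * b s) * (b.coord r x * b.coord s y) := by
      intro x y
      conv_lhs => rw [← b.sum_repr x, ← b.sum_repr y, Finset.sum_mul_sum, map_sum]
      refine Finset.sum_congr rfl fun r _ => ?_
      rw [map_sum]
      refine Finset.sum_congr rfl fun s _ => ?_
      rw [smul_mul_smul_comm, map_smul, smul_eq_mul, mul_comm]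
      rfl
    have e2 : ∀ r s, (∑ σ : Perm (κ ⊕ κ'), μ (b r * b s) * Perm.sign σ •
        (F r (fun k => v (σ (Sum.inl k))) * G s (fun k => v (σ (Sum.inr k))))) =
        ∑ σ : Perm (κ ⊕ κ'), Perm.sign σ • (μ (b r * b s) *
        (F r (fun k => v (σ (Sum.inl k))) * G s (fun k => v (σ (Sum.inr k))))) := by
      intro r s
      refine Finset.sum_congr rfl fun σ _ => ?_
      rw [mul_smul_comm]
    simp only [e2]
    rw [Finset.sum_congr rfl fun r _ => Finset.sum_comm, Finset.sum_comm]
    refine Finset.sum_congr rfl fun σ _ => ?_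
    rw [map_zsmul_unit, e1, Finset.smul_sum]
    refine Finset.sum_congr rfl fun r _ => ?_
    rw [Finset.smul_sum]
    rfl
  rw [key]
  exact hA.smul _ _ (sum_mem hA _ _ fun r _ => sum_mem hA _ _ fun s _ => hA.smul _ _ (hH r s))

namespace W5

/-- adding one index to each of two families -/
def ef (d : ℕ) : (Fin d ⊕ Fin d) ⊕ Fin 2 → Fin (d + 1) ⊕ Fin (d + 1)
  | Sum.inl (Sum.inl i) => Sum.inl i.castSucc
  | Sum.inl (Sum.inr i) => Sum.inr i.castSucc
  | Sum.inr 0 => Sum.inl (Fin.last d)
  | Sum.inr 1 => Sum.inr (Fin.last d)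

lemma ef_bij (d : ℕ) : Function.Bijective (ef d) := by
  rw [Fintype.bijective_iff_surjective_and_card]
  constructor
  · rintro (j | j)
    · refine Fin.lastCases ⟨Sum.inr 0, rfl⟩ (fun i => ⟨Sum.inl (Sum.inl i), rfl⟩) j
    · refine Fin.lastCases ⟨Sum.inr 1, rfl⟩ (fun i => ⟨Sum.inl (Sum.inr i), rfl⟩) j
  · simp only [Fintype.card_sum, Fintype.card_fin]
    omega

end W5

theorem t_W5 (h : St_W5a) : St_W5 := by
  intro Y A hA K _ _ hK d
  induction d with
  | zero =>
    intro l l' _ μ w _
    exact hA.unit w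
  | succ d ih =>
    intro l l' hl μ w hw
    let e : (Fin d ⊕ Fin d) ⊕ Fin 2 ≃ Fin (d + 1) ⊕ Fin (d + 1) :=
      Equiv.ofBijective (ef d) (ef_bij d)
    let L : Fin d ⊕ Fin d → (Y.H →ₗ[ℚ] K) :=
      Sum.elim (fun i => l i.castSucc) (fun i => l' i.castSucc)
    let L' : Fin 2 → (Y.H →ₗ[ℚ] K) := ![l (Fin.last d), l' (Fin.last d)]
    have he : ∀ x, Sum.elim l l' (e x) = Sum.elim L L' x := by
      rintro ((i | i) | i)
      · rfl
      · rfl
      · fin_cases i
        · rfl
        · rfl
    have h2 : A ((Fin d ⊕ Fin d) ⊕ Fin 2) (w.domDomCongr e.symm) := by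
      refine h Y A hA K hK (Fin d ⊕ Fin d) (Fin 2) L L' ?_ ?_ μ _ ?_
      · intro μ' w' hw'
        exact ih (fun i => l i.castSucc) (fun i => l' i.castSucc)
          (fun i => hl i.castSucc) μ' w' hw'
      · intro μ' w' hw'
        refine hl (Fin.last d) μ' w' fun v => ?_
        rw [hw', det_fin_two]
        rfl
      · intro v
        rw [AlternatingMap.domDomCongr_apply, hw]
        congr 1
        rw [← det_submatrix_equiv_self e]
        congr 1
        ext i j
        show (Sum.elim l l' (e j)) (v (e.symm (e i))) = _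
        rw [he, Equiv.symm_apply_apply]
        rfl
    have h3 := hA.reindex e _ h2
    have h4 : (w.domDomCongr e.symm).domDomCongr e = w := by
      ext v
      rw [AlternatingMap.domDomCongr_apply, AlternatingMap.domDomCongr_apply]
      congr 1
      funext i
      simp
    rwa [h4] at h3

end Pool.Agent.NH36.VH
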